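import Pool.Agent.NPR.XNf
import Pool.Agent.DChain.Reduce

/-!
# NPR: the soluble case for one group

Uses the landed theorem `Pool.Agent.DChain.locFin_of_pgroups` (helper4).

Proofs.

* `solvable_of_xn`: `H` finite, `XN 1 H` (so no section of `H` is simple and nonabelian: such a
  section `S` would be finite with `Nat.card S < 1`, impossible). `H` is soluble: strong
  induction on `Nat.card H`. If `H` is trivial clear. If `H` is simple it is commutative
  (otherwise `H` is a section of itself), so soluble. Otherwise take a normal subgroup `M`
  different from `⊥` and `⊤`; `M` and `H ⧸ M` are smaller and in `XN 1`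
  (`XN.of_injective`, `XN.of_surjective`), so soluble; so `H` is soluble
  (`solvable_of_ker_le_range` with `M.subtype` and `QuotientGroup.mk' M`).
  (In this Mathlib the class is `IsSolvable` or `Group.IsSolvable`, see how `DChain` uses it.)

* `base`: `G` obeys `L`, all subgroups with at most `d` generators are in `XN 1`, `G` finitely
  generated. Let `L₀` be the set of all words `w : FreeGroup ℕ` which are laws of `G`
  (`∀ f : ℕ → G, FreeGroup.lift f w = 1`). `L ⊆ L₀`, so `FiniteGen d L₀` and
  `PLocFin p L₀` for all `p` (groups which obey `L₀` obey `L`), `G` obeys `L₀`. Apply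
  `locFin_of_pgroups` with `k = 1`, `V = {x₀}` (the generator `FreeGroup.of 0` of
  `FreeGroup (Fin 1)`), `d ≥ 3`: `vb V ⊤ = ⊤`; the base hypothesis `hbase` is for groups in which
  `FreeGroup.lift f (of 0) = f 0 = 1` for all `f`, so trivial groups. It remains to show `hsol`:
  a group `H` which obeys `L₀` and is generated by `h : Fin d → H` is soluble. For all
  `g : Fin d → G` the group `closure (range g)` is soluble (`solvable_of_xn`) and its order is
  bounded: there is `c` with `derivedSeries _ c = ⊥` for all `g`: every such group is
  `d`-generated and obeys `L`, and has at most `B` elements (see `exists_bound` in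
  `DChain/Princ.lean`, which gives a bound; a soluble group of order `≤ B` has derived length
  `≤ B`, because the derived series is strictly decreasing until `⊥`; if `exists_bound` is not
  convenient: the free group of rank `d` of the variety of `L` is finite, i.e. all groups are
  images of one finite group). Let `w ∈ derivedSeries (FreeGroup (Fin d)) c`; for every
  `g : Fin d → G` the element `FreeGroup.lift g w` is in the image of the derived series, so
  `1`. Rename the variables by `Fin d → ℕ`: the word is in `L₀`, so `FreeGroup.lift h w = 1`
  (extend `h` to `ℕ → H`). As `FreeGroup.lift h` is onto, `derivedSeries H c = ⊥`.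
-/

set_option autoImplicit false

namespace Pool.Agent.NPR

open Subgroup Pool.Agent.DChain

private theorem solv_aux (n : ℕ) : ∀ (H : Type) [Group H] [Finite H], Nat.card H ≤ n →
    XN 1 H → Group.IsSolvable H := by
  induction n with
  | zero =>
    intro H _ _ h0 _
    have := Nat.card_pos (α := H)
    omega
  | succ n ih =>
    intro H _ _ hn h
    by_cases hsub : Subsingleton H
    · infer_instance
    have hnt : Nontrivial H := not_subsingleton_iff_nontrivial.1 hsub
    by_cases hs : IsSimpleGroup H
    · apply Group.isSolvable_of_comm
      by_contra hc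
      push Not at hc
      have h1 := h.xnfSelf hs hc
      have h2 := Nat.card_pos (α := H)
      omega
    · obtain ⟨M, hMn, hMb, hMt⟩ : ∃ M : Subgroup H, M.Normal ∧ M ≠ ⊥ ∧ M ≠ ⊤ := by
        by_contra hc
        push Not at hc
        apply hs
        exact ⟨fun M hM => by
          by_cases hb : M = ⊥
          · exact Or.inl hb
          · exact Or.inr (hc M hM hb)⟩
      have hcard : Nat.card H = Nat.card (H ⧸ M) * Nat.card M :=
        Subgroup.card_eq_card_quotient_mul_card_subgroup M
      have h1 : 1 < Nat.card M := by
        rw [← not_le]
        intro hle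
        exact hMb ((Subgroup.card_le_one_iff_eq_bot M).1 hle)
      have h2 : 1 < Nat.card (H ⧸ M) := by
        rw [← not_le]
        intro hle
        apply hMt
        have h3 : Nat.card (H ⧸ M) = 1 := le_antisymm hle Nat.card_pos
        exact Subgroup.index_eq_one.1 h3
      have hM : Group.IsSolvable M := by
        refine ih M ?_ (h.of_injective M.subtype M.subtype_injective)
        nlinarith
      have hQ : Group.IsSolvable (H ⧸ M) := by
        refine ih (H ⧸ M) ?_ (h.of_surjective (QuotientGroup.mk' M)
          (QuotientGroup.mk'_surjective M))
        nlinarith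
      exact (Group.isSolvable_iff_subgroup_quotient M).2 ⟨hM, hQ⟩

theorem solvable_of_xn (H : Type) [Group H] [Finite H] (h : XN 1 H) : Group.IsSolvable H :=
  solv_aux _ H le_rfl h

private theorem derived_aux (H : Type) [Group H] [Finite H] [Group.IsSolvable H] (i : ℕ) :
    derivedSeries H i = ⊥ ∨ Nat.card (derivedSeries H i) + i ≤ Nat.card H := by
  induction i with
  | zero =>
    right
    simp
  | succ i ih =>
    rcases ih with h | h
    · left
      rw [derivedSeries_succ, h]
      simp
    · by_cases hb : derivedSeries H i = ⊥
      · left
        rw [derivedSeries_succ, hb]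
        simp
      · right
        have hlt : ⁅derivedSeries H i, derivedSeries H i⁆ < derivedSeries H i :=
          Group.IsSolvable.commutator_lt_of_ne_bot hb
        rw [← derivedSeries_succ] at hlt
        have hc : Nat.card (derivedSeries H (i + 1)) < Nat.card (derivedSeries H i) := by
          by_contra hc
          exact hlt.ne (Subgroup.eq_of_le_of_card_ge hlt.le (not_lt.1 hc))
        omega

private theorem derived_bot (H : Type) [Group H] [Finite H] [Group.IsSolvable H] {B : ℕ}
    (hB : Nat.card H ≤ B) : derivedSeries H B = ⊥ := by
  rcases derived_aux H B with h | h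
  · exact h
  · have := Nat.card_pos (α := derivedSeries H B)
    omega

theorem base {d : ℕ} (hd : 3 ≤ d) {L : Set (FreeGroup ℕ)} (hL : FiniteGen d L)
    (hp : ∀ p : ℕ, p.Prime → PLocFin p L) {G : Type} [Group G] (hG : Obeys L G)
    (hs : ∀ K : Subgroup G, Gn d K → XN 1 K) (hfg : Group.FG G) : Finite G := by
  obtain ⟨L₀, hL₀⟩ : ∃ L₀ : Set (FreeGroup ℕ),
      L₀ = {w | ∀ f : ℕ → G, FreeGroup.lift f w = 1} := ⟨_, rfl⟩
  have hmem : ∀ w, w ∈ L₀ ↔ ∀ f : ℕ → G, FreeGroup.lift f w = 1 := fun w => by
    rw [hL₀]
    exact Iff.rfl
  have hsub : ∀ (B : Type) [Group B], Obeys L₀ B → Obeys L B := fun B _ hB w hw =>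
    hB w ((hmem w).2 (hG w hw))
  have hGo : Obeys L₀ G := fun w hw => (hmem w).1 hw
  obtain ⟨e, he, hbd⟩ := exists_bound hL
  have hloc : LocFin L₀ := by
    refine locFin_of_pgroups (d := d) (k := 1) hd (by omega) {FreeGroup.of 0} L₀
      (fun B _ hB => hL B (hsub B hB)) ?_ ?_ (fun p hpp B _ hB => hp p hpp B (hsub B hB))
    · intro B _ _ _ h
      have hone : ∀ b : B, b = 1 := fun b => by
        simpa using h (FreeGroup.of 0) rfl (fun _ => b)
      have : Subsingleton B := ⟨fun a b => by rw [hone a, hone b]⟩
      infer_instance
    · intro H _ hH hgen
      have hsol : Group.IsSolvable H := by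
        obtain ⟨h, hh⟩ := hgen
        have hsurj : Function.Surjective (FreeGroup.lift h) := by
          rw [← MonoidHom.range_eq_top, FreeGroup.range_lift_eq_closure]
          exact hh
        refine ⟨⟨e, ?_⟩⟩
        rw [← map_derivedSeries_eq hsurj, eq_bot_iff]
        rintro _ ⟨w, hw, rfl⟩
        rw [Subgroup.mem_bot]
        have hcomp : ∀ {A : Type} [Group A] (f : ℕ → A),
            FreeGroup.lift f (FreeGroup.map (fun i : Fin d => (i : ℕ)) w) =
              FreeGroup.lift (fun i : Fin d => f i) w := by
          intro A _ f
          have h1 : (FreeGroup.lift f).comp (FreeGroup.map (fun i : Fin d => (i : ℕ))) =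
              FreeGroup.lift (fun i : Fin d => f i) := by
            ext i
            simp
          exact DFunLike.congr_fun h1 w
        have hw' : FreeGroup.map (fun i : Fin d => (i : ℕ)) w ∈ L₀ := by
          rw [hmem]
          intro f
          rw [hcomp]
          set g : Fin d → G := fun i => f i with hg
          set K : Subgroup G := Subgroup.closure {v | v ∈ List.ofFn g} with hK
          have hgK : ∀ i, g i ∈ K := fun i => Subgroup.subset_closure (by simp)
          have hl : (List.ofFn g).length ≤ d := by rw [List.length_ofFn]
          have hKo : Obeys L K := hG.subgroup K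
          have hKg : Gen d K := gen_closure _ hl
          have hKfin : Finite K := hL K hKo hKg
          have hKs : Group.IsSolvable K := solvable_of_xn K (hs K ⟨_, hl, hK⟩)
          have hKb : derivedSeries K e = ⊥ := derived_bot K (hbd K hKo hKg)
          have h2 : K.subtype.comp (FreeGroup.lift fun i => (⟨g i, hgK i⟩ : K)) =
              FreeGroup.lift g := by
            ext i
            simp
          rw [← h2, MonoidHom.comp_apply]
          have h3 : FreeGroup.lift (fun i => (⟨g i, hgK i⟩ : K)) w ∈ derivedSeries K e :=
            map_derivedSeries_le_derivedSeries _ e ⟨w, hw, rfl⟩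
          rw [hKb, Subgroup.mem_bot] at h3
          rw [h3, map_one]
        have h4 := hH _ hw' (fun i => if hi : i < d then h ⟨i, hi⟩ else 1)
        rw [hcomp] at h4
        rw [← h4]
        congr 2
        funext i
        simp
      infer_instance
  exact hloc G hGo hfg

end Pool.Agent.NPR
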