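import Pool.Agent.NPR.Defs

/-!
# NPR: subnormal simple subgroups commute

Mathlib has `Subgroup.IsSubnormal` (file `Mathlib/GroupTheory/IsSubnormal.lean`, with `trans`,
`map`, `comap`, `subgroupOf`, `inf`, `smul`).

Proofs.

* `comm_normal` (`E` subnormal simple nonabelian, `M` normal in `G`): `E ≤ M` or `E`, `M`
  commute elementwise. Induction on the number of elements of `G` (or on the length of the
  subnormal chain of `E`; induct over all finite groups of order `< Nat.card G`). If `E = ⊤` then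
  `M` is `⊥` or `⊤`. Otherwise `E ≤ G₁`, `G₁` normal, `G₁ < ⊤`
  (`IsSubnormal.exists_normal_and_le_and_lt_top_of_ne`). Induction hypothesis in `G₁` for
  `E.subgroupOf G₁` and `M.subgroupOf G₁`: `E ≤ M` (done) or `E` commutes with `M ⊓ G₁`. In the
  second case `⁅E, M⁆ ≤ G₁ ⊓ M` (as `E ≤ G₁` and both are normal), so `⁅⁅M, E⁆, E⁆ = ⊥` and
  `⁅⁅E, M⁆, E⁆ = ⊥`, so `⁅⁅E, E⁆, M⁆ = ⊥` (three subgroups lemma,
  `Subgroup.commutator_commutator_eq_bot_of_rotate`), and `⁅E, E⁆ = E` because `E` is simple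
  and not commutative. So `⁅E, M⁆ = ⊥`.
* `comm_subnormal` (`E` subnormal simple nonabelian, `F` subnormal): induction on
  `F.IsSubnormal`: `F = ⊤`: `E ≤ ⊤`. Step `F ≤ K`, `F` normal in `K`: by induction
  `E ≤ K` or `E` commutes with `K` (then with `F`). If `E ≤ K` use `comm_normal` in the group
  `K` for `E.subgroupOf K` and `F.subgroupOf K`.
-/

set_option autoImplicit false

namespace Pool.Agent.NPR

open Subgroup

variable {G : Type} [Group G]

private theorem simple_sub_Comp1 {K E : Subgroup G} (h : E ≤ K) (hs : IsSimpleGroup E) :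
    IsSimpleGroup (E.subgroupOf K) := by
  have e : E ≃* E.subgroupOf K := (Subgroup.subgroupOfEquivOfLe h).symm
  have h2 : Nontrivial E := hs.toNontrivial
  have h3 : Nontrivial (E.subgroupOf K) := e.injective.nontrivial
  exact IsSimpleGroup.isSimpleGroup_of_surjective e.toMonoidHom e.surjective

private theorem nonab_sub_Comp1 {K E : Subgroup G} (h : E ≤ K)
    (hn : ∃ a b : E, a * b ≠ b * a) : ∃ a b : E.subgroupOf K, a * b ≠ b * a := by
  obtain ⟨a, b, hab⟩ := hn
  have e : E ≃* E.subgroupOf K := (Subgroup.subgroupOfEquivOfLe h).symm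
  refine ⟨e a, e b, fun h1 => hab (e.injective ?_)⟩
  rw [map_mul, map_mul, h1]

/-- if `E` is simple and commutes with `M ⊓ G₁` then it commutes with `M` -/
private theorem step_Comp1 {E M G₁ : Subgroup G} (hM : M.Normal) (hG : G₁.Normal)
    (hE : E ≤ G₁) (hs : IsSimpleGroup E) (hn : ∃ a b : E, a * b ≠ b * a)
    (hc : ∀ e ∈ E, ∀ x ∈ M, x ∈ G₁ → e * x = x * e) :
    ∀ e ∈ E, ∀ m ∈ M, e * m = m * e := by
  intro e he m hm
  have hmem : ∀ a : E, m * (a : G) * m⁻¹ * (a : G)⁻¹ ∈ M := by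
    intro a
    have h1 : (a : G) * m⁻¹ * (a : G)⁻¹ ∈ M := hM.conj_mem _ (M.inv_mem hm) _
    have h2 := M.mul_mem hm h1
    simpa [mul_assoc] using h2
  have hmem1 : ∀ a : E, m * (a : G) * m⁻¹ * (a : G)⁻¹ ∈ G₁ := fun a =>
    G₁.mul_mem (hG.conj_mem _ (hE a.2) _) (G₁.inv_mem (hE a.2))
  have hca : ∀ a b : E, (a : G) * (m * (b : G) * m⁻¹ * (b : G)⁻¹) =
      (m * (b : G) * m⁻¹ * (b : G)⁻¹) * a := fun a b => hc a a.2 _ (hmem b) (hmem1 b)
  let φ : E →* G := MonoidHom.mk' (fun a : E => m * (a : G) * m⁻¹ * (a : G)⁻¹) (by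
    intro a b
    have h1 := hca a b
    have h2 : m * ((a * b : E) : G) * m⁻¹ * ((a * b : E) : G)⁻¹ =
        m * (a : G) * m⁻¹ * (a : G)⁻¹ * ((a : G) * (m * (b : G) * m⁻¹ * (b : G)⁻¹)) *
          (a : G)⁻¹ := by
      rw [Subgroup.coe_mul]
      group
    rw [h2, h1]
    group)
  have hφ : ∀ a : E, φ a = m * (a : G) * m⁻¹ * (a : G)⁻¹ := fun a => rfl
  have hcomm : ∀ a b : E, φ a * φ b = φ b * φ a := by
    intro a b
    have h1 : m⁻¹ * φ a * m ∈ M := by
      have := hM.conj_mem _ (hmem a) m⁻¹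
      rw [← hφ a, inv_inv] at this
      exact this
    have h2 : m⁻¹ * φ a * m ∈ G₁ := by
      have := hG.conj_mem _ (hmem1 a) m⁻¹
      rw [← hφ a, inv_inv] at this
      exact this
    have h3 := hc b b.2 _ h1 h2
    have h4 := hca b a
    rw [← hφ a] at h4
    have h5 : φ a * (m * (b : G) * m⁻¹) = (m * (b : G) * m⁻¹) * φ a := by
      have h6 : m * ((b : G) * (m⁻¹ * φ a * m)) * m⁻¹ =
          m * ((m⁻¹ * φ a * m) * (b : G)) * m⁻¹ := by rw [h3]
      have h7 : m * ((b : G) * (m⁻¹ * φ a * m)) * m⁻¹ = (m * (b : G) * m⁻¹) * φ a := by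
        group
      have h8 : m * ((m⁻¹ * φ a * m) * (b : G)) * m⁻¹ = φ a * (m * (b : G) * m⁻¹) := by
        group
      rw [← h7, ← h8, h6]
    have h9 : (b : G)⁻¹ * φ a = φ a * (b : G)⁻¹ := by
      rw [inv_mul_eq_iff_eq_mul, ← mul_assoc, h4, mul_inv_cancel_right]
    rw [hφ b]
    calc φ a * (m * (b : G) * m⁻¹ * (b : G)⁻¹) = φ a * (m * (b : G) * m⁻¹) * (b : G)⁻¹ := by
          group
      _ = (m * (b : G) * m⁻¹) * (φ a * (b : G)⁻¹) := by rw [h5]; group
      _ = (m * (b : G) * m⁻¹) * ((b : G)⁻¹ * φ a) := by rw [h9]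
      _ = m * (b : G) * m⁻¹ * (b : G)⁻¹ * φ a := by group
  rcases hs.eq_bot_or_eq_top_of_normal φ.ker inferInstance with h | h
  · exfalso
    obtain ⟨a, b, hab⟩ := hn
    apply hab
    apply (MonoidHom.ker_eq_bot_iff φ).1 h
    rw [map_mul, map_mul, hcomm]
  · have h1 : φ ⟨e, he⟩ = 1 := by
      have h2 : (⟨e, he⟩ : E) ∈ φ.ker := by rw [h]; exact Subgroup.mem_top _
      exact h2
    rw [hφ] at h1
    have h2 : m * e * m⁻¹ = e := mul_inv_eq_one.1 h1
    exact (mul_inv_eq_iff_eq_mul.1 h2).symm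

theorem comm_normal (n : ℕ) : ∀ (G : Type) [Group G] [Finite G], Nat.card G ≤ n →
    ∀ (E M : Subgroup G), E.IsSubnormal → M.Normal → IsSimpleGroup E →
    (∃ a b : E, a * b ≠ b * a) → E ≤ M ∨ ∀ e ∈ E, ∀ m ∈ M, e * m = m * e := by
  induction n with
  | zero =>
    intro G _ _ hcard
    exact absurd (Nat.card_pos (α := G)) (by omega)
  | succ n ih =>
    intro G _ _ hcard E M hE hM hs hn
    by_cases hT : E = ⊤
    · have hnor : (M.subgroupOf E).Normal := inferInstance
      rcases hs.eq_bot_or_eq_top_of_normal _ hnor with h | h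
      · right
        intro e _ m hm
        have h1 : M ⊓ E = ⊥ := by
          rwa [Subgroup.subgroupOf_eq_bot, disjoint_iff] at h
        rw [hT, inf_top_eq] at h1
        rw [h1, Subgroup.mem_bot] at hm
        rw [hm, mul_one, one_mul]
      · left
        exact Subgroup.subgroupOf_eq_top.1 h
    · obtain ⟨G₁, hG, hEG, hlt⟩ := hE.exists_normal_and_le_and_lt_top_of_ne hT
      have hc1 : Nat.card G₁ ≤ n := by
        have h1 : Nat.card G₁ < Nat.card G := by
          rw [← Subgroup.card_top (G := G)]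
          have h2 : (G₁ : Set G) ⊂ ((⊤ : Subgroup G) : Set G) := SetLike.coe_ssubset_coe.2 hlt
          exact Set.ncard_lt_ncard h2 (Set.toFinite _)
        omega
      have hM1 : (M.subgroupOf G₁).Normal := inferInstance
      rcases ih G₁ hc1 (E.subgroupOf G₁) (M.subgroupOf G₁) hE.subgroupOf hM1
        (simple_sub_Comp1 hEG hs) (nonab_sub_Comp1 hEG hn) with h | h
      · left
        intro e he
        have h1 : (⟨e, hEG he⟩ : G₁) ∈ E.subgroupOf G₁ := Subgroup.mem_subgroupOf.2 he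
        exact Subgroup.mem_subgroupOf.1 (h h1)
      · right
        apply step_Comp1 hM hG hEG hs hn
        intro e he x hx hx1
        have h1 := h ⟨e, hEG he⟩ (Subgroup.mem_subgroupOf.2 he) ⟨x, hx1⟩
          (Subgroup.mem_subgroupOf.2 hx)
        exact congrArg Subtype.val h1

theorem comm_subnormal [Finite G] {E F : Subgroup G} (hE : E.IsSubnormal)
    (hF : F.IsSubnormal) (hs : IsSimpleGroup E) (hn : ∃ a b : E, a * b ≠ b * a) :
    E ≤ F ∨ ∀ e ∈ E, ∀ f ∈ F, e * f = f * e := by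
  induction hF with
  | top => exact Or.inl le_top
  | step H K h_le hSubn hN ih =>
    rcases ih with h | h
    · rcases comm_normal (Nat.card K) K le_rfl (E.subgroupOf K) (H.subgroupOf K)
        hE.subgroupOf hN (simple_sub_Comp1 h hs) (nonab_sub_Comp1 h hn) with h1 | h1
      · left
        intro e he
        have h2 : (⟨e, h he⟩ : K) ∈ E.subgroupOf K := Subgroup.mem_subgroupOf.2 he
        exact Subgroup.mem_subgroupOf.1 (h1 h2)
      · right
        intro e he x hx
        have h2 := h1 ⟨e, h he⟩ (Subgroup.mem_subgroupOf.2 he) ⟨x, h_le hx⟩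
          (Subgroup.mem_subgroupOf.2 hx)
        exact congrArg Subtype.val h2
    · exact Or.inr fun e he x hx => h e he x (h_le hx)

end Pool.Agent.NPR
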