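import Pool.Agent.NPR.XNf

/-!
# NPR: the radical `rad N K`

`rad N K` is the join of all `M ≤ K` with `Nz K M` and `XN N M`.

Proofs.

* `le_rad`, `rad_le`: clear (`le_sSup`, `sSup_le`).
* `rad_nz`: conjugation by `k ∈ K` maps each member `M` of the family into itself, so it maps the
  join into itself: for `x ∈ sSup F` use `cj k (sSup F) = sSup` of the conjugates
  (`Subgroup.map_sSup` or induction on the closure, `Subgroup.sSup_eq_iSup`,
  `Subgroup.iSup_induction`).
* `rad_xn` (`K` finite): first the join of two members `M`, `M'` is a member: put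
  `J = M ⊔ M'`; `M.subgroupOf J` is normal, the map `J → J ⧸ M` has kernel isomorphic to `M` and
  its range is the image of `M'` (each element of `J` is `m * m'`, because `M'` normalises
  `M`); use `XN.of_ker`, `XN.of_injective`, `XN.of_surjective`. `Nz K J` as in `rad_nz`. Since
  `K` has finitely many subgroups take a member `M` with the largest number of elements
  (`⊥` is a member, `XN.of_comm`): every member `M'` has `M ⊔ M' = M`, so `rad N K = M`.
* `rad_inf`: `rad N K ⊓ K₁` is contained in `K₁`, normalised by `K₁` and in `XN`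
  (`XN.of_le`, `rad_xn`).
* `rad_of_nz`: `rad N K` is normalised by `L`: for `l ∈ L` the group `cj l (rad N K)` is
  contained in `cj l K = K`, normalised by `K` and in `XN`, so it is contained in `rad N K`.
* `rad_quot`: let `M` be the radical of `⊤ : Subgroup H`, in `XN` by `rad_xn` (`H` is finite as
  an image of `K`). Its preimage `M'` in `K` (as a subgroup of `G`: the elements `(k : G)` with
  `π k ∈ M`) is normalised by `K` and it is in `XN` by `XN.of_ker` (restriction of `π` to
  `M'`: kernel inside `rad N K`, range inside `M`). So `M' ≤ rad N K`, so `M = ⊥`.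
* `le_rad_of_subnormal`: induction on `E.IsSubnormal` for the statement: `rad N E ≤ rad N ⊤`
  for every subnormal `E`. For `⊤` clear. Step: `E ≤ K`, `K` subnormal, `E` normal in `K`:
  `rad N E ≤ rad N K` by `rad_of_nz`. Then `E = rad N E` if `XN N E` (`le_rad`).
-/

set_option autoImplicit false

namespace Pool.Agent.NPR

open Subgroup

variable {G : Type} [Group G]

theorem le_rad {N : ℕ} {K M : Subgroup G} (h1 : M ≤ K) (h2 : Nz K M) (h3 : XN N M) :
    M ≤ rad N K :=
  le_sSup ⟨h1, h2, h3⟩

theorem rad_le {N : ℕ} {K : Subgroup G} : rad N K ≤ K :=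
  sSup_le fun _ h => h.1

theorem rad_nz {N : ℕ} {K : Subgroup G} : Nz K (rad N K) := by
  intro k hk x hx
  have h : rad N K ≤ (rad N K).comap (MulAut.conj k).toMonoidHom := by
    apply sSup_le
    rintro M ⟨h1, h2, h3⟩ y hy
    have h4 : k * y * k⁻¹ ∈ M := h2 k hk y hy
    have h5 : k * y * k⁻¹ ∈ rad N K := le_rad h1 h2 h3 h4
    exact h5
  exact h hx

private theorem radF_nz_sup {K M M' : Subgroup G} (h : Nz K M) (h' : Nz K M') :
    Nz K (M ⊔ M') := by
  intro k hk x hx
  have h1 : M ⊔ M' ≤ (M ⊔ M').comap (MulAut.conj k).toMonoidHom := by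
    apply sup_le
    · intro y hy
      have h4 : k * y * k⁻¹ ∈ M := h k hk y hy
      exact (le_sup_left : M ≤ M ⊔ M') h4
    · intro y hy
      have h4 : k * y * k⁻¹ ∈ M' := h' k hk y hy
      exact (le_sup_right : M' ≤ M ⊔ M') h4
  exact h1 hx

private theorem radF_xn_sup {N : ℕ} {K M M' : Subgroup G} (hM : M ≤ K) (h : Nz K M)
    (hx : XN N M) (hM' : M' ≤ K) (hx' : XN N M') :
    XN N (M ⊔ M' : Subgroup G) := by
  have hJ : M ⊔ M' ≤ K := sup_le hM hM'
  have hn : (M.subgroupOf (M ⊔ M')).Normal := by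
    constructor
    intro n hn g
    exact h g (hJ g.2) n hn
  let φ : (M ⊔ M' : Subgroup G) →* (M ⊔ M' : Subgroup G) ⧸ M.subgroupOf (M ⊔ M') :=
    QuotientGroup.mk' (M.subgroupOf (M ⊔ M'))
  have hker : φ.ker = M.subgroupOf (M ⊔ M') := QuotientGroup.ker_mk' _
  let ψ : M' →* (M ⊔ M' : Subgroup G) ⧸ M.subgroupOf (M ⊔ M') :=
    φ.comp (Subgroup.inclusion le_sup_right)
  have hψ : Function.Surjective ψ := by
    have h1 : (M.subgroupOf (M ⊔ M')) ⊔ (M'.subgroupOf (M ⊔ M')) ≤ ψ.range.comap φ := by
      apply sup_le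
      · intro x hx
        rw [← hker, MonoidHom.mem_ker] at hx
        rw [Subgroup.mem_comap, hx]
        exact ψ.range.one_mem
      · intro x hx
        rw [Subgroup.mem_comap]
        exact ⟨⟨x, hx⟩, rfl⟩
    have h2 : (M.subgroupOf (M ⊔ M')) ⊔ (M'.subgroupOf (M ⊔ M')) = ⊤ := by
      rw [← Subgroup.subgroupOf_sup le_sup_left le_sup_right]
      exact Subgroup.subgroupOf_self _
    rw [h2] at h1
    intro q
    obtain ⟨j, rfl⟩ := QuotientGroup.mk'_surjective (M.subgroupOf (M ⊔ M')) q
    exact h1 (Subgroup.mem_top j)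
  have hq : XN N ((M ⊔ M' : Subgroup G) ⧸ M.subgroupOf (M ⊔ M')) :=
    hx'.of_surjective ψ hψ
  refine XN.of_ker φ ?_ (hq.of_injective φ.range.subtype Subtype.val_injective)
  have hmem : ∀ x : φ.ker, ((x : (M ⊔ M' : Subgroup G)) : G) ∈ M := by
    intro x
    have h3 : (x : (M ⊔ M' : Subgroup G)) ∈ M.subgroupOf (M ⊔ M') := hker.le x.2
    exact h3
  refine hx.of_injective
    (((M ⊔ M').subtype.comp φ.ker.subtype).codRestrict M hmem) ?_
  intro x y hxy
  have h3 : ((x : (M ⊔ M' : Subgroup G)) : G) = ((y : (M ⊔ M' : Subgroup G)) : G) :=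
    congrArg (fun z : M => (z : G)) hxy
  exact Subtype.ext (Subtype.ext h3)

theorem rad_xn {N : ℕ} {K : Subgroup G} [Finite K] : XN N (rad N K) := by
  have hfin : ({M : Subgroup G | M ≤ K ∧ Nz K M ∧ XN N M}).Finite := by
    refine (Set.finite_range (fun H : Subgroup K => H.map K.subtype)).subset ?_
    rintro M ⟨h1, -, -⟩
    refine ⟨M.subgroupOf K, ?_⟩
    exact Subgroup.map_subgroupOf_eq_of_le h1
  have hne : ({M : Subgroup G | M ≤ K ∧ Nz K M ∧ XN N M}).Nonempty := by
    refine ⟨⊥, bot_le, ?_, ?_⟩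
    · intro k _ x hx
      rw [Subgroup.mem_bot] at hx ⊢
      rw [hx]
      simp
    · apply XN.of_comm
      intro a b
      exact Subsingleton.elim _ _
  obtain ⟨M, hM⟩ := hfin.exists_maximal hne
  obtain ⟨h1, h2, h3⟩ := hM.prop
  have hle : rad N K ≤ M := by
    apply sSup_le
    rintro M' ⟨h1', h2', h3'⟩
    have h4 : M ⊔ M' ≤ M :=
      hM.le_of_ge ⟨sup_le h1 h1', radF_nz_sup h2 h2', radF_xn_sup h1 h2 h3 h1' h3'⟩
        le_sup_left
    exact le_sup_right.trans h4
  exact h3.of_le hle

theorem rad_inf {N : ℕ} {K K₁ : Subgroup G} [Finite K] (h : K₁ ≤ K) :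
    rad N K ⊓ K₁ ≤ rad N K₁ := by
  apply le_rad inf_le_right
  · intro k hk x hx
    exact ⟨rad_nz k (h hk) x hx.1, K₁.mul_mem (K₁.mul_mem hk hx.2) (K₁.inv_mem hk)⟩
  · exact (rad_xn (N := N) (K := K)).of_le inf_le_left

theorem rad_of_nz {N : ℕ} {K L : Subgroup G} [Finite L] (h : K ≤ L) (hn : Nz L K) :
    rad N K ≤ rad N L := by
  have hK : Finite K := Finite.of_injective _ (Subgroup.inclusion_injective h)
  apply le_rad (rad_le.trans h)
  · intro l hl x hx
    have h1 : cj l (rad N K) ≤ rad N K := by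
      apply le_rad
      · exact (cj_mono rad_le).trans (cj_le_of_nz hn hl)
      · intro k hk y hy
        rw [mem_cj] at hy ⊢
        have h2 : l⁻¹ * k * l ∈ K := by
          have h3 := hn l⁻¹ (L.inv_mem hl) k hk
          simpa using h3
        have h4 := rad_nz (N := N) _ h2 _ hy
        have h5 : l⁻¹ * (k * y * k⁻¹) * l
            = (l⁻¹ * k * l) * (l⁻¹ * y * l) * (l⁻¹ * k * l)⁻¹ := by group
        rw [h5]
        exact h4
      · exact (rad_xn (N := N) (K := K)).of_injective
          (cjEquiv l (rad N K)).symm.toMonoidHom (cjEquiv l (rad N K)).symm.injective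
    exact h1 (conj_mem_cj hx)
  · exact rad_xn

theorem rad_quot {N : ℕ} {K : Subgroup G} [Finite K] {H : Type} [Group H] (π : K →* H)
    (hs : Function.Surjective π) (hk : ∀ k : K, π k = 1 ↔ (k : G) ∈ rad N K) :
    rad N (⊤ : Subgroup H) = ⊥ := by
  have hH : Finite H := Finite.of_surjective π hs
  set M : Subgroup H := rad N (⊤ : Subgroup H) with hMdef
  have hMx : XN N M := rad_xn
  have hMn : Nz (⊤ : Subgroup H) M := rad_nz
  have hle : (M.comap π).map K.subtype ≤ rad N K := by
    apply le_rad
    · exact Subgroup.map_subtype_le _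
    · rintro k hk' _ ⟨y, hy, rfl⟩
      refine ⟨⟨k, hk'⟩ * y * ⟨k, hk'⟩⁻¹, ?_, rfl⟩
      have h1 : π y ∈ M := hy
      have h2 := hMn (π ⟨k, hk'⟩) (Subgroup.mem_top _) _ h1
      change π (⟨k, hk'⟩ * y * ⟨k, hk'⟩⁻¹) ∈ M
      rw [map_mul, map_mul, map_inv]
      exact h2
    · have h1 : XN N (M.comap π) := by
        refine XN.of_ker (π.subgroupComap M) ?_
          (hMx.of_injective (π.subgroupComap M).range.subtype Subtype.val_injective)
        have hmem : ∀ x : (π.subgroupComap M).ker,
            (((x : M.comap π) : K) : G) ∈ rad N K := by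
          intro x
          rw [← hk]
          have h3 : (π.subgroupComap M) (x : M.comap π) = 1 := x.2
          exact congrArg (fun z : M => (z : H)) h3
        refine (rad_xn (N := N) (K := K)).of_injective
          ((K.subtype.comp ((M.comap π).subtype.comp
            (π.subgroupComap M).ker.subtype)).codRestrict (rad N K) hmem) ?_
        intro x y hxy
        have h3 : (((x : M.comap π) : K) : G) = (((y : M.comap π) : K) : G) :=
          congrArg (fun z : rad N K => (z : G)) hxy
        exact Subtype.ext (Subtype.ext (Subtype.ext h3))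
      exact h1.of_injective
        ((M.comap π).equivMapOfInjective K.subtype K.subtype_injective).symm.toMonoidHom
        ((M.comap π).equivMapOfInjective K.subtype K.subtype_injective).symm.injective
  rw [Subgroup.eq_bot_iff_forall]
  intro m hm
  obtain ⟨k, rfl⟩ := hs m
  rw [hk]
  exact hle ⟨k, hm, rfl⟩

theorem le_rad_of_subnormal {N : ℕ} [Finite G] {E : Subgroup G} (h : E.IsSubnormal)
    (hx : XN N E) : E ≤ rad N ⊤ := by
  have key : rad N E ≤ rad N ⊤ := by
    clear hx
    induction h with
    | top => exact le_refl _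
    | step H K hle _ hN ih =>
      refine (rad_of_nz hle ?_).trans ih
      intro k hk x hx
      exact hN.conj_mem ⟨x, hle hx⟩ hx ⟨k, hk⟩
  refine le_trans (le_rad le_rfl ?_ hx) key
  intro k hk x hx'
  exact E.mul_mem (E.mul_mem hk hx') (E.inv_mem hk)

end Pool.Agent.NPR
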