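import Pool.Agent.NPR.Smf
import Pool.Agent.NPR.RadF
import Pool.Agent.NPR.Comp1

/-!
# NPR: components

Proofs.

* `exists_red_top` (`G` finite, `XN (N + 1) G`, `rad N ⊤ = ⊥`): take
  `Ω = {E | E.IsSubnormal ∧ Sm N E}`.
  `comm`: if `E ≠ F` then `comm_subnormal` gives `E ≤ F` (so `E = F`, `Sm.eq_of_le`) or commuting.
  `conj`: conjugates of subnormal subgroups are subnormal (`IsSubnormal.map` for the surjective
  `MulAut.conj h`), and `Sm.cj`.
  `faithful`: let `C` be the subgroup of all `c` which commute with all elements of all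
  `E ∈ Ω`. It is normal (because of `conj`). Suppose `C ≠ ⊥`. Among the subgroups `E ≠ ⊥` of `C`
  which are subnormal in `G` (`C` is one) take one with the least number of elements. It is
  simple: a normal subgroup `M` of `E` is subnormal in `G` (`IsSubnormal.trans`), so `M = ⊥` or
  `M = E`. If `XN N E` then `E ≤ rad N ⊤ = ⊥` (`le_rad_of_subnormal`), contradiction. So
  `Sm N E` (`XN.sm_of_not`, `XN.of_le`), `E ∈ Ω`, so `E ≤ C` commutes with itself,
  contradiction to `nonab`.
* `exists_red`: `H := K ⧸ (rad N K).subgroupOf K`, `π` the quotient map; `XN (N + 1) H`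
  (`XN.of_surjective`), `rad N (⊤ : Subgroup H) = ⊥` (`rad_quot`); use `exists_red_top`.
-/

set_option autoImplicit false

namespace Pool.Agent.NPR

open Subgroup

variable {G : Type} [Group G]

/-- the centraliser of all members of a set of subgroups -/
private def cenComp (Ω : Set (Subgroup G)) : Subgroup G where
  carrier := {c | ∀ E ∈ Ω, ∀ e ∈ E, c * e = e * c}
  one_mem' := by
    intro E _ e _
    rw [one_mul, mul_one]
  mul_mem' := by
    intro a b ha hb E hE e he
    rw [mul_assoc, hb E hE e he, ← mul_assoc, ha E hE e he, mul_assoc]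
  inv_mem' := by
    intro a ha E hE e he
    have h := ha E hE e he
    rw [inv_mul_eq_iff_eq_mul, ← mul_assoc, h, mul_assoc, mul_inv_cancel, mul_one]

private theorem mem_cenComp {Ω : Set (Subgroup G)} {c : G} :
    c ∈ cenComp Ω ↔ ∀ E ∈ Ω, ∀ e ∈ E, c * e = e * c := Iff.rfl

theorem exists_red_top {N : ℕ} [Finite G] (hx : XN (N + 1) G)
    (hr : rad N (⊤ : Subgroup G) = ⊥) : Red N G {E | E.IsSubnormal ∧ Sm N E} := by
  have hconj : ∀ E ∈ {E : Subgroup G | E.IsSubnormal ∧ Sm N E}, ∀ h : G,
      cj h E ∈ {E : Subgroup G | E.IsSubnormal ∧ Sm N E} := by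
    rintro E ⟨h1, h2⟩ h
    refine ⟨?_, h2.cj h⟩
    exact h1.map (f := (MulAut.conj h).toMonoidHom) (MulAut.conj h).surjective
  refine ⟨fun E hE => hE.2, ?_, hconj, ?_⟩
  · rintro E ⟨hE1, hE2⟩ F ⟨hF1, hF2⟩ hne e he f hf
    rcases comm_subnormal hE1 hF1 hE2.simple hE2.nonab with h | h
    · exact absurd (hE2.eq_of_le hF2 h) hne
    · exact h e he f hf
  · intro c hc
    set Ω : Set (Subgroup G) := {E | E.IsSubnormal ∧ Sm N E} with hΩ
    have hcC : c ∈ cenComp Ω := mem_cenComp.2 hc
    have hCn : (cenComp Ω).Normal := by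
      refine ⟨fun a ha g => ?_⟩
      rw [mem_cenComp] at ha ⊢
      intro E hE e he
      have h1 : g⁻¹ * e * g ∈ cj g⁻¹ E := by
        rw [mem_cj]
        simpa [mul_assoc] using he
      have h2 := ha _ (hconj E hE g⁻¹) _ h1
      have h3 := congrArg (fun x => g * x * g⁻¹) h2
      simpa [mul_assoc] using h3
    by_contra hne
    have hCb : cenComp Ω ≠ ⊥ := by
      intro h0
      rw [h0, Subgroup.mem_bot] at hcC
      exact hne hcC
    obtain ⟨E, ⟨hE1, hE2, hE3⟩, hmin⟩ := Set.exists_min_image
      {E : Subgroup G | E ≤ cenComp Ω ∧ E ≠ ⊥ ∧ E.IsSubnormal} (fun E => Nat.card E)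
      (Set.toFinite _) ⟨cenComp Ω, le_refl _, hCb, hCn.isSubnormal⟩
    have hnt : Nontrivial E := (Subgroup.nontrivial_iff_ne_bot E).2 hE2
    have hsimple : IsSimpleGroup E := by
      refine { toNontrivial := hnt, eq_bot_or_eq_top_of_normal := ?_ }
      intro M hM
      by_cases hMb : M = ⊥
      · exact Or.inl hMb
      · right
        have h1 : (M.map E.subtype).IsSubnormal := hM.isSubnormal.trans' hE3
        have h2 : M.map E.subtype ≠ ⊥ := by
          intro h0
          apply hMb
          exact (Subgroup.map_eq_bot_iff_of_injective M E.subtype_injective).1 h0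
        have h3 : M.map E.subtype ≤ cenComp Ω := (Subgroup.map_subtype_le M).trans hE1
        have h4 := hmin _ ⟨h3, h2, h1⟩
        have h5 : Nat.card (M.map E.subtype) = Nat.card M :=
          (Nat.card_congr (M.equivMapOfInjective _ E.subtype_injective).toEquiv).symm
        have h6 : Nat.card E ≤ Nat.card M := by
          rw [← h5]
          exact h4
        exact Subgroup.eq_top_of_le_card M h6
    have hnx : ¬ XN N E := by
      intro h0
      have h1 := le_rad_of_subnormal hE3 h0
      rw [hr, le_bot_iff] at h1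
      exact hE2 h1
    have hEx : XN (N + 1) E := hx.of_injective E.subtype E.subtype_injective
    have hsm : Sm N E := hEx.sm_of_not hsimple hnx
    obtain ⟨a, b, hab⟩ := hsm.nonab
    apply hab
    apply Subtype.ext
    exact (mem_cenComp.1 (hE1 a.2)) E ⟨hE3, hsm⟩ b b.2

theorem exists_red {N : ℕ} (K : Subgroup G) [Finite K] (hK : XN (N + 1) K) :
    ∃ (H : Type) (_ : Group H) (_ : Finite H) (π : K →* H) (Ω : Set (Subgroup H)),
      Function.Surjective π ∧ (∀ k : K, π k = 1 ↔ (k : G) ∈ rad N K) ∧ Red N H Ω := by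
  have hn : ((rad N K).subgroupOf K).Normal := by
    refine ⟨fun m hm d => ?_⟩
    rw [Subgroup.mem_subgroupOf] at hm ⊢
    exact rad_nz (d : G) d.2 (m : G) hm
  have hs : Function.Surjective (QuotientGroup.mk' ((rad N K).subgroupOf K)) :=
    QuotientGroup.mk'_surjective _
  have hk : ∀ k : K, QuotientGroup.mk' ((rad N K).subgroupOf K) k = 1 ↔ (k : G) ∈ rad N K := by
    intro k
    rw [QuotientGroup.mk'_apply, QuotientGroup.eq_one_iff, Subgroup.mem_subgroupOf]
  have hf : Finite (K ⧸ (rad N K).subgroupOf K) := Finite.of_surjective _ hs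
  refine ⟨K ⧸ (rad N K).subgroupOf K, inferInstance, hf,
    QuotientGroup.mk' ((rad N K).subgroupOf K), {E | E.IsSubnormal ∧ Sm N E}, hs, hk, ?_⟩
  exact exists_red_top (hK.of_surjective _ hs) (rad_quot _ hs hk)

end Pool.Agent.NPR
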