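import Pool.Agent.NPR.DPa

/-!
# NPR: subgroups of direct powers generated by simple groups of order `N`

Proof of `DP.of_gen`. `Q = sSup 𝒮 ≤ P`, `P = sSup Ω`, all members of `𝒮` are contained in `P` and
simple nonabelian of order `N`. `Q` is finite.

(1) `residual`: for `1 ≠ q ∈ Q` there is a homomorphism `φ : P →* S` onto a group `S` with
`Sm N S`, `φ q ≠ 1`. By `DPw.central` there is `E ∈ Ω` which does not commute with `q`. `P`
normalises `E` (`DPw.nz`), and acts on `E` by inner automorphisms of `E` (each element of `P` is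
`a * b`, `a ∈ E`, `b` commuting with `E`, `DPw.dec` for `Ω₁ = {E}`); `a` is unique
(`Sm.eq_one_of_central`), and `p ↦ a` is a homomorphism `P →* E` (the projection), surjective,
with `φ q ≠ 1` because `q` does not commute with `E`.

(2) The restriction `Q → S` is trivial or surjective (`Pf.hom_sm` with `Pf.sSup`), so surjective
when `φ q ≠ 1`. So `Q` is residually a simple nonabelian group of order `N`: let `𝒦` be the set
of all subgroups `X ≤ Q` with `Nz Q X` which are kernels of surjective homomorphisms `Q →* S`,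
`Sm N S`; the intersection of `𝒦` with `Q` is `⊥`.

(3) `dp_of_residual`: `𝒦` is finite; let `𝓜 ⊆ 𝒦` be a subset with `Q ⊓ sInf 𝓜 = ⊥` and the least
number of elements. For `X ∈ 𝓜` let `L X = Q ⊓ sInf (𝓜 \ {X})`; it is not `⊥` (minimality),
normalised by `Q`, `L X ⊓ X = ⊥`. `L X` maps injectively and onto a nontrivial normal subgroup
of `S` (the image of `Q → S` with kernel `X`), so it is isomorphic to `S`: `Sm N (L X)`.
For `X ≠ Y` in `𝓜`: `L X ≤ Y` and `L X ⊓ L Y ≤ L X ⊓ X = ⊥` (as `L Y ≤ X`), both normalised by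
`Q`, so they commute. `Q` is generated by the `L X`: for `q ∈ Q` and `X ∈ 𝓜` there is
`l_X ∈ L X` with `q ≡ l_X` modulo `X` (`L X → S` is onto); the product of the commuting
`l_X` is congruent to `l_X` modulo `X` for every `X` (as `l_Y ∈ X` for `Y ≠ X`), so
`q = ∏ l_X`. Hence `Ω' = {L X | X ∈ 𝓜}` works. (A more convenient form may be an induction: for
every finite set `𝓜` of kernels the group `Q ⧸ (Q ⊓ sInf 𝓜)` ..., or induction on the number of
elements of `Q`; choose what is easiest.)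

ALTERNATIVE for (3), induction on `Nat.card Q`, for finite groups `Q` (type level) such that every
`1 ≠ q` is not killed by some surjection onto a group with `Sm N`: if `Q = 1` clear. Otherwise
take a normal subgroup `L ≠ ⊥` of `Q` with the least number of elements, `1 ≠ q ∈ L`,
`φ : Q →* S` onto with `φ q ≠ 1`, `X = ker φ`. `L ⊓ X` is normal, smaller than `L`, so `⊥`; the
image of `L` is normal in `S`, so it is `S`; `L` is isomorphic to `S`, and
`Q = L X`, `L` and `X` commute. `X` again has the property (for `1 ≠ x ∈ X` take `ψ : Q →* S'`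
with `ψ x ≠ 1`; the image of the normal subgroup `X` is normal in `S'`, not trivial, so
`ψ|X` is onto). By induction `X` is generated by finitely many pairwise commuting groups; add
`L`. THIS IS THE RECOMMENDED PROOF (do it for subgroups `X` of `Q` in the form of
`dp_of_residual` below).
-/

set_option autoImplicit false

namespace Pool.Agent.NPR

open Subgroup

variable {G : Type} [Group G]

private theorem nz_inf {Q L X : Subgroup G} (h1 : Nz Q L) (h2 : Nz Q X) : Nz Q (L ⊓ X) :=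
  fun k hk x hx => ⟨h1 k hk x hx.1, h2 k hk x hx.2⟩

/-- the restriction of a surjection onto a simple group to a normal subgroup -/
private theorem surj_of_nz {N : ℕ} {Q L : Subgroup G} (hL : L ≤ Q) (hn : Nz Q L) {S : Type}
    [Group S] (hS : Sm N S) (φ : Q →* S) (hφ : Function.Surjective φ) {q : G} (hq : q ∈ L)
    (h1 : φ ⟨q, hL hq⟩ ≠ 1) : Function.Surjective (φ.comp (Subgroup.inclusion hL)) := by
  have hsimple : IsSimpleGroup S := hS.simple
  have hnorm : (φ.comp (Subgroup.inclusion hL)).range.Normal := by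
    refine ⟨fun x hx y => ?_⟩
    obtain ⟨l, rfl⟩ := hx
    obtain ⟨p, rfl⟩ := hφ y
    refine ⟨⟨p.1 * l.1 * p.1⁻¹, hn p.1 p.2 l.1 l.2⟩, ?_⟩
    rw [MonoidHom.comp_apply, MonoidHom.comp_apply, ← map_inv, ← map_mul, ← map_mul]
    rfl
  rcases hnorm.eq_bot_or_eq_top with h | h
  · exfalso
    apply h1
    have h2 : φ ⟨q, hL hq⟩ ∈ (φ.comp (Subgroup.inclusion hL)).range := ⟨⟨q, hq⟩, rfl⟩
    rw [h, Subgroup.mem_bot] at h2
    exact h2
  · exact MonoidHom.range_eq_top.1 h

/-- A finite residually simple group (with simple images of order `N`) is a direct power. -/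
theorem dp_of_residual {N : ℕ} (n : ℕ) : ∀ Q : Subgroup G, Finite Q → Nat.card Q ≤ n →
    (∀ q ∈ Q, q ≠ 1 → ∃ (S : Type) (_ : Group S) (φ : Q →* S), Function.Surjective φ ∧
      Sm N S ∧ ∃ h : q ∈ Q, φ ⟨q, h⟩ ≠ 1) → DP N Q := by
  induction n with
  | zero =>
    intro Q hfin hcard _
    have := Nat.card_pos (α := Q)
    omega
  | succ n ih =>
    intro Q hfin hcard hres
    by_cases hQ : Q = ⊥
    · rw [hQ]; exact DP.bot
    -- a minimal normal subgroup
    obtain ⟨L, ⟨hLQ, hLn, hL0⟩, hmin⟩ : ∃ L : Subgroup G, (L ≤ Q ∧ Nz Q L ∧ L ≠ ⊥) ∧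
        ∀ M : Subgroup G, M ≤ Q → Nz Q M → M ≠ ⊥ → Nat.card L ≤ Nat.card M := by
      have hne : {k : ℕ | ∃ L : Subgroup G, (L ≤ Q ∧ Nz Q L ∧ L ≠ ⊥) ∧ Nat.card L = k}.Nonempty :=
        ⟨_, Q, ⟨le_rfl, fun k hk x hx => Q.mul_mem (Q.mul_mem hk hx) (Q.inv_mem hk), hQ⟩, rfl⟩
      obtain ⟨L, hL, hk⟩ := Nat.sInf_mem hne
      refine ⟨L, hL, fun M h1 h2 h3 => ?_⟩
      rw [hk]
      exact Nat.sInf_le ⟨M, ⟨h1, h2, h3⟩, rfl⟩
    obtain ⟨q, hqL, hq1⟩ : ∃ q ∈ L, q ≠ 1 := by
      by_contra hcon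
      push Not at hcon
      apply hL0
      rw [eq_bot_iff]
      intro x hx
      rw [Subgroup.mem_bot]
      exact hcon x hx
    obtain ⟨S, hSg, φ, hφ, hS, hqQ, hφq⟩ := hres q (hLQ hqL) hq1
    obtain ⟨X, hX⟩ : ∃ X : Subgroup G, X = φ.ker.map Q.subtype := ⟨_, rfl⟩
    have hmemX : ∀ x : G, x ∈ X ↔ ∃ h : x ∈ Q, φ ⟨x, h⟩ = 1 := by
      intro x
      rw [hX, Subgroup.mem_map]
      constructor
      · rintro ⟨y, hy, rfl⟩
        exact ⟨y.2, hy⟩
      · rintro ⟨h, h1⟩
        exact ⟨⟨x, h⟩, h1, rfl⟩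
    have hXQ : X ≤ Q := fun x hx => ((hmemX x).1 hx).1
    have hXn : Nz Q X := by
      intro k hk x hx
      obtain ⟨h, h1⟩ := (hmemX x).1 hx
      refine (hmemX _).2 ⟨Q.mul_mem (Q.mul_mem hk h) (Q.inv_mem hk), ?_⟩
      have h2 : (⟨k * x * k⁻¹, Q.mul_mem (Q.mul_mem hk h) (Q.inv_mem hk)⟩ : Q) =
          ⟨k, hk⟩ * ⟨x, h⟩ * ⟨k, hk⟩⁻¹ := rfl
      rw [h2, map_mul, map_mul, h1, mul_one, map_inv, mul_inv_cancel]
    have hqX : q ∉ X := by
      intro h
      obtain ⟨h1, h2⟩ := (hmemX q).1 h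
      exact hφq h2
    have hfL : Finite L := Finite.of_injective _ (Subgroup.inclusion_injective hLQ)
    have hLX : L ⊓ X = ⊥ := by
      by_contra hcon
      have h1 := hmin _ (inf_le_left.trans hLQ) (nz_inf hLn hXn) hcon
      have h2 : L ⊓ X = L := Subgroup.eq_of_le_of_card_ge inf_le_left h1
      have h3 : q ∈ L ⊓ X := by rw [h2]; exact hqL
      exact hqX h3.2
    have hbot : ∀ x, x ∈ L → x ∈ X → x = 1 := by
      intro x h1 h2
      have h3 : x ∈ L ⊓ X := ⟨h1, h2⟩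
      rw [hLX, Subgroup.mem_bot] at h3
      exact h3
    have hsurj := surj_of_nz hLQ hLn hS φ hφ hqL hφq
    have hinj : Function.Injective (φ.comp (Subgroup.inclusion hLQ)) := by
      rw [injective_iff_map_eq_one]
      intro l hl
      apply Subtype.ext
      exact hbot l.1 l.2 ((hmemX _).2 ⟨hLQ l.2, hl⟩)
    have hSL : Sm N L := hS.of_equiv (MulEquiv.ofBijective _ ⟨hinj, hsurj⟩).symm
    have hcomm : ∀ l ∈ L, ∀ x ∈ X, l * x = x * l := by
      intro l hl x hx
      have h1 : l * x * l⁻¹ * x⁻¹ = 1 := by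
        apply hbot
        · have h2 : l * x * l⁻¹ * x⁻¹ = l * (x * l⁻¹ * x⁻¹) := by group
          rw [h2]
          exact L.mul_mem hl (hLn x (hXQ hx) _ (L.inv_mem hl))
        · exact X.mul_mem (hXn l (hLQ hl) x hx) (X.inv_mem hx)
      rw [mul_inv_eq_one, mul_inv_eq_iff_eq_mul] at h1
      exact h1
    have hQ' : Q = L ⊔ X := by
      apply le_antisymm
      · intro p hp
        obtain ⟨l, hl⟩ := hsurj (φ ⟨p, hp⟩)
        have h1 : l.1⁻¹ * p ∈ X := by
          refine (hmemX _).2 ⟨Q.mul_mem (Q.inv_mem (hLQ l.2)) hp, ?_⟩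
          have h2 : (⟨l.1⁻¹ * p, Q.mul_mem (Q.inv_mem (hLQ l.2)) hp⟩ : Q) =
              (Subgroup.inclusion hLQ l)⁻¹ * ⟨p, hp⟩ := rfl
          have h3 : φ (Subgroup.inclusion hLQ l) = φ ⟨p, hp⟩ := hl
          rw [h2, map_mul, map_inv, h3, inv_mul_cancel]
        have h2 : p = l.1 * (l.1⁻¹ * p) := by group
        rw [h2]
        exact (L ⊔ X).mul_mem ((le_sup_left : L ≤ L ⊔ X) l.2) ((le_sup_right : X ≤ L ⊔ X) h1)
      · exact sup_le hLQ hXQ
    have hfX : Finite X := Finite.of_injective _ (Subgroup.inclusion_injective hXQ)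
    have hcX : Nat.card X < Nat.card Q := by
      by_contra hcon
      push Not at hcon
      have h1 : X = Q := Subgroup.eq_of_le_of_card_ge hXQ hcon
      exact hqX (h1 ▸ hLQ hqL)
    obtain ⟨Ω, hΩ⟩ := ih X hfX (by omega) (by
      intro x hx hx1
      obtain ⟨S', hSg', φ', hφ', hS', hxQ, hφx⟩ := hres x (hXQ hx) hx1
      exact ⟨S', hSg', φ'.comp (Subgroup.inclusion hXQ), surj_of_nz hXQ hXn hS' φ' hφ' hx hφx,
        hS', hx, hφx⟩)
    refine ⟨insert L Ω, hΩ.fin.insert L, ?_, ?_, ?_⟩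
    · rintro E (rfl | hE)
      · exact hSL
      · exact hΩ.sm E hE
    · rintro E (rfl | hE) F (rfl | hF) hne e he f hf
      · exact absurd rfl hne
      · exact hcomm e he f (hΩ.le hF hf)
      · exact (hcomm f hf e (hΩ.le hE he)).symm
      · exact hΩ.comm E hE F hF hne e he f hf
    · rw [sSup_insert, ← hΩ.eq, ← hQ']

theorem DPw.residual {N : ℕ} {P : Subgroup G} {Ω : Set (Subgroup G)} (h : DPw N P Ω) {q : G}
    (hq : q ∈ P) (h1 : q ≠ 1) :
    ∃ (S : Type) (_ : Group S) (φ : P →* S), Function.Surjective φ ∧ Sm N S ∧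
      φ ⟨q, hq⟩ ≠ 1 := by
  obtain ⟨E, hE, e, he, hqe⟩ : ∃ E ∈ Ω, ∃ e ∈ E, q * e ≠ e * q := by
    by_contra hcon
    push Not at hcon
    exact h1 (h.central hq hcon)
  obtain ⟨hab, hdec⟩ := h.dec (Set.singleton_subset_iff.2 hE)
  rw [sSup_singleton] at hab hdec
  have hdec' : ∀ p : P, ∃ a : E, ∃ b : G, b ∈ sSup (Ω \ {E}) ∧ p.1 = a.1 * b := by
    intro p
    obtain ⟨a, ha, b, hb, hp⟩ := hdec p.1 p.2
    exact ⟨⟨a, ha⟩, b, hb, hp⟩
  have huniq : ∀ (a a' : E) (b b' : G), b ∈ sSup (Ω \ {E}) → b' ∈ sSup (Ω \ {E}) →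
      a.1 * b = a'.1 * b' → a = a' := by
    intro a a' b b' hb hb' heq
    have h2 : a'.1⁻¹ * a.1 = b' * b⁻¹ := by
      rw [inv_mul_eq_iff_eq_mul, ← mul_assoc, ← heq, mul_inv_cancel_right]
    have h3 : a'.1⁻¹ * a.1 = 1 := by
      apply (h.sm E hE).eq_one_of_central (E.mul_mem (E.inv_mem a'.2) a.2)
      intro x hx
      rw [h2]
      exact (hab x hx _ (Subgroup.mul_mem _ hb' (Subgroup.inv_mem _ hb))).symm
    apply Subtype.ext
    rw [inv_mul_eq_one] at h3
    exact h3.symm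
  choose f g hg hfg using hdec'
  let φ : P →* E :=
    { toFun := f
      map_one' := by
        refine huniq _ _ (g 1) 1 (hg 1) (Subgroup.one_mem _) ?_
        rw [← hfg 1]
        simp
      map_mul' := by
        intro x y
        refine huniq _ _ (g (x * y)) (g x * g y) (hg _) (Subgroup.mul_mem _ (hg x) (hg y)) ?_
        rw [← hfg (x * y)]
        have h2 := hab (f y).1 (f y).2 (g x) (hg x)
        change x.1 * y.1 = (f x).1 * (f y).1 * (g x * g y)
        rw [hfg x, hfg y, mul_assoc, mul_assoc, ← mul_assoc (g x), ← h2, mul_assoc] }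
  have hφ : ∀ p, φ p = f p := fun _ => rfl
  refine ⟨E, inferInstance, φ, ?_, h.sm E hE, ?_⟩
  · intro a
    refine ⟨⟨a.1, h.le hE a.2⟩, ?_⟩
    refine huniq _ _ (g ⟨a.1, h.le hE a.2⟩) 1 (hg _) (Subgroup.one_mem _) ?_
    rw [hφ, ← hfg, mul_one]
  · intro h2
    apply hqe
    have h3 := hfg ⟨q, hq⟩
    rw [← hφ, h2] at h3
    have h4 : q = g ⟨q, hq⟩ := by
      rw [OneMemClass.coe_one, one_mul] at h3
      exact h3
    rw [h4]
    exact (hab e he _ (hg _)).symm

theorem DP.of_gen {N : ℕ} {P : Subgroup G} (hP : DP N P) (𝒮 : Set (Subgroup G))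
    (h : ∀ D ∈ 𝒮, Sm N D ∧ D ≤ P) : DP N (sSup 𝒮) := by
  obtain ⟨Ω, hΩ⟩ := hP
  have hfP := hΩ.finite
  obtain ⟨Q, hQ⟩ : ∃ Q : Subgroup G, Q = sSup 𝒮 := ⟨_, rfl⟩
  rw [← hQ]
  have hQP : Q ≤ P := by
    rw [hQ]
    exact sSup_le fun D hD => (h D hD).2
  have hfQ : Finite Q := Finite.of_injective _ (Subgroup.inclusion_injective hQP)
  have hpf : Pf N Q := Pf.sSup 𝒮 hQ fun D hD => (h D hD).1
  refine dp_of_residual (Nat.card Q) Q hfQ le_rfl fun q hq hq1 => ?_
  obtain ⟨S, hSg, φ, hφ, hS, hφq⟩ := hΩ.residual (hQP hq) hq1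
  rcases hpf.hom_sm (φ.comp (Subgroup.inclusion hQP)) hS with h1 | h1
  · exact absurd (h1 ⟨q, hq⟩) hφq
  · exact ⟨S, hSg, φ.comp (Subgroup.inclusion hQP), h1, hS, hq, hφq⟩

end Pool.Agent.NPR
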