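import Pool.Agent.NPR.LemL2
import Pool.Agent.NPR.DPb

/-!
# NPR: the set `𝒟`

`D ∈ DD N G` iff `Sm N D` and `ncl (D ⊔ zpowers g) D` is `DP` for every `g`.

Proofs.

* `DD.ncl`: `lemL` (`hc.fin`, `hc.top`).
* `DD.cj`: `Sm.cj`; `ncl (cj g D ⊔ zpowers x) (cj g D) = cj g (ncl (D ⊔ zpowers (g⁻¹ x g)) D)`
  (this is `dp_ncl_cj` for `K = ⊤`).
* `DD.join`: `K` with at most `d` generators, `D₁, D₂ ≤ K`: `ncl K D₁ ⊔ ncl K D₂` is `DP`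
  (`DP.sup`; both groups are normalised by `K` and contained in `K`) and normalised by `K`.
* `DD.sub`: `D₃ ≤ D₁ ⊔ D₂`, `Sm N D₃`. For `g : G` let `K = (D₁ ⊔ D₂) ⊔ zpowers g`, at most
  `2 + 2 + 1 ≤ 6` generators (`Gn.sup`, `Ctx.gn_two`, `Gn.zpowers`). `L = ncl K D₁ ⊔ ncl K D₂` is
  `DP`, normalised by `K`, contains `D₃`. So all conjugates of `D₃` under `D₃ ⊔ zpowers g ≤ K` are
  in `L`, and `ncl (D₃ ⊔ zpowers g) D₃` is their join (`ncl_eq_sSup`), so it is `DP`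
  (`DP.of_gen`, `Sm.cj`).
* `DD.sup`: `D₁ ⊔ D₂ = sSup {D₁, D₂} ≤ L` for `K = D₁ ⊔ D₂`: `DP.of_gen`.
* `DD.comm`: `E, D, F ∈ DD`, `F` commutes with `E`; `DPw N (E ⊔ D) Ω`, `C ∈ Ω`, `C` does not
  commute with `E`. Claim: `C` commutes with `F`. `K = (E ⊔ D) ⊔ F`, at most `6` generators. `L`
  the join of `ncl K E`, `ncl K D`, `ncl K F`: `DP` (twice `DP.sup`), contains `E`, `D`, `F`. Let
  `c ∈ C`, `f ∈ F` and suppose `u = c f c⁻¹ f⁻¹ ≠ 1`. By `DPw.residual` for `L` there are `S`,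
  `φ : L →* S` with `Sm N S` and `φ u ≠ 1`. So `φ` is not trivial on `C` nor on `F`; by
  `Sm.surj` `φ(F) = S` and `φ(C) = S`. As `F` commutes with `E`, `φ(E)` commutes with `S`, so
  `φ(E) = 1` (the centre of `S` is trivial). Let `C' ∈ Ω`, `C' ≠ C`: `φ(C')` commutes with
  `φ(C) = S`, so `φ(C') = 1`. By `DPw.dec` (`Ω₁ = {C}`) each `x ∈ E` is `a * b` with `a ∈ C`, `b`
  in the join of the other members, `φ(x) = φ(a)`; so `φ(a) = 1`, and `φ` is injective on `C`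
  (`Sm.eq_bot_or_eq` for the kernel), so `a = 1` and `x = b` commutes with `C`. So `E`
  commutes with `C`, contradiction.
-/

set_option autoImplicit false

namespace Pool.Agent.NPR

open Subgroup

variable {G : Type} [Group G]

private theorem dd1_nz_mono {K L X : Subgroup G} (h : L ≤ K) (hX : Nz K X) : Nz L X :=
  fun k hk x hx => hX k (h hk) x hx

private theorem dd1_nz_sup {K A B : Subgroup G} (hA : Nz K A) (hB : Nz K B) :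
    Nz K (A ⊔ B) := by
  intro k hk x hx
  have h1 : k * x * k⁻¹ ∈ NPR.cj k (A ⊔ B) := conj_mem_cj hx
  have h2 : NPR.cj k (A ⊔ B) ≤ A ⊔ B := by
    have h3 : NPR.cj k (A ⊔ B) = NPR.cj k A ⊔ NPR.cj k B := Subgroup.map_sup A B _
    rw [h3]
    exact sup_le_sup (cj_le_of_nz hA hk) (cj_le_of_nz hB hk)
  exact h2 h1

private theorem dd1_center {N : ℕ} {S : Type} [Group S] (hS : Sm N S) {s : S}
    (h : ∀ x : S, s * x = x * s) : s = 1 := by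
  have := hS.simple
  rcases IsSimpleGroup.eq_bot_or_eq_top_of_normal (Subgroup.center S) inferInstance with h1 | h1
  · have h2 : s ∈ Subgroup.center S := Subgroup.mem_center_iff.2 fun x => (h x).symm
    rw [h1] at h2
    exact Subgroup.mem_bot.1 h2
  · exfalso
    obtain ⟨a, b, hab⟩ := hS.nonab
    apply hab
    have h2 : b ∈ Subgroup.center S := by
      rw [h1]
      exact Subgroup.mem_top b
    exact Subgroup.mem_center_iff.1 h2 a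

private theorem dd1_inj {N : ℕ} {A S : Type} [Group A] [Group S] (hA : Sm N A) (hS : Sm N S)
    (φ : A →* S) (hφ : Function.Surjective φ) {a : A} (ha : φ a = 1) : a = 1 := by
  have := hA.simple
  rcases IsSimpleGroup.eq_bot_or_eq_top_of_normal φ.ker inferInstance with h | h
  · have h2 : a ∈ φ.ker := ha
    rw [h] at h2
    exact Subgroup.mem_bot.1 h2
  · exfalso
    obtain ⟨x, y, hxy⟩ := hS.nonab
    apply hxy
    obtain ⟨x', rfl⟩ := hφ x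
    obtain ⟨y', rfl⟩ := hφ y
    have h2 : ∀ z : A, φ z = 1 := fun z => by
      have h3 : z ∈ φ.ker := by
        rw [h]
        exact Subgroup.mem_top z
      exact h3
    rw [h2, h2]

theorem DD.ncl {d N : ℕ} (hc : Ctx d N G) {D K : Subgroup G} (hD : D ∈ DD N G)
    (hK : Gn d K) (hDK : D ≤ K) : DP N (NPR.ncl K D) := by
  have := hc.fin K hK
  exact lemL (hc.top K hK) hDK hD.1 (fun g _ => hD.2 g)

theorem DD.cj {N : ℕ} {D : Subgroup G} (hD : D ∈ DD N G) (g : G) : NPR.cj g D ∈ DD N G :=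
  ⟨hD.1.cj g, fun x =>
    dp_ncl_cj (K := ⊤) (fun y _ => hD.2 y) (Subgroup.mem_top g) x (Subgroup.mem_top x)⟩

theorem DD.join {d N : ℕ} (hc : Ctx d N G) {D₁ D₂ K : Subgroup G} (h1 : D₁ ∈ DD N G)
    (h2 : D₂ ∈ DD N G) (hK : Gn d K) (hk1 : D₁ ≤ K) (hk2 : D₂ ≤ K) :
    DP N (NPR.ncl K D₁ ⊔ NPR.ncl K D₂) ∧ Nz K (NPR.ncl K D₁ ⊔ NPR.ncl K D₂) := by
  have n1 : Nz K (NPR.ncl K D₁) := ncl_nz K D₁
  have n2 : Nz K (NPR.ncl K D₂) := ncl_nz K D₂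
  exact ⟨DP.sup (DD.ncl hc h1 hK hk1) (DD.ncl hc h2 hK hk2) (dd1_nz_mono (ncl_le hk1) n2)
    (dd1_nz_mono (ncl_le hk2) n1), dd1_nz_sup n1 n2⟩

theorem DD.sub {d N : ℕ} (hc : Ctx d N G) {D₁ D₂ D₃ : Subgroup G} (h1 : D₁ ∈ DD N G)
    (h2 : D₂ ∈ DD N G) (hle : D₃ ≤ D₁ ⊔ D₂) (hs : Sm N D₃) : D₃ ∈ DD N G := by
  refine ⟨hs, fun g => ?_⟩
  have hK : Gn d ((D₁ ⊔ D₂) ⊔ Subgroup.zpowers g) := by
    have h3 : Gn (2 + 2 + 1) ((D₁ ⊔ D₂) ⊔ Subgroup.zpowers g) :=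
      ((hc.gn_two h1.1).sup (hc.gn_two h2.1)).sup (Gn.zpowers g)
    exact h3.mono (by have := hc.six; omega)
  have hk1 : D₁ ≤ (D₁ ⊔ D₂) ⊔ Subgroup.zpowers g := le_sup_left.trans le_sup_left
  have hk2 : D₂ ≤ (D₁ ⊔ D₂) ⊔ Subgroup.zpowers g := le_sup_right.trans le_sup_left
  obtain ⟨hL, hn⟩ := DD.join hc h1 h2 hK hk1 hk2
  have hD3 : D₃ ≤ NPR.ncl ((D₁ ⊔ D₂) ⊔ Subgroup.zpowers g) D₁ ⊔
      NPR.ncl ((D₁ ⊔ D₂) ⊔ Subgroup.zpowers g) D₂ :=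
    hle.trans (sup_le_sup (le_ncl _ _) (le_ncl _ _))
  have hKK : D₃ ⊔ Subgroup.zpowers g ≤ (D₁ ⊔ D₂) ⊔ Subgroup.zpowers g := sup_le_sup_right hle _
  rw [ncl_eq_sSup]
  refine DP.of_gen hL _ ?_
  rintro E ⟨k, hk, rfl⟩
  exact ⟨hs.cj k, (cj_mono hD3).trans (cj_le_of_nz hn (hKK hk))⟩

theorem DD.sup {d N : ℕ} (hc : Ctx d N G) {D₁ D₂ : Subgroup G} (h1 : D₁ ∈ DD N G)
    (h2 : D₂ ∈ DD N G) : DP N (D₁ ⊔ D₂) := by
  have hK : Gn d (D₁ ⊔ D₂) := by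
    have h3 : Gn (2 + 2) (D₁ ⊔ D₂) := (hc.gn_two h1.1).sup (hc.gn_two h2.1)
    exact h3.mono (by have := hc.six; omega)
  obtain ⟨hL, -⟩ := DD.join hc h1 h2 hK le_sup_left le_sup_right
  rw [← sSup_pair]
  refine DP.of_gen hL _ ?_
  intro E hE
  rcases hE with rfl | hE
  · exact ⟨h1.1, (le_ncl _ _).trans le_sup_left⟩
  · obtain rfl : E = D₂ := hE
    exact ⟨h2.1, (le_ncl _ _).trans le_sup_right⟩

theorem DD.comm {d N : ℕ} (hc : Ctx d N G) {E D F C : Subgroup G} {Ω : Set (Subgroup G)}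
    (hE : E ∈ DD N G) (hD : D ∈ DD N G) (hF : F ∈ DD N G)
    (hEF : ∀ e ∈ E, ∀ f ∈ F, e * f = f * e) (hΩ : DPw N (E ⊔ D) Ω) (hC : C ∈ Ω)
    (hCE : ¬ ∀ c ∈ C, ∀ e ∈ E, c * e = e * c) : ∀ c ∈ C, ∀ f ∈ F, c * f = f * c := by
  intro c hcC f hfF
  by_contra hne
  have hK : Gn d ((E ⊔ D) ⊔ F) := by
    have h3 : Gn (2 + 2 + 2) ((E ⊔ D) ⊔ F) :=
      ((hc.gn_two hE.1).sup (hc.gn_two hD.1)).sup (hc.gn_two hF.1)
    exact h3.mono (by have := hc.six; omega)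
  have hkE : E ≤ (E ⊔ D) ⊔ F := le_sup_left.trans le_sup_left
  have hkD : D ≤ (E ⊔ D) ⊔ F := le_sup_right.trans le_sup_left
  have hkF : F ≤ (E ⊔ D) ⊔ F := le_sup_right
  obtain ⟨hL1, hn1⟩ := DD.join hc hE hD hK hkE hkD
  have hLK : NPR.ncl ((E ⊔ D) ⊔ F) E ⊔ NPR.ncl ((E ⊔ D) ⊔ F) D ≤ (E ⊔ D) ⊔ F :=
    sup_le (ncl_le hkE) (ncl_le hkD)
  have hL2 : DP N ((NPR.ncl ((E ⊔ D) ⊔ F) E ⊔ NPR.ncl ((E ⊔ D) ⊔ F) D) ⊔
      NPR.ncl ((E ⊔ D) ⊔ F) F) :=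
    DP.sup hL1 (DD.ncl hc hF hK hkF) (dd1_nz_mono hLK (ncl_nz _ _))
      (dd1_nz_mono (ncl_le hkF) hn1)
  obtain ⟨L, hLdef⟩ : ∃ L : Subgroup G, L = (NPR.ncl ((E ⊔ D) ⊔ F) E ⊔
      NPR.ncl ((E ⊔ D) ⊔ F) D) ⊔ NPR.ncl ((E ⊔ D) ⊔ F) F := ⟨_, rfl⟩
  rw [← hLdef] at hL2
  have hEL : E ≤ L := by
    rw [hLdef]
    exact (le_ncl _ _).trans (le_sup_left.trans le_sup_left)
  have hDL : D ≤ L := by
    rw [hLdef]
    exact (le_ncl _ _).trans (le_sup_right.trans le_sup_left)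
  have hFL : F ≤ L := by
    rw [hLdef]
    exact (le_ncl _ _).trans le_sup_right
  have hEDL : E ⊔ D ≤ L := sup_le hEL hDL
  have hΩL : ∀ A ∈ Ω, A ≤ L := fun A hA => (hΩ.le hA).trans hEDL
  have hCL : C ≤ L := hΩL C hC
  obtain ⟨ΩL, hΩL'⟩ := hL2
  have huL : c * f * c⁻¹ * f⁻¹ ∈ L :=
    L.mul_mem (L.mul_mem (L.mul_mem (hCL hcC) (hFL hfF)) (L.inv_mem (hCL hcC)))
      (L.inv_mem (hFL hfF))
  have hu1 : c * f * c⁻¹ * f⁻¹ ≠ 1 := by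
    intro h
    apply hne
    rw [mul_inv_eq_one, mul_inv_eq_iff_eq_mul] at h
    exact h
  obtain ⟨S, _, φ, hφ, hS, hu⟩ := DPw.residual hΩL' huL hu1
  have hu' : φ ⟨c, hCL hcC⟩ * φ ⟨f, hFL hfF⟩ * (φ ⟨c, hCL hcC⟩)⁻¹ * (φ ⟨f, hFL hfF⟩)⁻¹ ≠ 1 := by
    rw [← map_inv, ← map_inv, ← map_mul, ← map_mul, ← map_mul]
    exact hu
  -- the restrictions to `C` and `F` are surjective
  have hsC : Function.Surjective (φ.comp (Subgroup.inclusion hCL)) := by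
    refine Sm.surj (hΩ.sm C hC) hS _ ⟨⟨c, hcC⟩, fun h => hu' ?_⟩
    have h' : φ ⟨c, hCL hcC⟩ = 1 := h
    rw [h']
    simp
  have hsF : Function.Surjective (φ.comp (Subgroup.inclusion hFL)) := by
    refine Sm.surj hF.1 hS _ ⟨⟨f, hfF⟩, fun h => hu' ?_⟩
    have h' : φ ⟨f, hFL hfF⟩ = 1 := h
    rw [h']
    simp
  have hφE : ∀ e (he : e ∈ E), φ ⟨e, hEL he⟩ = 1 := by
    intro e he
    refine dd1_center hS fun x => ?_
    obtain ⟨y, rfl⟩ := hsF x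
    change φ ⟨e, hEL he⟩ * φ ⟨(y : G), hFL y.2⟩ = φ ⟨(y : G), hFL y.2⟩ * φ ⟨e, hEL he⟩
    rw [← map_mul, ← map_mul]
    congr 1
    exact Subtype.ext (hEF e he y y.2)
  have hφΩ : ∀ A ∈ Ω \ {C}, A ≤ φ.ker.map L.subtype := by
    intro A hA a ha
    have hne' : C ≠ A := fun h => hA.2 h.symm
    refine ⟨⟨a, hΩL A hA.1 ha⟩, ?_, rfl⟩
    refine dd1_center hS fun x => ?_
    obtain ⟨y, rfl⟩ := hsC x
    change φ ⟨a, hΩL A hA.1 ha⟩ * φ ⟨(y : G), hCL y.2⟩ =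
      φ ⟨(y : G), hCL y.2⟩ * φ ⟨a, hΩL A hA.1 ha⟩
    rw [← map_mul, ← map_mul]
    congr 1
    exact Subtype.ext (hΩ.comm C hC A hA.1 hne' y y.2 a ha).symm
  have hsub : ({C} : Set (Subgroup G)) ⊆ Ω := Set.singleton_subset_iff.2 hC
  obtain ⟨hcomm, hdec⟩ := hΩ.dec hsub
  rw [sSup_singleton] at hcomm hdec
  apply hCE
  intro c' hc' e he
  obtain ⟨a, ha, b, hb, hab⟩ := hdec e (le_sup_left (a := E) (b := D) he)
  obtain ⟨⟨b', hb'L⟩, hb', hbb⟩ : b ∈ φ.ker.map L.subtype := (sSup_le hφΩ) hb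
  obtain rfl : b' = b := hbb
  have hb1 : φ ⟨b', hb'L⟩ = 1 := hb'
  have ha1 : φ ⟨a, hCL ha⟩ = 1 := by
    have h1 : φ ⟨e, hEL he⟩ = φ ⟨a, hCL ha⟩ * φ ⟨b', hb'L⟩ := by
      rw [← map_mul]
      congr 1
      exact Subtype.ext hab
    rw [hφE e he, hb1, mul_one] at h1
    exact h1.symm
  have ha2 : (⟨a, ha⟩ : C) = 1 :=
    dd1_inj (hΩ.sm C hC) hS (φ.comp (Subgroup.inclusion hCL)) hsC ha1
  have ha3 : a = 1 := congrArg Subtype.val ha2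
  rw [ha3, one_mul] at hab
  rw [hab]
  exact hcomm c' hc' b' hb

end Pool.Agent.NPR
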