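import Pool.Agent.NPR.DD1

/-!
# NPR: the group generated by `𝒟` is locally finite

Proofs.

* `DD.merge`: for every `n`: `Ω` a finite set with `n` elements of pairwise commuting members
  of `DD`, `D ∈ DD`. There is a finite set `Ω'` of pairwise commuting members of `DD` with
  `sSup Ω' = sSup Ω ⊔ D`. Induction on `n`. `n = 0`: `Ω' = {D}`. Step: `E ∈ Ω`,
  `Ω₁ = Ω \ {E}`. `P = E ⊔ D` is `DP` (`DD.sup`), `DPw N P Θ`; all members of `Θ` are in `DD`
  (`DD.sub`). `Θ₁` = the set of the `C ∈ Θ` which do not commute with `E`, `Θ₂ = Θ \ Θ₁`.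
  - `E ≤ sSup Θ₁`: `x ∈ E` is `a * b` with `a ∈ sSup Θ₁`, `b ∈ sSup Θ₂` (`DPw.dec`); `b` commutes
    with `sSup Θ₁` and, `b = a⁻¹ x`: for `C ∈ Θ₂`, `C` commutes with `x ∈ E` and with `a`, so
    with `b`; so `b` commutes with all members of `Θ`, `b = 1` (`DPw.central`).
  - The projection: `D' = {b ∈ sSup Θ₂ | ∃ a ∈ sSup Θ₁, a * b ∈ D}` is a subgroup, the image of
    `D` under the projection `P → sSup Θ₂` (unique decomposition because
    `sSup Θ₁ ⊓ sSup Θ₂ = ⊥` by `DPw.central`), so `D' = ⊥` or `Sm N D'` (the kernel of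
    `D → D'` is `⊥` or `D`). `D' ≤ P = E ⊔ D`. In the second case `D' ∈ DD` (`DD.sub`).
  - `sSup Θ₁ ⊔ D' = P`... (only needed: `E ≤ sSup Θ₁`, `D ≤ sSup Θ₁ ⊔ D'`, and
    `sSup Θ₁ ≤ P`, `D' ≤ P`, so `E ⊔ D = sSup Θ₁ ⊔ D'`.)
  - every `C ∈ Θ₁` commutes with every `F ∈ Ω₁` (`DD.comm`), and with `D' ≤ sSup Θ₂`.
  - `D'` commutes with `E` (as `sSup Θ₂` does), not needed.
  If `D' = ⊥` take `Ω' = Θ₁ ∪ Ω₁`. Otherwise apply the induction hypothesis to `Ω₁` and `D'`: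
  `Ω₁'` with `sSup Ω₁' = sSup Ω₁ ⊔ D'`; the members of `Θ₁` commute with all elements of
  `sSup Ω₁ ⊔ D'`, so with the members of `Ω₁'`; take `Ω' = Θ₁ ∪ Ω₁'`.
  (`sSup Ω' = sSup Θ₁ ⊔ sSup Ω₁ ⊔ D' = sSup Ω₁ ⊔ E ⊔ D = sSup Ω ⊔ D`.)
* `DD.list`: for a finite set `𝒮 ⊆ DD` there is `Ω'` (finite, pairwise commuting, `⊆ DD`) with
  `sSup Ω' = sSup 𝒮`: induction on the finite set with `DD.merge`.
* `DD.fin`: `K ≤ sSup (DD N G)` finitely generated: each generator lies in the join of finitely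
  many members (`Subgroup.mem_sSup...`, `Subgroup.mem_iSup_iff_exists_finset` or compactness:
  `Subgroup.fg_iff_isCompactElement`-like; `CompleteLattice.IsCompactElement`,
  `exists_finset_of_mem_iSup`), so `K ≤ sSup 𝒮` for a finite `𝒮 ⊆ DD`, and `sSup 𝒮` is finite
  (`DD.list`, `DPw.finite`).
* `DD.normal`: `DD.cj` and `Subgroup.map_sSup` (or closure induction).
-/

set_option autoImplicit false

namespace Pool.Agent.NPR

open Subgroup

variable {G : Type} [Group G]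

private theorem dd2_comm {A : Subgroup G} {s : Set (Subgroup G)}
    (h : ∀ F ∈ s, ∀ a ∈ A, ∀ f ∈ F, a * f = f * a) :
    ∀ a ∈ A, ∀ b ∈ sSup s, a * b = b * a := by
  intro a ha b hb
  have h1 : sSup s ≤ Subgroup.centralizer {a} := by
    apply sSup_le
    intro F hF f hf
    rw [Subgroup.mem_centralizer_iff]
    intro y hy
    rw [Set.mem_singleton_iff] at hy
    rw [hy]
    exact h F hF a ha f hf
  have h2 := Subgroup.mem_centralizer_iff.1 (h1 hb)
  exact h2 a (Set.mem_singleton a)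

private theorem dd2_comm_sup {A B C : Subgroup G} (h1 : ∀ a ∈ A, ∀ b ∈ B, a * b = b * a)
    (h2 : ∀ a ∈ A, ∀ c ∈ C, a * c = c * a) : ∀ a ∈ A, ∀ x ∈ B ⊔ C, a * x = x * a := by
  intro a ha x hx
  have h : B ⊔ C ≤ Subgroup.centralizer {a} := by
    apply sup_le
    · intro b hb
      rw [Subgroup.mem_centralizer_iff]
      intro y hy
      rw [Set.mem_singleton_iff] at hy
      rw [hy]
      exact h1 a ha b hb
    · intro c hc
      rw [Subgroup.mem_centralizer_iff]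
      intro y hy
      rw [Set.mem_singleton_iff] at hy
      rw [hy]
      exact h2 a ha c hc
  exact Subgroup.mem_centralizer_iff.1 (h hx) a (Set.mem_singleton a)

/-- The projection of `D` to the second of two commuting subgroups with trivial intersection. -/
private theorem dd2_proj {N : ℕ} {A B D : Subgroup G} (hD : Sm N D)
    (hcm : ∀ a ∈ A, ∀ b ∈ B, a * b = b * a) (hdj : ∀ x ∈ A, x ∈ B → x = 1)
    (hdec : ∀ p ∈ D, ∃ a ∈ A, ∃ b ∈ B, p = a * b) :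
    ∃ D' : Subgroup G, D' ≤ B ∧ D' ≤ A ⊔ D ∧ D ≤ A ⊔ D' ∧ (D' = ⊥ ∨ Sm N D') := by
  have hun : ∀ a ∈ A, ∀ a' ∈ A, ∀ b ∈ B, ∀ b' ∈ B, a * b = a' * b' → b = b' := by
    intro a ha a' ha' b hb b' hb' h
    have h1 : a'⁻¹ * a = b' * b⁻¹ := by
      rw [inv_mul_eq_iff_eq_mul, ← mul_assoc, ← h, mul_inv_cancel_right]
    have h2 : b' * b⁻¹ = 1 := by
      apply hdj
      · rw [← h1]
        exact A.mul_mem (A.inv_mem ha') ha
      · exact B.mul_mem hb' (B.inv_mem hb)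
    exact (mul_inv_eq_one.1 h2).symm
  choose! α hα β hβ hαβ using hdec
  have hmul : ∀ x ∈ D, ∀ y ∈ D, β (x * y) = β x * β y := by
    intro x hx y hy
    refine hun (α (x * y)) (hα _ (D.mul_mem hx hy)) (α x * α y) (A.mul_mem (hα x hx) (hα y hy))
      _ (hβ _ (D.mul_mem hx hy)) _ (B.mul_mem (hβ x hx) (hβ y hy)) ?_
    rw [← hαβ _ (D.mul_mem hx hy)]
    have h1 := hcm (α y) (hα y hy) (β x) (hβ x hx)
    calc x * y = (α x * β x) * (α y * β y) := by rw [← hαβ x hx, ← hαβ y hy]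
      _ = α x * (β x * α y) * β y := by simp only [mul_assoc]
      _ = α x * (α y * β x) * β y := by rw [h1]
      _ = α x * α y * (β x * β y) := by simp only [mul_assoc]
  let ψ : D →* G := MonoidHom.mk' (fun x => β x) (fun x y => hmul x x.2 y y.2)
  have hψ : ∀ x : D, ψ x = β x := fun x => rfl
  refine ⟨ψ.range, ?_, ?_, ?_, ?_⟩
  · rintro _ ⟨x, rfl⟩
    rw [hψ]
    exact hβ x x.2
  · rintro _ ⟨x, rfl⟩
    rw [hψ]
    have h1 : β (x : G) = (α (x : G))⁻¹ * x := by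
      rw [eq_inv_mul_iff_mul_eq]
      exact (hαβ x x.2).symm
    rw [h1]
    exact (A ⊔ D).mul_mem ((le_sup_left : A ≤ A ⊔ D) (A.inv_mem (hα x x.2)))
      ((le_sup_right : D ≤ A ⊔ D) x.2)
  · intro x hx
    rw [hαβ x hx]
    exact (A ⊔ ψ.range).mul_mem ((le_sup_left : A ≤ A ⊔ ψ.range) (hα x hx))
      ((le_sup_right : ψ.range ≤ A ⊔ ψ.range) ⟨⟨x, hx⟩, rfl⟩)
  · have h1 : IsSimpleGroup D := hD.simple
    rcases IsSimpleGroup.eq_bot_or_eq_top_of_normal ψ.ker inferInstance with h | h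
    · right
      exact hD.of_equiv (MonoidHom.ofInjective ((MonoidHom.ker_eq_bot_iff _).1 h))
    · left
      rw [Subgroup.eq_bot_iff_forall]
      rintro _ ⟨x, rfl⟩
      have h2 : x ∈ ψ.ker := by
        rw [h]
        exact Subgroup.mem_top x
      exact h2

private theorem dd2_mono {s t : Set (Subgroup G)} (h : s ⊆ t) {x : G} (hx : x ∈ sSup s) :
    x ∈ sSup t :=
  (sSup_le_sSup h : sSup s ≤ sSup t) hx

/-- An element of a join lies in the join of finitely many members. -/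
private theorem dd2_mem {T : Set (Subgroup G)} {x : G} (hx : x ∈ sSup T) :
    ∃ t ⊆ T, t.Finite ∧ x ∈ sSup t := by
  let L : Subgroup G :=
    { carrier := {x | ∃ t ⊆ T, t.Finite ∧ x ∈ sSup t}
      one_mem' := ⟨∅, Set.empty_subset _, Set.finite_empty, (sSup ∅ : Subgroup G).one_mem⟩
      mul_mem' := by
        rintro a b ⟨t, ht, hf, ha⟩ ⟨t', ht', hf', hb⟩
        refine ⟨t ∪ t', Set.union_subset ht ht', hf.union hf', ?_⟩
        exact (sSup (t ∪ t')).mul_mem (dd2_mono Set.subset_union_left ha)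
          (dd2_mono Set.subset_union_right hb)
      inv_mem' := by
        rintro a ⟨t, ht, hf, ha⟩
        exact ⟨t, ht, hf, (sSup t).inv_mem ha⟩ }
  have hL : sSup T ≤ L := by
    apply sSup_le
    intro E hE y hy
    refine ⟨{E}, Set.singleton_subset_iff.2 hE, Set.finite_singleton E, ?_⟩
    rw [sSup_singleton]
    exact hy
  exact hL hx

private theorem dd2_set {T : Set (Subgroup G)} {s : Set G} (hs : s.Finite)
    (h : ∀ x ∈ s, x ∈ sSup T) : ∃ t ⊆ T, t.Finite ∧ ∀ x ∈ s, x ∈ sSup t := by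
  induction s, hs using Set.Finite.induction_on with
  | empty => exact ⟨∅, Set.empty_subset _, Set.finite_empty, fun x hx => absurd hx (by simp)⟩
  | @insert y s _ _ ih =>
    obtain ⟨t, ht, hf, hx⟩ := ih fun x hx => h x (Set.mem_insert_of_mem y hx)
    obtain ⟨t', ht', hf', hy⟩ := dd2_mem (h y (Set.mem_insert y s))
    refine ⟨t ∪ t', Set.union_subset ht ht', hf.union hf', ?_⟩
    intro x hxs
    rcases Set.mem_insert_iff.1 hxs with rfl | hxs
    · exact dd2_mono Set.subset_union_right hy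
    · exact dd2_mono Set.subset_union_left (hx x hxs)

theorem DD.merge {d N : ℕ} (hc : Ctx d N G) (n : ℕ) : ∀ Ω : Set (Subgroup G), Ω.Finite →
    Ω.ncard = n → Ω ⊆ DD N G →
    (∀ E ∈ Ω, ∀ F ∈ Ω, E ≠ F → ∀ e ∈ E, ∀ f ∈ F, e * f = f * e) →
    ∀ D ∈ DD N G, ∃ Ω' : Set (Subgroup G), Ω' ⊆ DD N G ∧ DPw N (sSup Ω ⊔ D) Ω' := by
  induction n with
  | zero =>
    intro Ω hf hn _ _ D hD
    have h0 : Ω = ∅ := (Set.ncard_eq_zero hf).1 hn
    refine ⟨{D}, Set.singleton_subset_iff.2 hD, Set.finite_singleton D, ?_, ?_, ?_⟩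
    · intro E hE
      rw [Set.mem_singleton_iff] at hE
      rw [hE]
      exact hD.1
    · intro E hE F hF hne
      rw [Set.mem_singleton_iff] at hE hF
      exact absurd (hE.trans hF.symm) hne
    · rw [h0, sSup_empty, bot_sup_eq, sSup_singleton]
  | succ n ih =>
    intro Ω hf hn hΩ hcomm D hD
    obtain ⟨E, hE⟩ : Ω.Nonempty := by
      rw [← Set.ncard_pos hf]
      omega
    obtain ⟨Ω₁, hΩ₁⟩ : ∃ Ω₁ : Set (Subgroup G), Ω₁ = Ω \ {E} := ⟨_, rfl⟩
    have hin : ∀ F ∈ Ω₁, F ∈ Ω ∧ E ≠ F := by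
      intro F hF
      rw [hΩ₁] at hF
      exact ⟨hF.1, fun h => hF.2 (by rw [h]; rfl)⟩
    have hn1 : Ω₁.ncard = n := by
      rw [hΩ₁, Set.ncard_sdiff_singleton_of_mem hE]
      omega
    have hf1 : Ω₁.Finite := by
      rw [hΩ₁]
      exact hf.subset Set.sdiff_subset
    have hsΩ : sSup Ω = E ⊔ sSup Ω₁ := by
      rw [hΩ₁, ← sSup_insert, Set.insert_sdiff_singleton, Set.insert_eq_of_mem hE]
    have hcomm1 : ∀ F ∈ Ω₁, ∀ F' ∈ Ω₁, F ≠ F' → ∀ e ∈ F, ∀ f ∈ F', e * f = f * e :=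
      fun F hF F' hF' => hcomm F (hin F hF).1 F' (hin F' hF').1
    obtain ⟨Θ, hΘ⟩ := DD.sup hc (hΩ hE) hD
    have hΘD : Θ ⊆ DD N G := fun C hC => DD.sub hc (hΩ hE) hD (hΘ.le hC) (hΘ.sm C hC)
    obtain ⟨Θ₁, hΘ₁⟩ : ∃ Θ₁ : Set (Subgroup G),
        Θ₁ = {C | C ∈ Θ ∧ ¬ ∀ c ∈ C, ∀ e ∈ E, c * e = e * c} := ⟨_, rfl⟩
    have hsub : Θ₁ ⊆ Θ := by
      rw [hΘ₁]
      exact fun C hC => hC.1
    obtain ⟨hcm, hdec⟩ := hΘ.dec hsub
    have hA : sSup Θ₁ ≤ E ⊔ D := sSup_le fun C hC => hΘ.le (hsub hC)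
    have hB : sSup (Θ \ Θ₁) ≤ E ⊔ D := sSup_le fun C hC => hΘ.le hC.1
    have hdj : ∀ x ∈ sSup Θ₁, x ∈ sSup (Θ \ Θ₁) → x = 1 := by
      intro x hxA hxB
      apply hΘ.central (hA hxA)
      intro C hC c hcC
      by_cases h1 : C ∈ Θ₁
      · exact (hcm c ((le_sSup h1 : C ≤ sSup Θ₁) hcC) x hxB).symm
      · exact hcm x hxA c ((le_sSup ⟨hC, h1⟩ : C ≤ sSup (Θ \ Θ₁)) hcC)
    have hE1 : E ≤ sSup Θ₁ := by
      intro x hx
      obtain ⟨a, ha, b, hb, hab⟩ := hdec x ((le_sup_left : E ≤ E ⊔ D) hx)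
      have hb1 : b = 1 := by
        apply hΘ.central (hB hb)
        intro C hC c hcC
        by_cases h1 : C ∈ Θ₁
        · exact (hcm c ((le_sSup h1 : C ≤ sSup Θ₁) hcC) b hb).symm
        · have hcB : c ∈ sSup (Θ \ Θ₁) := (le_sSup ⟨hC, h1⟩ : C ≤ sSup (Θ \ Θ₁)) hcC
          have h2 : ∀ c ∈ C, ∀ e ∈ E, c * e = e * c := by
            by_contra h3
            apply h1
            rw [hΘ₁]
            exact ⟨hC, h3⟩
          have h3 : c * x = x * c := h2 c hcC x hx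
          have h4 : a * c = c * a := hcm a ha c hcB
          have h5 : a * (b * c) = a * (c * b) := by
            calc a * (b * c) = x * c := by rw [← mul_assoc, ← hab]
              _ = c * x := h3.symm
              _ = c * a * b := by rw [hab, mul_assoc]
              _ = a * c * b := by rw [h4]
              _ = a * (c * b) := by rw [mul_assoc]
          exact mul_left_cancel h5
      rw [hab, hb1, mul_one]
      exact ha
    obtain ⟨D', hD'B, hD'A, hDD', hcase⟩ := dd2_proj hD.1 hcm hdj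
      (fun p hp => hdec p ((le_sup_right : D ≤ E ⊔ D) hp))
    have hED : E ⊔ D = sSup Θ₁ ⊔ D' :=
      le_antisymm (sup_le (hE1.trans le_sup_left) hDD') (sup_le hA (hD'B.trans hB))
    have hcΘΩ : ∀ C ∈ Θ₁, ∀ F ∈ Ω₁, ∀ c ∈ C, ∀ f ∈ F, c * f = f * c := by
      intro C hC F hF
      have hC' : ¬ ∀ c ∈ C, ∀ e ∈ E, c * e = e * c := by
        rw [hΘ₁] at hC
        exact hC.2
      exact DD.comm hc (hΩ hE) hD (hΩ (hin F hF).1)
        (hcomm E hE F (hin F hF).1 (hin F hF).2) hΘ (hsub hC) hC'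
    obtain ⟨Ω₂, hΩ₂D, hΩ₂⟩ : ∃ Ω₂ : Set (Subgroup G), Ω₂ ⊆ DD N G ∧
        DPw N (sSup Ω₁ ⊔ D') Ω₂ := by
      rcases hcase with h | h
      · refine ⟨Ω₁, fun F hF => hΩ (hin F hF).1, hf1, fun F hF => (hΩ (hin F hF).1).1, hcomm1,
          ?_⟩
        rw [h, sup_bot_eq]
      · exact ih Ω₁ hf1 hn1 (fun F hF => hΩ (hin F hF).1) hcomm1 D'
          (DD.sub hc (hΩ hE) hD (hD'B.trans hB) h)
    have hcΘΩ₂ : ∀ C ∈ Θ₁, ∀ F ∈ Ω₂, ∀ c ∈ C, ∀ f ∈ F, c * f = f * c := by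
      intro C hC F hF c hcC f hfF
      refine dd2_comm_sup (A := C) (B := sSup Ω₁) (C := D') ?_ ?_ c hcC f (hΩ₂.le hF hfF)
      · exact dd2_comm (fun F' hF' => hcΘΩ C hC F' hF')
      · intro c' hc' b hb
        exact hcm c' ((le_sSup hC : C ≤ sSup Θ₁) hc') b (hD'B hb)
    refine ⟨Θ₁ ∪ Ω₂, Set.union_subset (hsub.trans hΘD) hΩ₂D,
      (hΘ.fin.subset hsub).union hΩ₂.fin, ?_, ?_, ?_⟩
    · rintro C (hC | hC)
      · exact hΘ.sm C (hsub hC)
      · exact hΩ₂.sm C hC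
    · rintro C (hC | hC) F (hF | hF) hne e he f hf'
      · exact hΘ.comm C (hsub hC) F (hsub hF) hne e he f hf'
      · exact hcΘΩ₂ C hC F hF e he f hf'
      · exact (hcΘΩ₂ F hF C hC f hf' e he).symm
      · exact hΩ₂.comm C hC F hF hne e he f hf'
    · rw [sSup_union, ← hΩ₂.eq, hsΩ]
      calc E ⊔ sSup Ω₁ ⊔ D = (E ⊔ D) ⊔ sSup Ω₁ := sup_right_comm _ _ _
        _ = (sSup Θ₁ ⊔ D') ⊔ sSup Ω₁ := by rw [hED]
        _ = sSup Θ₁ ⊔ (sSup Ω₁ ⊔ D') := by rw [sup_assoc, sup_comm D']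

theorem DD.list {d N : ℕ} (hc : Ctx d N G) {𝒮 : Set (Subgroup G)} (hf : 𝒮.Finite)
    (hs : 𝒮 ⊆ DD N G) : ∃ Ω' : Set (Subgroup G), Ω' ⊆ DD N G ∧ DPw N (sSup 𝒮) Ω' := by
  induction 𝒮, hf using Set.Finite.induction_on with
  | empty =>
    refine ⟨∅, Set.empty_subset _, Set.finite_empty, ?_, ?_, rfl⟩
    · intro E hE
      exact absurd hE (Set.notMem_empty E)
    · intro E hE
      exact absurd hE (Set.notMem_empty E)
  | @insert E s _ _ ih =>
    obtain ⟨Ω', hsub, hΩ'⟩ := ih ((Set.subset_insert E s).trans hs)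
    obtain ⟨Ω'', hsub', hΩ''⟩ := DD.merge hc Ω'.ncard Ω' hΩ'.fin rfl hsub hΩ'.comm E
      (hs (Set.mem_insert E s))
    refine ⟨Ω'', hsub', ?_⟩
    rw [sSup_insert, sup_comm, hΩ'.eq]
    exact hΩ''

theorem DD.fin {d N : ℕ} (hc : Ctx d N G) (K : Subgroup G) (hK : K ≤ sSup (DD N G))
    (hfg : K.FG) : Finite K := by
  obtain ⟨S, hS⟩ := hfg
  obtain ⟨t, ht, hf, hx⟩ := dd2_set (T := DD N G) (s := (S : Set G)) S.finite_toSet (by
    intro x hx
    apply hK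
    rw [← hS]
    exact Subgroup.subset_closure hx)
  obtain ⟨Ω', -, hΩ'⟩ := DD.list hc hf ht
  have h1 : Finite (sSup t : Subgroup G) := hΩ'.finite
  have h2 : K ≤ sSup t := by
    rw [← hS, Subgroup.closure_le]
    exact hx
  exact Finite.of_injective _ (Subgroup.inclusion_injective h2)

theorem DD.normal {N : ℕ} : (sSup (DD N G)).Normal := by
  refine ⟨fun x hx g => ?_⟩
  have h : sSup (DD N G) ≤ (sSup (DD N G)).comap (MulAut.conj g).toMonoidHom := by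
    apply sSup_le
    intro E hE y hy
    rw [Subgroup.mem_comap]
    exact (le_sSup (DD.cj hE g) : NPR.cj g E ≤ sSup (DD N G)) (conj_mem_cj hy)
  exact h hx

end Pool.Agent.NPR
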