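import Pool.Agent.NPR.Smf

/-!
# NPR: direct powers, basic facts

`DPw N P Ω`: `Ω` is a finite set of pairwise commuting simple nonabelian groups of order `N`,
`P = sSup Ω`.

Proofs.

* `DPw.le`, `DPw.nz`: each `E ∈ Ω` is contained in `P`; the elements of `F ∈ Ω`, `F ≠ E`, commute
  with `E`, so `E` is normalised by every member of `Ω`, so by `P` (the set of all `p` with
  `p E p⁻¹ = E` is a subgroup, e.g. `Subgroup.normalizer`).
* `DPw.sub`: a subset of `Ω` satisfies the same conditions for its join.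
* `DPw.dec`: let `A = sSup Ω₁`, `B = sSup (Ω \ Ω₁)`. Every element of `A` commutes with every
  element of `B` (induction on closures, `Subgroup.sSup_eq_iSup`, `Subgroup.iSup_induction` or
  `sSup ≤ centralizer`), `P = A ⊔ B`, so each `p` is `a * b` (`Subgroup.mem_sup` for commuting
  subgroups; `A` and `B` normalise each other).
* `DPw.central`: an element `x ∈ P` which commutes with all elements of all `E ∈ Ω` is `1`.
  By induction on the size of `Ω` (finite): for `E ∈ Ω` write `x = a * b` with `a ∈ E`,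
  `b ∈ sSup (Ω \ {E})` (`DPw.dec`); `a` commutes with `E` (both `x` and `b` do), so
  `a = 1` (`Sm.eq_one_of_central`), so `x = b` lies in the smaller join and commutes with
  everything in it.
* `DPw.finite`: by induction on the size of `Ω`: a product of two commuting finite subgroups
  is finite.
* `DP.bot`: `Ω = ∅`. `DP.of_sm`: `Ω = {D}`.
* `DP.pf`: `Pf.sSup`.
* `DP.xn_bot`: let `x ∈ X`. For `E ∈ Ω` the group `X ⊓ E` is normalised by `E` and in `XN`, so
  trivial (`Sm.disj`); for `e ∈ E` the commutator `x e x⁻¹ e⁻¹` lies in `X` and in `E`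
  (`DPw.nz`), so it is `1`. So `x` commutes with all `E ∈ Ω`: `x = 1` (`DPw.central`).
-/

set_option autoImplicit false

namespace Pool.Agent.NPR

open Subgroup

variable {G : Type} [Group G]

theorem DPw.le {N : ℕ} {P : Subgroup G} {Ω : Set (Subgroup G)} (h : DPw N P Ω)
    {E : Subgroup G} (hE : E ∈ Ω) : E ≤ P := by
  rw [h.eq]
  exact le_sSup hE

private theorem dp1comm {A : Subgroup G} {s : Set (Subgroup G)}
    (h : ∀ F ∈ s, ∀ a ∈ A, ∀ f ∈ F, a * f = f * a) :
    ∀ a ∈ A, ∀ b ∈ sSup s, a * b = b * a := by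
  intro a ha b hb
  have h1 : sSup s ≤ Subgroup.centralizer {a} := by
    apply sSup_le
    intro F hF f hf
    rw [Subgroup.mem_centralizer_iff]
    intro y hy
    rw [Set.mem_singleton_iff] at hy
    rw [hy]
    exact h F hF a ha f hf
  have h2 := Subgroup.mem_centralizer_iff.1 (h1 hb)
  exact h2 a (Set.mem_singleton a)

private theorem dp1comm2 {s t : Set (Subgroup G)}
    (h : ∀ E ∈ s, ∀ F ∈ t, ∀ e ∈ E, ∀ f ∈ F, e * f = f * e) :
    ∀ a ∈ sSup s, ∀ b ∈ sSup t, a * b = b * a := by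
  apply dp1comm
  intro F hF a ha f hf
  have h1 := dp1comm (A := F) (s := s) (fun E hE f hf e he => (h E hE F hF e he f hf).symm)
  exact (h1 f hf a ha).symm

private theorem dp1sup {A B : Subgroup G} (h : ∀ a ∈ A, ∀ b ∈ B, a * b = b * a) {p : G}
    (hp : p ∈ A ⊔ B) : ∃ a ∈ A, ∃ b ∈ B, p = a * b := by
  let L : Subgroup G :=
    { carrier := {p | ∃ a ∈ A, ∃ b ∈ B, p = a * b}
      one_mem' := ⟨1, A.one_mem, 1, B.one_mem, by simp⟩
      mul_mem' := by
        rintro _ _ ⟨a, ha, b, hb, rfl⟩ ⟨a', ha', b', hb', rfl⟩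
        refine ⟨a * a', A.mul_mem ha ha', b * b', B.mul_mem hb hb', ?_⟩
        have h1 := h a' ha' b hb
        calc a * b * (a' * b') = a * (b * a') * b' := by simp only [mul_assoc]
          _ = a * (a' * b) * b' := by rw [h1]
          _ = a * a' * (b * b') := by simp only [mul_assoc]
      inv_mem' := by
        rintro _ ⟨a, ha, b, hb, rfl⟩
        refine ⟨a⁻¹, A.inv_mem ha, b⁻¹, B.inv_mem hb, ?_⟩
        rw [mul_inv_rev]
        exact (h _ (A.inv_mem ha) _ (B.inv_mem hb)).symm }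
  have hL : A ⊔ B ≤ L := by
    apply sup_le
    · intro a ha
      exact ⟨a, ha, 1, B.one_mem, by simp⟩
    · intro b hb
      exact ⟨1, A.one_mem, b, hb, by simp⟩
  exact hL hp

private theorem dp1fin {A B : Subgroup G} (h : ∀ a ∈ A, ∀ b ∈ B, a * b = b * a)
    (hA : Finite A) (hB : Finite B) : Finite (A ⊔ B : Subgroup G) := by
  have hf : Function.Surjective (fun q : A × B =>
      (⟨(q.1 : G) * (q.2 : G), (A ⊔ B).mul_mem ((le_sup_left : A ≤ A ⊔ B) q.1.2)
        ((le_sup_right : B ≤ A ⊔ B) q.2.2)⟩ : (A ⊔ B : Subgroup G))) := by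
    rintro ⟨p, hp⟩
    obtain ⟨a, ha, b, hb, rfl⟩ := dp1sup h hp
    exact ⟨(⟨a, ha⟩, ⟨b, hb⟩), rfl⟩
  exact Finite.of_surjective _ hf

private theorem dp1central {N : ℕ} {Ω : Set (Subgroup G)} (hf : Ω.Finite) :
    (∀ E ∈ Ω, Sm N E) →
    (∀ E ∈ Ω, ∀ F ∈ Ω, E ≠ F → ∀ e ∈ E, ∀ f ∈ F, e * f = f * e) →
    ∀ x ∈ sSup Ω, (∀ E ∈ Ω, ∀ e ∈ E, x * e = e * x) → x = 1 := by
  induction Ω, hf using Set.Finite.induction_on with
  | empty =>
    intro _ _ x hx _
    rw [sSup_empty] at hx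
    exact Subgroup.mem_bot.1 hx
  | @insert E s hEs hs ih =>
    intro hsm hcm x hx hc
    have hE : E ∈ insert E s := Set.mem_insert E s
    have hin : ∀ F ∈ s, F ∈ insert E s := fun F hF => Set.mem_insert_of_mem E hF
    have hne : ∀ F ∈ s, E ≠ F := by
      intro F hF h1
      rw [h1] at hEs
      exact hEs hF
    have hcE : ∀ a ∈ E, ∀ b ∈ sSup s, a * b = b * a :=
      dp1comm (fun F hF a ha f hf => hcm E hE F (hin F hF) (hne F hF) a ha f hf)
    rw [sSup_insert] at hx
    obtain ⟨a, ha, b, hb, rfl⟩ := dp1sup hcE hx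
    have ha1 : a = 1 := by
      apply (hsm E hE).eq_one_of_central ha
      intro e he
      have h1 := hc E hE e he
      have h2 := hcE e he b hb
      have h3 : a * e * b = e * a * b := by
        calc a * e * b = a * (e * b) := by rw [mul_assoc]
          _ = a * (b * e) := by rw [h2]
          _ = a * b * e := by rw [mul_assoc]
          _ = e * (a * b) := h1
          _ = e * a * b := by rw [mul_assoc]
      exact mul_right_cancel h3
    rw [ha1, one_mul] at hc ⊢
    exact ih (fun F hF => hsm F (hin F hF))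
      (fun F hF F' hF' => hcm F (hin F hF) F' (hin F' hF')) b hb
      (fun F hF => hc F (hin F hF))

private theorem dp1finite {N : ℕ} {Ω : Set (Subgroup G)} (hf : Ω.Finite) :
    (∀ E ∈ Ω, Sm N E) →
    (∀ E ∈ Ω, ∀ F ∈ Ω, E ≠ F → ∀ e ∈ E, ∀ f ∈ F, e * f = f * e) →
    Finite (sSup Ω : Subgroup G) := by
  induction Ω, hf using Set.Finite.induction_on with
  | empty =>
    intro _ _
    rw [sSup_empty]
    infer_instance
  | @insert E s hEs hs ih =>
    intro hsm hcm
    have hE : E ∈ insert E s := Set.mem_insert E s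
    have hin : ∀ F ∈ s, F ∈ insert E s := fun F hF => Set.mem_insert_of_mem E hF
    have hne : ∀ F ∈ s, E ≠ F := by
      intro F hF h1
      rw [h1] at hEs
      exact hEs hF
    have hcE : ∀ a ∈ E, ∀ b ∈ sSup s, a * b = b * a :=
      dp1comm (fun F hF a ha f hf => hcm E hE F (hin F hF) (hne F hF) a ha f hf)
    rw [sSup_insert]
    exact dp1fin hcE (hsm E hE).fin
      (ih (fun F hF => hsm F (hin F hF))
        (fun F hF F' hF' => hcm F (hin F hF) F' (hin F' hF')))

theorem DPw.nz {N : ℕ} {P : Subgroup G} {Ω : Set (Subgroup G)} (h : DPw N P Ω)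
    {E : Subgroup G} (hE : E ∈ Ω) : Nz P E := by
  intro k hk x hx
  have h1 : P ≤ (Subgroup.normalizer (E : Set G)) := by
    rw [h.eq]
    apply sSup_le
    intro F hF f hf
    rw [Subgroup.mem_normalizer_iff]
    intro y
    by_cases hFE : F = E
    · subst hFE
      constructor
      · intro hy
        exact F.mul_mem (F.mul_mem hf hy) (F.inv_mem hf)
      · intro hy
        have h2 := F.mul_mem (F.mul_mem (F.inv_mem hf) hy) hf
        have h3 : f⁻¹ * (f * y * f⁻¹) * f = y := by group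
        rwa [h3] at h2
    · constructor
      · intro hy
        have h2 : f * y * f⁻¹ = y := by
          rw [h.comm F hF E hE hFE f hf y hy, mul_inv_cancel_right]
        rw [h2]
        exact hy
      · intro hy
        have h2 := h.comm F hF E hE hFE f⁻¹ (F.inv_mem hf) _ hy
        have h3 : y = f * y * f⁻¹ := by
          have h4 : f⁻¹ * (f * y * f⁻¹) * f = y := by group
          rw [h2, inv_mul_cancel_right] at h4
          exact h4.symm
        rw [h3]
        exact hy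
  exact (Subgroup.mem_normalizer_iff.1 (h1 hk) x).1 hx

theorem DPw.sub {N : ℕ} {P : Subgroup G} {Ω Ω₁ : Set (Subgroup G)} (h : DPw N P Ω)
    (h1 : Ω₁ ⊆ Ω) : DPw N (sSup Ω₁) Ω₁ := by
  exact ⟨h.fin.subset h1, fun E hE => h.sm E (h1 hE),
    fun E hE F hF => h.comm E (h1 hE) F (h1 hF), rfl⟩

theorem DPw.dec {N : ℕ} {P : Subgroup G} {Ω Ω₁ : Set (Subgroup G)} (h : DPw N P Ω)
    (h1 : Ω₁ ⊆ Ω) :
    (∀ a ∈ sSup Ω₁, ∀ b ∈ sSup (Ω \ Ω₁), a * b = b * a) ∧
      ∀ p ∈ P, ∃ a ∈ sSup Ω₁, ∃ b ∈ sSup (Ω \ Ω₁), p = a * b := by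
  have hcm : ∀ a ∈ sSup Ω₁, ∀ b ∈ sSup (Ω \ Ω₁), a * b = b * a := by
    apply dp1comm2
    intro E hE F hF e he f hf
    refine h.comm E (h1 hE) F hF.1 ?_ e he f hf
    intro h2
    rw [h2] at hE
    exact hF.2 hE
  refine ⟨hcm, ?_⟩
  intro p hp
  have h2 : P = sSup Ω₁ ⊔ sSup (Ω \ Ω₁) := by
    rw [h.eq, ← sSup_union, Set.union_sdiff_cancel h1]
  rw [h2] at hp
  exact dp1sup hcm hp

theorem DPw.central {N : ℕ} {P : Subgroup G} {Ω : Set (Subgroup G)} (h : DPw N P Ω) {x : G}
    (hx : x ∈ P) (hc : ∀ E ∈ Ω, ∀ e ∈ E, x * e = e * x) : x = 1 := by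
  have hx' : x ∈ sSup Ω := by
    rw [← h.eq]
    exact hx
  exact dp1central h.fin h.sm h.comm x hx' hc

theorem DPw.finite {N : ℕ} {P : Subgroup G} {Ω : Set (Subgroup G)} (h : DPw N P Ω) :
    Finite P := by
  rw [h.eq]
  exact dp1finite h.fin h.sm h.comm

theorem DP.bot {N : ℕ} : DP N (⊥ : Subgroup G) := by
  refine ⟨∅, Set.finite_empty, ?_, ?_, ?_⟩
  · intro E hE
    exact absurd hE (Set.notMem_empty E)
  · intro E hE
    exact absurd hE (Set.notMem_empty E)
  · rw [sSup_empty]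

theorem DP.of_sm {N : ℕ} {D : Subgroup G} (h : Sm N D) : DP N D := by
  refine ⟨{D}, Set.finite_singleton D, ?_, ?_, ?_⟩
  · intro E hE
    rw [Set.mem_singleton_iff] at hE
    rw [hE]
    exact h
  · intro E hE F hF hne
    rw [Set.mem_singleton_iff] at hE hF
    exact absurd (hE.trans hF.symm) hne
  · rw [sSup_singleton]

theorem DP.pf {N : ℕ} {P : Subgroup G} (h : DP N P) : Pf N P := by
  obtain ⟨Ω, hΩ⟩ := h
  exact Pf.sSup Ω hΩ.eq hΩ.sm

theorem DP.xn_bot {N : ℕ} {P X : Subgroup G} (h : DP N P) (hX : X ≤ P) (hn : Nz P X)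
    (hx : XN N X) : X = ⊥ := by
  obtain ⟨Ω, hΩ⟩ := h
  rw [Subgroup.eq_bot_iff_forall]
  intro x hxX
  apply hΩ.central (hX hxX)
  intro E hE e he
  have heP : e ∈ P := hΩ.le hE he
  have h1 : x * e * x⁻¹ * e⁻¹ ∈ X := by
    have h2 := X.mul_mem hxX (hn e heP x⁻¹ (X.inv_mem hxX))
    have h3 : x * (e * x⁻¹ * e⁻¹) = x * e * x⁻¹ * e⁻¹ := by group
    rwa [h3] at h2
  have h2 : x * e * x⁻¹ * e⁻¹ ∈ E :=
    E.mul_mem (hΩ.nz hE x (hX hxX) e he) (E.inv_mem he)
  have h3 := (hΩ.sm E hE).disj (fun k hk => hn k (hΩ.le hE hk)) hx h1 h2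
  have h4 : x * e * x⁻¹ = e := mul_inv_eq_one.1 h3
  exact mul_inv_eq_iff_eq_mul.1 h4

end Pool.Agent.NPR
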