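import Pool.Agent.NPR.DP1

/-!
# NPR: direct powers, normal subgroups, images, products

`DPw N P Ω`: `Ω` is a finite set of pairwise commuting simple nonabelian groups of order `N`,
`P = sSup Ω`.

Proofs.

* `DP.split`: for `E ∈ Ω` the group `M ⊓ E` is normalised by `E`, so it is `⊥` or `E`
  (`Sm.eq_bot_or_eq`). `Ω₁ = {E ∈ Ω | E ≤ M}`; if `E ∈ Ω \ Ω₁` then `M ⊓ E = ⊥` and the
  commutators of elements of `M` and `E` lie in `M ⊓ E` (`Nz P M`, `DPw.nz`), so `M` commutes with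
  `E`. So by `DPw.dec` each `p ∈ P` is `a * b` with `a ∈ sSup Ω₁ ≤ M` and `b` commuting with
  `M`. And `M = sSup Ω₁`: for `m = a * b ∈ M`, `b = a⁻¹ m ∈ M` commutes with `sSup (Ω \ Ω₁)`
  (as an element of `M`) and with `sSup Ω₁` (as an element of `sSup (Ω \ Ω₁)`), so `b = 1` by
  `DPw.central`.
* `DP.card`: `Ω` is not empty, `E ≤ P` and `Nat.card E = N`, `P` finite.
* `DP.map`: for `E ∈ Ω` the image `E.map φ` is `⊥` or isomorphic to `E` (kernel of the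
  restriction is `⊥` or everything). Take the set of the images different from `⊥`; two
  different images come from different `E`, so they commute.
* `DP.sup`: `M = P ⊓ Q` is normalised by `P` and by `Q`. By `DP.split` for `M ≤ Q`: `DP N M` and
  each `q ∈ Q` is `m * c` with `c ∈ Q` commuting with `M`. Let `C` be the subgroup of all
  `c ∈ Q` which commute with `M`; it is normalised by `Q` (as `M` is) and `DP N C` by
  `DP.split`; `C ⊓ M` is central in `M`, so trivial (`DPw.central`); `P` normalises `C`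
  (as it normalises `Q` and `M`). Commutators of `P` and `C` lie in `P ⊓ Q = M` and in `C`, so
  they are trivial: `P` and `C` commute, and `P ⊔ Q = P ⊔ C`. The union of the sets `Ω` for
  `P` and for `C` works.
* `DP.im`: `P.subgroupOf K` is isomorphic to `P`, it is `DP` (map the members of `Ω` by
  `subgroupOf`), then `DP.map`.
* `DP.of_im`: the restriction of `π` gives an isomorphism from `P` onto `im π P`; take the
  preimages `E' = {p ∈ P | π p ∈ E}` of the members `E`.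
-/

set_option autoImplicit false

namespace Pool.Agent.NPR

open Subgroup

variable {G : Type} [Group G]

private theorem dpa_eq_of_comm {e x : G} (h : e * x * e⁻¹ * x⁻¹ = 1) : e * x = x * e := by
  have h1 : e * x * e⁻¹ = x := mul_inv_eq_one.1 h
  exact mul_inv_eq_iff_eq_mul.1 h1

theorem DP.split {N : ℕ} {P M : Subgroup G} (h : DP N P) (hM : M ≤ P) (hn : Nz P M) :
    DP N M ∧ ∀ p ∈ P, ∃ m ∈ M, ∃ c ∈ P, (∀ x ∈ M, c * x = x * c) ∧ p = m * c := by
  obtain ⟨Ω, hΩ⟩ := h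
  obtain ⟨Ω₁, hΩ₁⟩ : ∃ Ω₁ : Set (Subgroup G), ∀ E, E ∈ Ω₁ ↔ E ∈ Ω ∧ E ≤ M :=
    ⟨{E | E ∈ Ω ∧ E ≤ M}, fun E => Iff.rfl⟩
  have h1 : Ω₁ ⊆ Ω := fun E hE => ((hΩ₁ E).1 hE).1
  have hA : sSup Ω₁ ≤ M := sSup_le fun E hE => ((hΩ₁ E).1 hE).2
  have hE : ∀ E ∈ Ω \ Ω₁, ∀ e ∈ E, ∀ x ∈ M, e * x = x * e := by
    intro E hE e he x hx
    have hEP : E ≤ P := hΩ.le hE.1
    have h2 := (hΩ.sm E hE.1).eq_bot_or_eq (M := M ⊓ E) inf_le_right
      (fun k hk y hy => ⟨hn k (hEP hk) y hy.1, E.mul_mem (E.mul_mem hk hy.2) (E.inv_mem hk)⟩)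
    rcases h2 with h2 | h2
    · have h3 : e * x * e⁻¹ * x⁻¹ ∈ M ⊓ E := by
        refine ⟨M.mul_mem (hn e (hEP he) x hx) (M.inv_mem hx), ?_⟩
        have h4 := hΩ.nz hE.1 x (hM hx) e⁻¹ (E.inv_mem he)
        have h5 := E.mul_mem he h4
        simpa [mul_assoc] using h5
      rw [h2, Subgroup.mem_bot] at h3
      exact dpa_eq_of_comm h3
    · exact absurd ((hΩ₁ E).2 ⟨hE.1, inf_eq_right.1 h2⟩) hE.2
  have hB : ∀ b ∈ sSup (Ω \ Ω₁), ∀ x ∈ M, b * x = x * b := by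
    have h2 : sSup (Ω \ Ω₁) ≤ Subgroup.centralizer (M : Set G) := by
      apply sSup_le
      intro E hE' e he
      rw [Subgroup.mem_centralizer_iff]
      intro x hx
      exact (hE E hE' e he x hx).symm
    intro b hb x hx
    exact ((Subgroup.mem_centralizer_iff.1 (h2 hb)) x hx).symm
  obtain ⟨hc, hd⟩ := hΩ.dec h1
  have hMA : M = sSup Ω₁ := by
    apply le_antisymm _ hA
    intro m hm
    obtain ⟨a, ha, b, hb, rfl⟩ := hd m (hM hm)
    have hbM : b ∈ M := by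
      have := M.mul_mem (M.inv_mem (hA ha)) hm
      simpa using this
    have hb1 : b = 1 := by
      apply hΩ.central (hM hbM)
      intro E hE' e he
      by_cases h3 : E ∈ Ω₁
      · exact (hc e (le_sSup h3 he) b hb).symm
      · exact (hE E ⟨hE', h3⟩ e he b hbM).symm
    rw [hb1, mul_one]
    exact ha
  refine ⟨⟨Ω₁, ?_⟩, ?_⟩
  · rw [hMA]
    exact hΩ.sub h1
  · intro p hp
    obtain ⟨a, ha, b, hb, hab⟩ := hd p hp
    refine ⟨a, hA ha, b, ?_, hB b hb, hab⟩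
    have h2 : sSup (Ω \ Ω₁) ≤ P := by
      rw [hΩ.eq]
      exact sSup_le_sSup Set.sdiff_subset
    exact h2 hb

theorem DP.card {N : ℕ} {P : Subgroup G} (h : DP N P) (hne : P ≠ ⊥) : N ≤ Nat.card P := by
  obtain ⟨Ω, hΩ⟩ := h
  have h1 : Ω.Nonempty := by
    by_contra h2
    rw [Set.not_nonempty_iff_eq_empty] at h2
    apply hne
    rw [hΩ.eq, h2, sSup_empty]
  obtain ⟨E, hE⟩ := h1
  have hf : Finite P := hΩ.finite
  rw [← (hΩ.sm E hE).card]
  exact Nat.card_le_card_of_injective (Subgroup.inclusion (hΩ.le hE))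
    (Subgroup.inclusion_injective _)

private theorem dpa_map_sm {N : ℕ} {G' : Type} [Group G'] {E : Subgroup G} (hE : Sm N E)
    (φ : G →* G') (hne : E.map φ ≠ ⊥) : Sm N (E.map φ) := by
  have hs := φ.subgroupMap_surjective E
  have h1 : IsSimpleGroup E := hE.simple
  rcases IsSimpleGroup.eq_bot_or_eq_top_of_normal (φ.subgroupMap E).ker inferInstance with h | h
  · exact hE.of_equiv (MulEquiv.ofBijective (φ.subgroupMap E)
      ⟨(MonoidHom.ker_eq_bot_iff _).1 h, hs⟩)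
  · exfalso
    apply hne
    rw [Subgroup.eq_bot_iff_forall]
    intro x hx
    obtain ⟨e, he⟩ := hs ⟨x, hx⟩
    have h2 : e ∈ (φ.subgroupMap E).ker := by
      rw [h]
      exact Subgroup.mem_top e
    rw [MonoidHom.mem_ker] at h2
    rw [h2] at he
    exact (congrArg Subtype.val he).symm

theorem DP.map {N : ℕ} {G' : Type} [Group G'] (φ : G →* G') {P : Subgroup G} (h : DP N P) :
    DP N (P.map φ) := by
  obtain ⟨Ω, hΩ⟩ := h
  refine ⟨{F | ∃ E ∈ Ω, F = E.map φ ∧ F ≠ ⊥}, ?_, ?_, ?_, ?_⟩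
  · refine (hΩ.fin.image (Subgroup.map φ)).subset ?_
    rintro F ⟨E, hE, rfl, -⟩
    exact ⟨E, hE, rfl⟩
  · rintro F ⟨E, hE, rfl, hne⟩
    exact dpa_map_sm (hΩ.sm E hE) φ hne
  · rintro F ⟨E, hE, rfl, -⟩ F' ⟨E', hE', rfl, -⟩ hne e he f hf
    obtain ⟨e, he, rfl⟩ := he
    obtain ⟨f, hf, rfl⟩ := hf
    have hne' : E ≠ E' := fun h => hne (by rw [h])
    rw [← map_mul, ← map_mul, hΩ.comm E hE E' hE' hne' e he f hf]
  · apply le_antisymm
    · rw [Subgroup.map_le_iff_le_comap]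
      nth_rewrite 1 [hΩ.eq]
      apply sSup_le
      intro E hE
      rw [← Subgroup.map_le_iff_le_comap]
      by_cases h1 : E.map φ = ⊥
      · rw [h1]
        exact bot_le
      · exact le_sSup ⟨E, hE, rfl, h1⟩
    · apply sSup_le
      rintro F ⟨E, hE, rfl, -⟩
      exact Subgroup.map_mono (hΩ.le hE)

theorem DP.sup {N : ℕ} {P Q : Subgroup G} (hP : DP N P) (hQ : DP N Q) (h1 : Nz P Q)
    (h2 : Nz Q P) : DP N (P ⊔ Q) := by
  obtain ⟨M, hM⟩ : ∃ M : Subgroup G, M = P ⊓ Q := ⟨_, rfl⟩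
  have hMP : M ≤ P := hM.le.trans inf_le_left
  have hMQ : M ≤ Q := hM.le.trans inf_le_right
  have hmem : ∀ x, x ∈ P → x ∈ Q → x ∈ M := fun x h3 h4 => by rw [hM]; exact ⟨h3, h4⟩
  have hMnQ : Nz Q M := fun k hk x hx =>
    hmem _ (h2 k hk x (hMP hx)) (Q.mul_mem (Q.mul_mem hk (hMQ hx)) (Q.inv_mem hk))
  have hMnP : Nz P M := fun k hk x hx =>
    hmem _ (P.mul_mem (P.mul_mem hk (hMP hx)) (P.inv_mem hk)) (h1 k hk x (hMQ hx))
  obtain ⟨hDM, hdec⟩ := hQ.split hMQ hMnQ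
  obtain ⟨C, hC⟩ : ∃ C : Subgroup G, ∀ c, c ∈ C ↔ c ∈ Q ∧ ∀ x ∈ M, x * c = c * x := by
    refine ⟨Q ⊓ Subgroup.centralizer (M : Set G), fun c => ?_⟩
    rw [Subgroup.mem_inf, Subgroup.mem_centralizer_iff]
    rfl
  have hCQ : C ≤ Q := fun c hc => ((hC c).1 hc).1
  have hconj : ∀ k : G, (∀ x ∈ M, k⁻¹ * x * k ∈ M) → ∀ c ∈ C, ∀ x ∈ M,
      x * (k * c * k⁻¹) = (k * c * k⁻¹) * x := by
    intro k hk c hc x hx
    have h3 := ((hC c).1 hc).2 _ (hk x hx)
    calc x * (k * c * k⁻¹) = k * ((k⁻¹ * x * k) * c) * k⁻¹ := by simp [mul_assoc]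
      _ = k * (c * (k⁻¹ * x * k)) * k⁻¹ := by rw [h3]
      _ = (k * c * k⁻¹) * x := by simp [mul_assoc]
  have hinv : ∀ K : Subgroup G, Nz K M → ∀ k ∈ K, ∀ x ∈ M, k⁻¹ * x * k ∈ M := by
    intro K hK k hk x hx
    have := hK k⁻¹ (K.inv_mem hk) x hx
    simpa using this
  have hCnQ : Nz Q C := fun k hk c hc => (hC _).2
    ⟨Q.mul_mem (Q.mul_mem hk (hCQ hc)) (Q.inv_mem hk), hconj k (hinv Q hMnQ k hk) c hc⟩
  have hCnP : Nz P C := fun k hk c hc => (hC _).2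
    ⟨h1 k hk c (hCQ hc), hconj k (hinv P hMnP k hk) c hc⟩
  have hDC : DP N C := (hQ.split hCQ hCnQ).1
  have hbot : ∀ x, x ∈ C → x ∈ M → x = 1 := by
    intro x hxC hxM
    obtain ⟨ΩM, hΩM⟩ := hDM
    exact hΩM.central hxM fun E hE e he => (((hC x).1 hxC).2 e (hΩM.le hE he)).symm
  have hcomm : ∀ p ∈ P, ∀ c ∈ C, p * c = c * p := by
    intro p hp c hc
    apply dpa_eq_of_comm
    have h3 : p * c * p⁻¹ * c⁻¹ ∈ C := C.mul_mem (hCnP p hp c hc) (C.inv_mem hc)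
    apply hbot _ h3
    apply hmem _ _ (hCQ h3)
    have h4 := P.mul_mem hp (h2 c (hCQ hc) p⁻¹ (P.inv_mem hp))
    simpa [mul_assoc] using h4
  have heq : P ⊔ Q = P ⊔ C := by
    apply le_antisymm
    · apply sup_le le_sup_left
      intro q hq
      obtain ⟨m, hm, c, hc, hcm, rfl⟩ := hdec q hq
      have h3 : c ∈ C := (hC c).2 ⟨hc, fun x hx => (hcm x hx).symm⟩
      exact (P ⊔ C).mul_mem (Subgroup.mem_sup_left (hMP hm)) (Subgroup.mem_sup_right h3)
    · exact sup_le_sup_left hCQ P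
  rw [heq]
  obtain ⟨ΩP, hΩP⟩ := hP
  obtain ⟨ΩC, hΩC⟩ := hDC
  refine ⟨ΩP ∪ ΩC, hΩP.fin.union hΩC.fin, ?_, ?_, ?_⟩
  · rintro E (hE | hE)
    · exact hΩP.sm E hE
    · exact hΩC.sm E hE
  · rintro E (hE | hE) F (hF | hF) hne e he f hf
    · exact hΩP.comm E hE F hF hne e he f hf
    · exact hcomm e (hΩP.le hE he) f (hΩC.le hF hf)
    · exact (hcomm f (hΩP.le hF hf) e (hΩC.le hE he)).symm
    · exact hΩC.comm E hE F hF hne e he f hf
  · rw [sSup_union, ← hΩP.eq, ← hΩC.eq]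

private theorem dpa_subgroupOf {N : ℕ} {K P : Subgroup G} (hPK : P ≤ K) (h : DP N P) :
    DP N (P.subgroupOf K) := by
  obtain ⟨Ω, hΩ⟩ := h
  refine ⟨{F | ∃ E ∈ Ω, F = E.subgroupOf K}, ?_, ?_, ?_, ?_⟩
  · refine (hΩ.fin.image (fun E => E.subgroupOf K)).subset ?_
    rintro F ⟨E, hE, rfl⟩
    exact ⟨E, hE, rfl⟩
  · rintro F ⟨E, hE, rfl⟩
    exact (hΩ.sm E hE).of_equiv (Subgroup.subgroupOfEquivOfLe ((hΩ.le hE).trans hPK)).symm
  · rintro F ⟨E, hE, rfl⟩ F' ⟨E', hE', rfl⟩ hne e he f hf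
    have hne' : E ≠ E' := fun h => hne (by rw [h])
    exact Subtype.ext (hΩ.comm E hE E' hE' hne' e he f hf)
  · apply le_antisymm
    · have h1 : P ≤ (sSup {F | ∃ E ∈ Ω, F = E.subgroupOf K}).map K.subtype := by
        nth_rewrite 1 [hΩ.eq]
        apply sSup_le
        intro E hE e he
        have h2 : E.subgroupOf K ≤ sSup {F | ∃ E ∈ Ω, F = E.subgroupOf K} :=
          le_sSup ⟨E, hE, rfl⟩
        exact ⟨⟨e, hPK (hΩ.le hE he)⟩, h2 (Subgroup.mem_subgroupOf.2 he), rfl⟩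
      intro x hx
      obtain ⟨y, hy, hyx⟩ := h1 (Subgroup.mem_subgroupOf.1 hx)
      have h3 : y = x := Subtype.ext hyx
      rw [← h3]
      exact hy
    · apply sSup_le
      rintro F ⟨E, hE, rfl⟩ x hx
      exact Subgroup.mem_subgroupOf.2 (hΩ.le hE (Subgroup.mem_subgroupOf.1 hx))

theorem DP.im {N : ℕ} {K P : Subgroup G} {H : Type} [Group H] (π : K →* H) (hPK : P ≤ K)
    (h : DP N P) : DP N (im π P) :=
  (dpa_subgroupOf hPK h).map π

theorem DP.of_im {N : ℕ} {K P : Subgroup G} {H : Type} [Group H] (π : K →* H) (hPK : P ≤ K)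
    (hinj : ∀ k : K, (k : G) ∈ P → π k = 1 → k = 1) (h : DP N (NPR.im π P)) : DP N P := by
  have hmem : ∀ p : P, (π.comp (Subgroup.inclusion hPK)) p ∈ NPR.im π P := fun p =>
    mem_im.2 ⟨Subgroup.inclusion hPK p, p.2, rfl⟩
  obtain ⟨ρ, hρ⟩ : ∃ ρ : P →* NPR.im π P, ∀ p, ((ρ p : NPR.im π P) : H) =
      π (Subgroup.inclusion hPK p) :=
    ⟨(π.comp (Subgroup.inclusion hPK)).codRestrict (NPR.im π P) hmem, fun p => rfl⟩
  have hi : Function.Injective ρ := by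
    rw [injective_iff_map_eq_one]
    intro p hp
    have h1 : π (Subgroup.inclusion hPK p) = 1 := by
      rw [← hρ, hp]
      rfl
    have h2 := hinj _ p.2 h1
    exact Subgroup.inclusion_injective hPK (h2.trans (map_one _).symm)
  have hs : Function.Surjective ρ := by
    rintro ⟨y, hy⟩
    obtain ⟨k, hk, rfl⟩ := mem_im.1 hy
    refine ⟨⟨k, hk⟩, Subtype.ext ?_⟩
    rw [hρ]
    rfl
  have h1 := (dpa_subgroupOf (le_refl (NPR.im π P)) h).map
    (P.subtype.comp (MulEquiv.ofBijective ρ ⟨hi, hs⟩).symm.toMonoidHom)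
  have h2 : ((NPR.im π P).subgroupOf (NPR.im π P)).map
      (P.subtype.comp (MulEquiv.ofBijective ρ ⟨hi, hs⟩).symm.toMonoidHom) = P := by
    apply le_antisymm
    · rintro x ⟨y, -, rfl⟩
      exact ((MulEquiv.ofBijective ρ ⟨hi, hs⟩).symm y).2
    · intro x hx
      refine ⟨ρ ⟨x, hx⟩, ?_, ?_⟩
      · exact Subgroup.mem_subgroupOf.2 (ρ ⟨x, hx⟩).2
      · have h3 : (MulEquiv.ofBijective ρ ⟨hi, hs⟩).symm (ρ ⟨x, hx⟩) = ⟨x, hx⟩ :=
          (MulEquiv.ofBijective ρ ⟨hi, hs⟩).symm_apply_apply ⟨x, hx⟩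
        exact congrArg Subtype.val h3
  rw [h2] at h1
  exact h1

end Pool.Agent.NPR
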