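import Mathlib

/-!
# NPR: definitions

Project NPR (MP_01f347_al): for `d ≥ 6` the question of B. H. and H. Neumann is reduced to
`p`-groups. Blueprint: /team-store/NPR_Proof.md.
-/

set_option autoImplicit false

namespace Pool.Agent.NPR

open Subgroup

variable {G : Type} [Group G]

/-- `S` is a finite simple nonabelian group of order `N`. -/
structure Sm (N : ℕ) (S : Type) [Group S] : Prop where
  fin : Finite S
  simple : IsSimpleGroup S
  nonab : ∃ a b : S, a * b ≠ b * a
  card : Nat.card S = N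

/-- Every nonabelian simple section of `H` has order `< N` (used for finite `H`). -/
def XN (N : ℕ) (H : Type) [Group H] : Prop :=
  ∀ (A : Subgroup H) (S : Type) [Group S] (f : A →* S), Function.Surjective f →
    IsSimpleGroup S → (∃ a b : S, a * b ≠ b * a) → Nat.card S < N

/-- `P` has no nontrivial quotient in the class `XN N`. -/
def Pf (N : ℕ) (P : Type) [Group P] : Prop :=
  ∀ (S : Type) [Group S] (f : P →* S), Function.Surjective f → XN N S → ∀ p, f p = 1

/-- `X` is normalised by `K`. -/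
def Nz (K X : Subgroup G) : Prop := ∀ k ∈ K, ∀ x ∈ X, k * x * k⁻¹ ∈ X

/-- The join of all subgroups of `K` which are normalised by `K` and lie in the class `XN N`. -/
def rad (N : ℕ) (K : Subgroup G) : Subgroup G := sSup {M | M ≤ K ∧ Nz K M ∧ XN N M}

/-- The conjugate `k D k⁻¹`. -/
def cj (k : G) (D : Subgroup G) : Subgroup G := D.map (MulAut.conj k).toMonoidHom

/-- The subgroup generated by the conjugates of `D` under `K`. -/
def ncl (K D : Subgroup G) : Subgroup G :=
  Subgroup.closure {x | ∃ k ∈ K, ∃ d ∈ D, x = k * d * k⁻¹}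

/-- `P` is generated by the finite set `Ω` of pairwise commuting simple nonabelian subgroups of
order `N`. -/
structure DPw (N : ℕ) (P : Subgroup G) (Ω : Set (Subgroup G)) : Prop where
  fin : Ω.Finite
  sm : ∀ E ∈ Ω, Sm N E
  comm : ∀ E ∈ Ω, ∀ F ∈ Ω, E ≠ F → ∀ e ∈ E, ∀ f ∈ F, e * f = f * e
  eq : P = sSup Ω

/-- `P` is generated by finitely many pairwise commuting simple nonabelian subgroups of
order `N`. -/
def DP (N : ℕ) (P : Subgroup G) : Prop := ∃ Ω : Set (Subgroup G), DPw N P Ω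

/-- The image of `P ∩ K` under a homomorphism defined on `K`. -/
def im {K : Subgroup G} {H : Type} [Group H] (π : K →* H) (P : Subgroup G) : Subgroup H :=
  (P.subgroupOf K).map π

/-- `Ω` is a faithful conjugation invariant set of pairwise commuting simple nonabelian
subgroups of order `N`. -/
structure Red (N : ℕ) (H : Type) [Group H] (Ω : Set (Subgroup H)) : Prop where
  sm : ∀ E ∈ Ω, Sm N E
  comm : ∀ E ∈ Ω, ∀ F ∈ Ω, E ≠ F → ∀ e ∈ E, ∀ f ∈ F, e * f = f * e
  conj : ∀ E ∈ Ω, ∀ h : H, cj h E ∈ Ω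
  faithful : ∀ h : H, (∀ E ∈ Ω, ∀ e ∈ E, h * e = e * h) → h = 1

/-- `K` is generated by at most `n` elements. -/
def Gn (n : ℕ) (K : Subgroup G) : Prop :=
  ∃ l : List G, l.length ≤ n ∧ K = Subgroup.closure {v | v ∈ l}

/-- The situation of sections 4, 5, 6 of the blueprint. -/
structure Ctx (d N : ℕ) (G : Type) [Group G] : Prop where
  six : 6 ≤ d
  fin : ∀ K : Subgroup G, Gn d K → Finite K
  top : ∀ K : Subgroup G, Gn d K → XN (N + 1) K
  two : ∀ (K : Subgroup G) (S : Type) [Group S] (f : K →* S), Function.Surjective f →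
    Sm N S → ∃ a b : S, Subgroup.closure {a, b} = ⊤

/-- The set `𝒟` of section 5. -/
def DD (N : ℕ) (G : Type) [Group G] : Set (Subgroup G) :=
  {D | Sm N D ∧ ∀ g : G, DP N (ncl (D ⊔ Subgroup.zpowers g) D)}

/-! ### conjugates -/

theorem mem_cj {k x : G} {D : Subgroup G} : x ∈ cj k D ↔ k⁻¹ * x * k ∈ D := by
  unfold cj
  rw [Subgroup.mem_map]
  constructor
  · rintro ⟨y, hy, rfl⟩
    simpa [mul_assoc] using hy
  · intro h
    exact ⟨_, h, by simp [mul_assoc]⟩

theorem conj_mem_cj {k d : G} {D : Subgroup G} (h : d ∈ D) : k * d * k⁻¹ ∈ cj k D := by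
  rw [mem_cj]
  simpa [mul_assoc] using h

theorem cj_mul (a b : G) (D : Subgroup G) : cj (a * b) D = cj a (cj b D) := by
  ext x
  rw [mem_cj, mem_cj, mem_cj]
  simp [mul_assoc]

theorem cj_one (D : Subgroup G) : cj 1 D = D := by
  ext x
  rw [mem_cj]
  simp

theorem cj_mono {k : G} {D E : Subgroup G} (h : D ≤ E) : cj k D ≤ cj k E :=
  Subgroup.map_mono h

theorem cj_le_of_nz {K X : Subgroup G} (h : Nz K X) {k : G} (hk : k ∈ K) : cj k X ≤ X := by
  intro x hx
  rw [mem_cj] at hx
  have := h k hk _ hx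
  simpa [mul_assoc] using this

theorem cj_eq_of_nz {K X : Subgroup G} (h : Nz K X) {k : G} (hk : k ∈ K) : cj k X = X := by
  apply le_antisymm (cj_le_of_nz h hk)
  intro x hx
  rw [mem_cj]
  have := h k⁻¹ (K.inv_mem hk) _ hx
  simpa using this

/-- `cj k D` is isomorphic to `D`. -/
noncomputable def cjEquiv (k : G) (D : Subgroup G) : D ≃* cj k D :=
  D.equivMapOfInjective _ (MulAut.conj k).injective

theorem Sm.of_equiv {N : ℕ} {S S' : Type} [Group S] [Group S'] (h : Sm N S) (e : S ≃* S') :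
    Sm N S' where
  fin := by
    have := h.fin
    exact Finite.of_equiv S e.toEquiv
  simple := by
    have h1 : IsSimpleGroup S := h.simple
    have h2 : Nontrivial S := h1.toNontrivial
    have h3 : Nontrivial S' := e.injective.nontrivial
    exact IsSimpleGroup.isSimpleGroup_of_surjective e.toMonoidHom e.surjective
  nonab := by
    obtain ⟨a, b, hab⟩ := h.nonab
    refine ⟨e a, e b, fun h1 => hab (e.injective ?_)⟩
    rw [map_mul, map_mul, h1]
  card := by
    rw [← h.card]
    exact (Nat.card_congr e.toEquiv).symm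

theorem Sm.cj {N : ℕ} {D : Subgroup G} (h : Sm N D) (k : G) : Sm N (cj k D) :=
  h.of_equiv (cjEquiv k D)

/-! ### normal closures -/

theorem conj_mem_ncl {K D : Subgroup G} {k d : G} (hk : k ∈ K) (hd : d ∈ D) :
    k * d * k⁻¹ ∈ ncl K D :=
  Subgroup.subset_closure ⟨k, hk, d, hd, rfl⟩

theorem le_ncl (K D : Subgroup G) : D ≤ ncl K D := by
  intro d hd
  simpa using conj_mem_ncl K.one_mem hd

theorem ncl_le_iff {K D M : Subgroup G} (hM : Nz K M) (h : D ≤ M) : ncl K D ≤ M := by
  unfold ncl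
  rw [Subgroup.closure_le]
  rintro x ⟨k, hk, d, hd, rfl⟩
  exact hM k hk d (h hd)

theorem ncl_le {K D : Subgroup G} (h : D ≤ K) : ncl K D ≤ K :=
  ncl_le_iff (fun _ hk _ hx => K.mul_mem (K.mul_mem hk hx) (K.inv_mem hk)) h

theorem ncl_nz (K D : Subgroup G) : Nz K (ncl K D) := by
  intro k hk x hx
  unfold ncl at hx
  induction hx using Subgroup.closure_induction with
  | mem y hy =>
    obtain ⟨k', hk', d, hd, rfl⟩ := hy
    have := conj_mem_ncl (K.mul_mem hk hk') hd
    simpa [mul_assoc] using this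
  | one => simp
  | mul a b _ _ ha hb =>
    have := (ncl K D).mul_mem ha hb
    simpa [mul_assoc] using this
  | inv a _ ha =>
    have := (ncl K D).inv_mem ha
    simpa [mul_assoc] using this

theorem ncl_mono {K K' D D' : Subgroup G} (hK : K ≤ K') (hD : D ≤ D') :
    ncl K D ≤ ncl K' D' := by
  unfold ncl
  rw [Subgroup.closure_le]
  rintro x ⟨k, hk, d, hd, rfl⟩
  exact conj_mem_ncl (hK hk) (hD hd)

theorem cj_le_ncl {K D : Subgroup G} {k : G} (hk : k ∈ K) : cj k D ≤ ncl K D := by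
  intro x hx
  rw [mem_cj] at hx
  have := conj_mem_ncl hk hx
  simpa [mul_assoc] using this

theorem ncl_eq_sSup (K D : Subgroup G) : ncl K D = sSup {E | ∃ k ∈ K, E = cj k D} := by
  apply le_antisymm
  · unfold ncl
    rw [Subgroup.closure_le]
    rintro x ⟨k, hk, d, hd, rfl⟩
    have h1 : cj k D ≤ sSup {E | ∃ k ∈ K, E = cj k D} := le_sSup ⟨k, hk, rfl⟩
    exact h1 (conj_mem_cj hd)
  · apply sSup_le
    rintro E ⟨k, hk, rfl⟩
    exact cj_le_ncl hk

/-! ### images -/

theorem mem_im {K : Subgroup G} {H : Type} [Group H] {π : K →* H} {P : Subgroup G} {h : H} :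
    h ∈ im π P ↔ ∃ k : K, (k : G) ∈ P ∧ π k = h := by
  unfold im
  rw [Subgroup.mem_map]
  constructor
  · rintro ⟨k, hk, rfl⟩
    exact ⟨k, Subgroup.mem_subgroupOf.1 hk, rfl⟩
  · rintro ⟨k, hk, rfl⟩
    exact ⟨k, Subgroup.mem_subgroupOf.2 hk, rfl⟩

theorem im_mono {K : Subgroup G} {H : Type} [Group H] {π : K →* H} {P Q : Subgroup G}
    (h : P ≤ Q) : im π P ≤ im π Q := by
  intro x hx
  rw [mem_im] at hx ⊢
  obtain ⟨k, hk, rfl⟩ := hx
  exact ⟨k, h hk, rfl⟩

/-! ### few generators -/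

theorem Gn.mono {m n : ℕ} {K : Subgroup G} (h : Gn m K) (hmn : m ≤ n) : Gn n K := by
  obtain ⟨l, hl, rfl⟩ := h
  exact ⟨l, hl.trans hmn, rfl⟩

theorem Gn.sup {m n : ℕ} {K L : Subgroup G} (hK : Gn m K) (hL : Gn n L) :
    Gn (m + n) (K ⊔ L) := by
  obtain ⟨l, hl, rfl⟩ := hK
  obtain ⟨l', hl', rfl⟩ := hL
  refine ⟨l ++ l', by rw [List.length_append]; omega, ?_⟩
  rw [← Subgroup.closure_union]
  congr 1
  ext v
  simp

theorem Gn.zpowers (g : G) : Gn 1 (Subgroup.zpowers g) := by
  refine ⟨[g], by simp, ?_⟩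
  rw [Subgroup.zpowers_eq_closure]
  congr 1
  ext v
  simp

theorem Gn.triple (x y z : G) : Gn 3 (Subgroup.closure {x, y, z}) := by
  refine ⟨[x, y, z], by simp, ?_⟩
  congr 1
  ext v
  simp

theorem Ctx.gn_two {d N : ℕ} (hc : Ctx d N G) {D : Subgroup G} (hD : Sm N D) : Gn 2 D := by
  obtain ⟨a, b, hab⟩ := hc.two D D (MonoidHom.id D) Function.surjective_id hD
  refine ⟨[(a : G), (b : G)], by simp, ?_⟩
  have h := congrArg (Subgroup.map D.subtype) hab
  rw [MonoidHom.map_closure, ← MonoidHom.range_eq_map, Subgroup.range_subtype] at h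
  refine h.symm.trans ?_
  congr 1
  ext v
  simp only [Set.image_pair, Subgroup.subtype_apply, Set.mem_insert_iff,
    Set.mem_singleton_iff, List.mem_cons, List.not_mem_nil, or_false, Set.mem_ofPred_eq]

theorem Ctx.finite {d N : ℕ} (hc : Ctx d N G) {n : ℕ} {K : Subgroup G} (hK : Gn n K)
    (hn : n ≤ 6) : Finite K :=
  hc.fin K (hK.mono (hn.trans hc.six))

theorem Ctx.xn {d N : ℕ} (hc : Ctx d N G) {n : ℕ} {K : Subgroup G} (hK : Gn n K)
    (hn : n ≤ 6) : XN (N + 1) K :=
  hc.top K (hK.mono (hn.trans hc.six))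

end Pool.Agent.NPR
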