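import Pool.Agent.NPR.RedF
import Pool.Agent.NPR.Comp

/-!
# NPR: elements of maximal `p`-power order fix the components

Proofs.

* `max_quot`: `K` finite, `π : K →* H` onto, all elements `g` of `G` of `p`-power order satisfy
  `g ^ p ^ m = 1`. Let `h = π k` with `h ^ p ^ j = 1`. Write `orderOf k = p ^ a * b` with `b` prime
  to `p`; `k ^ b` has `p`-power order, so `(k ^ b) ^ p ^ m = 1` (in `G`), so
  `(h ^ b) ^ p ^ m = 1`, i.e. `(h ^ p ^ m) ^ b = 1`; also `(h ^ p ^ m) ^ p ^ j = 1`, `b` and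
  `p ^ j` are coprime, so `h ^ p ^ m = 1`.

* `fix_comp`: `H` finite, `Red N H Ω`, `p` prime, `p ∣ N`, all elements of `p`-power order of `H`
  satisfy `h ^ p ^ (e + 1) = 1`; `x ^ p ^ (e + 1) = 1`. Then `z = x ^ p ^ e` fixes every `E ∈ Ω`:
  `cj z E = E`. Proof: suppose `cj z E ≠ E`. Then the members `E_i = cj (x ^ i) E`,
  `0 ≤ i < q := p ^ (e + 1)`, of `Ω` are pairwise different. By Cauchy take `t ∈ E` of order `p`.
  Put `y = t * x`. For all `n`: `y ^ n = t_0 * ... * t_(n-1) * x ^ n`. For `n = q`: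
  `y ^ q = ∏ t_i`, `t_i = x ^ i t x ^ -i ∈ E_i`, pairwise commuting. So
  `y ^ (q * p) = ∏ t_i ^ p = 1`: `y` has `p`-power order, so by hypothesis `y ^ q = 1`. But then
  `t_0 = t = (∏_{i ≥ 1} t_i)⁻¹` lies in `E` and commutes with `E` (all `E_i ≠ E`, `i ≥ 1`), so
  `t = 1` (`Sm.eq_one_of_central`), contradiction to `orderOf t = p`.
-/

set_option autoImplicit false

namespace Pool.Agent.NPR

open Subgroup

variable {G : Type} [Group G]

theorem max_quot {K : Subgroup G} [Finite K] {H : Type} [Group H] (π : K →* H)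
    (hs : Function.Surjective π) {p m : ℕ} (hp : p.Prime)
    (hmax : ∀ g : G, (∃ j : ℕ, g ^ p ^ j = 1) → g ^ p ^ m = 1) :
    ∀ h : H, (∃ j : ℕ, h ^ p ^ j = 1) → h ^ p ^ m = 1 := by
  rintro h ⟨j, hj⟩
  obtain ⟨k, rfl⟩ := hs h
  have hpos : orderOf k ≠ 0 := (orderOf_pos k).ne'
  obtain ⟨a, b, hb, hab⟩ := Nat.exists_eq_pow_mul_and_not_dvd hpos p hp.ne_one
  have h1 : (k ^ b) ^ p ^ a = 1 := by
    rw [← pow_mul, mul_comm, ← hab, pow_orderOf_eq_one]
  have h2 : ((k : G) ^ b) ^ p ^ m = 1 := by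
    apply hmax
    refine ⟨a, ?_⟩
    have := congrArg (Subtype.val) h1
    simpa using this
  have h3 : (k ^ b) ^ p ^ m = 1 := by
    apply Subtype.ext
    simpa using h2
  have h4 : (π k ^ p ^ m) ^ b = 1 := by
    have := congrArg π h3
    rw [map_pow, map_pow, map_one, ← pow_mul, mul_comm, pow_mul] at this
    exact this
  have h5 : (π k ^ p ^ m) ^ p ^ j = 1 := by
    rw [← pow_mul, mul_comm, pow_mul, hj, one_pow]
  have h6 : orderOf (π k ^ p ^ m) ∣ Nat.gcd b (p ^ j) :=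
    Nat.dvd_gcd (orderOf_dvd_of_pow_eq_one h4) (orderOf_dvd_of_pow_eq_one h5)
  have h7 : Nat.gcd b (p ^ j) = 1 := by
    apply Nat.Coprime.pow_right
    exact ((Nat.Prime.coprime_iff_not_dvd hp).2 hb).symm
  rw [h7, Nat.dvd_one] at h6
  exact orderOf_eq_one_iff.1 h6

private theorem ex1_cj_inj {H : Type} [Group H] {a : H} {D D' : Subgroup H}
    (h : cj a D = cj a D') : D = D' := by
  have h1 := congrArg (cj a⁻¹) h
  rw [← cj_mul, ← cj_mul, inv_mul_cancel, cj_one, cj_one] at h1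
  exact h1

/-- The stabiliser of `E`. -/
private def ex1St {H : Type} [Group H] (E : Subgroup H) : Subgroup H where
  carrier := {h | cj h E = E}
  mul_mem' := by
    intro a b ha hb
    change cj (a * b) E = E
    change cj a E = E at ha
    change cj b E = E at hb
    rw [cj_mul, hb, ha]
  one_mem' := cj_one E
  inv_mem' := by
    intro a ha
    change cj a⁻¹ E = E
    change cj a E = E at ha
    have h1 : cj a⁻¹ (cj a E) = E := by rw [← cj_mul, inv_mul_cancel, cj_one]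
    rw [ha] at h1
    exact h1

private theorem ex1_stab {H : Type} [Group H] {E : Subgroup H} {p e i : ℕ} (hp : p.Prime)
    {x : H} (hx : x ^ p ^ (e + 1) = 1) (hi : 0 < i) (hiq : i < p ^ (e + 1))
    (h : cj (x ^ i) E = E) : cj (x ^ p ^ e) E = E := by
  have h1 : x ^ i ∈ ex1St E := h
  have hg : Nat.gcd i (p ^ (e + 1)) ∣ p ^ (e + 1) := Nat.gcd_dvd_right _ _
  obtain ⟨s, hs, hse⟩ := (Nat.dvd_prime_pow hp).1 hg
  have hle : Nat.gcd i (p ^ (e + 1)) ≤ i := Nat.gcd_le_left _ hi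
  have hs1 : s ≤ e := by
    by_contra hcon
    have hs2 : s = e + 1 := by omega
    rw [hse, hs2] at hle
    omega
  have h2 : x ^ Nat.gcd i (p ^ (e + 1)) ∈ ex1St E := by
    have h3 : x ^ Nat.gcd i (p ^ (e + 1)) =
        (x ^ i) ^ (Nat.gcdA i (p ^ (e + 1))) *
          (x ^ p ^ (e + 1)) ^ (Nat.gcdB i (p ^ (e + 1))) := by
      rw [← zpow_natCast x i, ← zpow_natCast x (p ^ (e + 1)), ← zpow_mul, ← zpow_mul,
        ← zpow_add, ← Nat.gcd_eq_gcd_ab, zpow_natCast]
    rw [h3, hx, one_zpow, mul_one]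
    exact (ex1St E).zpow_mem h1 _
  rw [hse] at h2
  have h4 : x ^ p ^ e ∈ ex1St E := by
    have h5 : x ^ p ^ e = (x ^ p ^ s) ^ p ^ (e - s) := by
      rw [← pow_mul, ← pow_add, Nat.add_sub_cancel' hs1]
    rw [h5]
    exact (ex1St E).pow_mem h2 _
  exact h4

/-- The product of the first `n` conjugates of `t`. -/
private def ex1u {H : Type} [Group H] (t x : H) : ℕ → H
  | 0 => 1
  | n + 1 => ex1u t x n * (x ^ n * t * (x ^ n)⁻¹)

private theorem ex1_pow {H : Type} [Group H] (t x : H) (n : ℕ) :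
    (t * x) ^ n = ex1u t x n * x ^ n := by
  induction n with
  | zero => simp [ex1u]
  | succ n ih =>
    rw [pow_succ, ih]
    simp only [ex1u]
    rw [pow_succ]
    group

theorem fix_comp {N : ℕ} {H : Type} [Group H] [Finite H] {Ω : Set (Subgroup H)}
    (hR : Red N H Ω) {p e : ℕ} (hp : p.Prime) (hpN : p ∣ N)
    (hmax : ∀ h : H, (∃ j : ℕ, h ^ p ^ j = 1) → h ^ p ^ (e + 1) = 1) (x : H)
    (hx : x ^ p ^ (e + 1) = 1) {E : Subgroup H} (hE : E ∈ Ω) : cj (x ^ p ^ e) E = E := by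
  by_contra hne
  have hdiff0 : ∀ i, 0 < i → i < p ^ (e + 1) → cj (x ^ i) E ≠ E := fun i h0 hi h =>
    hne (ex1_stab hp hx h0 hi h)
  have hdiff : ∀ i j, i < j → j < p ^ (e + 1) → cj (x ^ i) E ≠ cj (x ^ j) E := by
    intro i j hij hj h
    have h1 : x ^ j = x ^ i * x ^ (j - i) := by
      rw [← pow_add, Nat.add_sub_cancel' hij.le]
    rw [h1, cj_mul] at h
    exact hdiff0 (j - i) (by omega) (by omega) (ex1_cj_inj h).symm
  have hfact : Fact p.Prime := ⟨hp⟩
  have hcard : p ∣ Nat.card E := by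
    rw [(hR.sm E hE).card]
    exact hpN
  obtain ⟨t, ht⟩ := exists_prime_orderOf_dvd_card' (G := E) p hcard
  have htp : (t : H) ^ p = 1 := by
    have h1 : t ^ p = 1 := by rw [← ht, pow_orderOf_eq_one]
    have := congrArg Subtype.val h1
    simpa using this
  have hmem : ∀ i, x ^ i * (t : H) * (x ^ i)⁻¹ ∈ cj (x ^ i) E := fun i => conj_mem_cj t.2
  have hΩ : ∀ i, cj (x ^ i) E ∈ Ω := fun i => hR.conj E hE (x ^ i)
  have hmain : ∀ n, n ≤ p ^ (e + 1) → (ex1u (t : H) x n) ^ p = 1 ∧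
      ∀ j, n ≤ j → j < p ^ (e + 1) → ∀ w ∈ cj (x ^ j) E, Commute (ex1u (t : H) x n) w := by
    intro n
    induction n with
    | zero =>
      intro _
      exact ⟨by simp [ex1u], fun j _ _ w _ => Commute.one_left w⟩
    | succ n ih =>
      intro hn
      obtain ⟨h1, h2⟩ := ih (by omega)
      refine ⟨?_, ?_⟩
      · have h3 : Commute (ex1u (t : H) x n) (x ^ n * (t : H) * (x ^ n)⁻¹) :=
          h2 n le_rfl (by omega) _ (hmem n)
        simp only [ex1u]
        rw [h3.mul_pow, h1, conj_pow, htp]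
        simp
      · intro j hj hjq w hw
        simp only [ex1u]
        refine Commute.mul_left (h2 j (by omega) hjq w hw) ?_
        exact hR.comm _ (hΩ n) _ (hΩ j) (hdiff n j (by omega) hjq) _ (hmem n) _ hw
  have hu : ex1u (t : H) x (p ^ (e + 1)) = 1 := by
    have h1 := (hmain (p ^ (e + 1)) le_rfl).1
    have h2 := ex1_pow (t : H) x (p ^ (e + 1))
    rw [hx, mul_one] at h2
    rw [← h2]
    apply hmax
    refine ⟨e + 1 + 1, ?_⟩
    rw [pow_succ p (e + 1), pow_mul, h2, h1]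
  have hcen : ∀ n, 1 ≤ n → n ≤ p ^ (e + 1) → ∀ w ∈ E,
      Commute ((t : H)⁻¹ * ex1u (t : H) x n) w := by
    intro n
    induction n with
    | zero => intro h; omega
    | succ n ih =>
      intro _ hn w hw
      rcases Nat.eq_zero_or_pos n with h0 | h0
      · subst h0
        have h1 : (t : H)⁻¹ * ex1u (t : H) x (0 + 1) = 1 := by simp [ex1u]
        rw [h1]
        exact Commute.one_left w
      · have h1 : (t : H)⁻¹ * ex1u (t : H) x (n + 1) =
            ((t : H)⁻¹ * ex1u (t : H) x n) * (x ^ n * (t : H) * (x ^ n)⁻¹) := by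
          simp only [ex1u]
          group
        rw [h1]
        refine Commute.mul_left (ih h0 (by omega) w hw) ?_
        exact hR.comm _ (hΩ n) _ hE (hdiff0 n h0 (by omega)) _ (hmem n) _ hw
  have hq : 1 ≤ p ^ (e + 1) := Nat.one_le_pow _ _ hp.pos
  have hcomm : ∀ w ∈ E, (t : H) * w = w * (t : H) := by
    intro w hw
    have h1 := hcen _ hq le_rfl w hw
    rw [hu, mul_one] at h1
    exact (Commute.inv_left_iff.1 h1).eq
  have ht1 : (t : H) = 1 := (hR.sm E hE).eq_one_of_central t.2 hcomm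
  have ht2 : t = 1 := Subtype.ext ht1
  rw [ht2, orderOf_one] at ht
  exact hp.one_lt.ne ht

end Pool.Agent.NPR
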