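import Pool.Agent.NPR.Smf

/-!
# NPR: perfect groups of automorphisms of a two-generated simple group are inner

Proofs.

* `card_out` : for a finite simple nonabelian group `E` of order `N`, generated by two elements
  `a, b`: an automorphism is determined by the images of `a` and `b`, and
  `(1, 1)` is never the pair of images, so `Nat.card (MulAut E) < N * N`. The map
  `MulAut.conj : E →* MulAut E` is injective (trivial centre), its range `I` is a normal subgroup
  with `N` elements. So `Nat.card (MulAut E ⧸ I) < N`.
* `exists_inner`: `Pf N P`, `φ : P →* MulAut E`: the composition `P → MulAut E ⧸ I` is trivial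
  (`XN.of_card`, `Pf.hom_trivial`), so each `φ p` is conjugation by an element.
-/

set_option autoImplicit false

namespace Pool.Agent.NPR

open Subgroup

variable {N : ℕ}

private theorem out_conj_normal (E : Type) [Group E] :
    (MulAut.conj (G := E)).range.Normal := by
  constructor
  rintro _ ⟨x, rfl⟩ g
  refine ⟨g x, ?_⟩
  ext y
  simp [MulAut.conj_apply]

private theorem out_conj_inj {E : Type} [Group E] (h : Sm N E) :
    Function.Injective (MulAut.conj (G := E)) := by
  have hs : IsSimpleGroup E := h.simple
  rw [← MonoidHom.ker_eq_bot_iff]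
  rcases IsSimpleGroup.eq_bot_or_eq_top_of_normal (MulAut.conj (G := E)).ker inferInstance with
    h1 | h1
  · exact h1
  · exfalso
    obtain ⟨a, b, hab⟩ := h.nonab
    apply hab
    have h2 : a ∈ (MulAut.conj (G := E)).ker := by rw [h1]; trivial
    rw [MonoidHom.mem_ker] at h2
    have h3 := congrArg (fun f : MulAut E => f b) h2
    simp only [MulAut.conj_apply, MulAut.one_apply] at h3
    calc a * b = (a * b * a⁻¹) * a := by group
      _ = b * a := by rw [h3]

private theorem out_card_aut {E : Type} [Group E] (h : Sm N E)
    (h2 : ∃ a b : E, Subgroup.closure {a, b} = ⊤) : Nat.card (MulAut E) < N * N := by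
  classical
  obtain ⟨a, b, hab⟩ := h2
  have hfin : Finite E := h.fin
  have hs : IsSimpleGroup E := h.simple
  have hnt : Nontrivial E := hs.toNontrivial
  have := Fintype.ofFinite E
  let F : MulAut E → E × E := fun f => (f a, f b)
  have hF : Function.Injective F := by
    intro f g hfg
    have h3 : f a = g a := congrArg Prod.fst hfg
    have h4 : f b = g b := congrArg Prod.snd hfg
    have h5 : f.toMonoidHom = g.toMonoidHom := by
      apply MonoidHom.eq_of_eqOn_dense hab
      intro x hx
      rcases hx with rfl | rfl
      · exact h3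
      · exact h4
    ext x
    exact DFunLike.congr_fun h5 x
  have hne : (1, 1) ∉ Set.range F := by
    rintro ⟨f, hf⟩
    have h3 : f a = 1 := congrArg Prod.fst hf
    have h4 : f b = 1 := congrArg Prod.snd hf
    have h5 : a = 1 := f.injective (by rw [h3, map_one])
    have h6 : b = 1 := f.injective (by rw [h4, map_one])
    rw [h5, h6] at hab
    have h7 : Subgroup.closure ({1, 1} : Set E) = ⊥ := by
      rw [Subgroup.closure_eq_bot_iff]
      intro x hx
      rcases hx with rfl | rfl <;> rfl
    rw [h7] at hab
    exact bot_ne_top hab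
  have hfa : Finite (MulAut E) := Finite.of_injective F hF
  have h3 : Nat.card (MulAut E) = Nat.card (Set.range F) :=
    Nat.card_congr (Equiv.ofInjective F hF)
  have h4 : (Set.range F).ncard < Nat.card (E × E) := by
    rw [← Set.ncard_univ]
    apply Set.ncard_lt_ncard _ Set.finite_univ
    refine ⟨Set.subset_univ _, fun hc => hne (hc (Set.mem_univ _))⟩
  rw [h3]
  rw [Nat.card_prod, h.card] at h4
  exact h4

theorem card_out {E : Type} [Group E] (h : Sm N E)
    (h2 : ∃ a b : E, Subgroup.closure {a, b} = ⊤) :
    ∃ _ : (MulAut.conj (G := E)).range.Normal,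
      Nat.card (MulAut E ⧸ (MulAut.conj (G := E)).range) < N := by
  refine ⟨out_conj_normal E, ?_⟩
  have h3 := out_card_aut h h2
  have h4 : Nat.card (MulAut.conj (G := E)).range = N := by
    rw [← h.card]
    exact (Nat.card_congr (MonoidHom.ofInjective (out_conj_inj h)).toEquiv).symm
  have h5 := Subgroup.card_eq_card_quotient_mul_card_subgroup (MulAut.conj (G := E)).range
  rw [h4] at h5
  rw [h5] at h3
  exact Nat.lt_of_mul_lt_mul_right h3

theorem exists_inner {E : Type} [Group E] (h : Sm N E)
    (h2 : ∃ a b : E, Subgroup.closure {a, b} = ⊤) {P : Type} [Group P] (hP : Pf N P)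
    (φ : P →* MulAut E) (p : P) : ∃ e : E, ∀ y, φ p y = e * y * e⁻¹ := by
  obtain ⟨hn, hc⟩ := card_out h h2
  have hfin : Finite E := h.fin
  have hfa : Finite (MulAut E) :=
    Finite.of_injective (fun f : MulAut E => (f : E → E)) DFunLike.coe_injective
  have hX : XN N (MulAut E ⧸ (MulAut.conj (G := E)).range) := XN.of_card hc
  have h3 := Pf.hom_trivial hP ((QuotientGroup.mk' (MulAut.conj (G := E)).range).comp φ) hX p
  rw [MonoidHom.comp_apply, QuotientGroup.mk'_apply, QuotientGroup.eq_one_iff] at h3
  obtain ⟨e, he⟩ := h3
  refine ⟨e, fun y => ?_⟩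
  rw [← he]
  rfl

end Pool.Agent.NPR
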