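import Pool.Agent.NPR.DPa
import Pool.Agent.NPR.Out

/-!
# NPR: consequences of `Red`

`H` finite, `Red N H Ω`.

Proofs.

* `Red.dpw`: `Ω` is finite (`H` has finitely many subgroups).
* `Red.inner`: for `s ∈ sSup Ω` and `E ∈ Ω`: `s = a * b`, `a ∈ E`, `b` commutes with `E`
  (`DPw.dec` with `Ω₁ = {E}`).
* `Red.mem_soc`: choose for each `E ∈ Ω` an element `e E ∈ E` with `x y x⁻¹ = e y e⁻¹` on `E`. Let
  `s` be the product of all `e E` (they commute pairwise; e.g. by induction over the finite set: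
  for every finite subset `Ω₁` of `Ω` there is `s ∈ sSup Ω₁` which acts on every `E ∈ Ω₁` as
  `x` and commutes with every `E ∈ Ω \ Ω₁`). Then `s⁻¹ * x` commutes with all `E ∈ Ω`, so it is
  `1` (`Red.faithful`), `x = s ∈ sSup Ω`.
* `Red.le_soc`: for `p ∈ P` and `E ∈ Ω` conjugation by `p` is an automorphism of `E`
  (`Nz P E`), this gives `P →* MulAut E` (e.g. `MulAut.conjNormal`-like or by hand); by
  `exists_inner` `p` acts on `E` as an element of `E`; use `Red.mem_soc`.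
* `Red.kill`: let `r ∈ R`, `E ∈ Ω`. The projection `sSup Ω → E` (each `s` is `a * b`, `a ∈ E`
  unique) restricted to `P` is a homomorphism `P →* E`. By `Pf.kills` it kills `R`: so
  `r = 1 * b` commutes with `E`. So `r = 1` by `Red.faithful`.
* `Red.proj`: the projection: for `E ∈ Ω` there is a homomorphism `φ : sSup Ω →* E` such that for
  all `s`, `y ∈ E`: `s y s⁻¹ = φ(s) y φ(s)⁻¹` (unique `a` with this property by
  `Sm.eq_one_of_central`).
-/

set_option autoImplicit false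

namespace Pool.Agent.NPR

open Subgroup

variable {G : Type} [Group G] {N : ℕ} {H : Type} [Group H] [Finite H] {Ω : Set (Subgroup H)}

theorem Red.dpw (h : Red N H Ω) : DPw N (sSup Ω) Ω :=
  ⟨Set.toFinite Ω, h.sm, h.comm, rfl⟩

theorem Red.inner (h : Red N H Ω) {s : H} (hs : s ∈ sSup Ω) {E : Subgroup H} (hE : E ∈ Ω) :
    ∃ e ∈ E, ∀ y ∈ E, s * y * s⁻¹ = e * y * e⁻¹ := by
  obtain ⟨hc, hd⟩ := h.dpw.dec (Set.singleton_subset_iff.2 hE)
  obtain ⟨a, ha, b, hb, rfl⟩ := hd s hs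
  rw [sSup_singleton] at hc ha
  refine ⟨a, ha, fun y hy => ?_⟩
  have h1 : y * b = b * y := hc y hy b hb
  calc a * b * y * (a * b)⁻¹ = a * (b * y) * b⁻¹ * a⁻¹ := by group
    _ = a * (y * b) * b⁻¹ * a⁻¹ := by rw [h1]
    _ = a * y * a⁻¹ := by group

theorem Red.mem_soc (h : Red N H Ω) {x : H}
    (hx : ∀ E ∈ Ω, ∃ e ∈ E, ∀ y ∈ E, x * y * x⁻¹ = e * y * e⁻¹) : x ∈ sSup Ω := by
  have key : ∀ Ω₁ : Set (Subgroup H), Ω₁ ⊆ Ω →
      ∃ s ∈ sSup Ω₁, ∀ E ∈ Ω₁, ∀ y ∈ E, s * y * s⁻¹ = x * y * x⁻¹ := by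
    intro Ω₁
    have hfin : Ω₁.Finite := Set.toFinite Ω₁
    induction Ω₁, hfin using Set.Finite.induction_on with
    | empty =>
      intro _
      exact ⟨1, Subgroup.one_mem _, fun E hE => absurd hE (Set.notMem_empty E)⟩
    | @insert F Ω₂ hF _ ih =>
      intro hsub
      have hFΩ : F ∈ Ω := hsub (Set.mem_insert F Ω₂)
      have hsub2 : Ω₂ ⊆ Ω := fun E hE => hsub (Set.mem_insert_of_mem F hE)
      obtain ⟨s, hs, hsE⟩ := ih hsub2
      obtain ⟨e, he, heF⟩ := hx F hFΩ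
      have hle : sSup Ω₂ ≤ sSup (insert F Ω₂) := sSup_le_sSup (Set.subset_insert F Ω₂)
      have hle2 : F ≤ sSup (insert F Ω₂) := le_sSup (Set.mem_insert F Ω₂)
      have hcm := (h.dpw.dec hsub2).1
      have hFd : F ≤ sSup (Ω \ Ω₂) := le_sSup ⟨hFΩ, hF⟩
      refine ⟨s * e, Subgroup.mul_mem _ (hle hs) (hle2 he), ?_⟩
      intro E hE y hy
      rcases Set.mem_insert_iff.1 hE with hEF | hE2
      · rw [hEF] at hy
        have h1 : e * y * e⁻¹ ∈ F := F.mul_mem (F.mul_mem he hy) (F.inv_mem he)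
        have h2 := hcm s hs _ (hFd h1)
        calc s * e * y * (s * e)⁻¹ = s * (e * y * e⁻¹) * s⁻¹ := by group
          _ = e * y * e⁻¹ * s * s⁻¹ := by rw [h2]
          _ = e * y * e⁻¹ := by group
          _ = x * y * x⁻¹ := (heF y hy).symm
      · have hne : E ≠ F := fun h0 => hF (h0 ▸ hE2)
        have h1 : y * e = e * y := h.comm E (hsub2 hE2) F hFΩ hne y hy e he
        calc s * e * y * (s * e)⁻¹ = s * (e * y) * e⁻¹ * s⁻¹ := by group
          _ = s * (y * e) * e⁻¹ * s⁻¹ := by rw [h1]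
          _ = s * y * s⁻¹ := by group
          _ = x * y * x⁻¹ := hsE E hE2 y hy
  obtain ⟨s, hs, hsE⟩ := key Ω subset_rfl
  have h1 : s⁻¹ * x = 1 := by
    apply h.faithful
    intro E hE e he
    have h2 := hsE E hE e he
    calc s⁻¹ * x * e = s⁻¹ * (x * e * x⁻¹) * x := by group
      _ = s⁻¹ * (s * e * s⁻¹) * x := by rw [h2]
      _ = e * (s⁻¹ * x) := by group
  have h3 : x = s := by
    have h4 := congrArg (fun z => s * z) h1
    simpa using h4
  rw [h3]
  exact hs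

theorem Red.le_soc (h : Red N H Ω)
    (h2 : ∀ E ∈ Ω, ∃ a b : E, Subgroup.closure {a, b} = ⊤) {P : Subgroup H} (hP : Pf N P)
    (hn : ∀ E ∈ Ω, Nz P E) : P ≤ sSup Ω := by
  intro p hp
  apply h.mem_soc
  intro E hE
  have hn' := hn E hE
  have hm : ∀ (q : P) (y : E), (q : H) * (y : H) * (q : H)⁻¹ ∈ E :=
    fun q y => hn' q q.2 y y.2
  have hm' : ∀ (q : P) (y : E), (q : H)⁻¹ * (y : H) * (q : H) ∈ E := by
    intro q y
    have h1 := hn' (q : H)⁻¹ (P.inv_mem q.2) y y.2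
    simpa using h1
  let φ : P →* MulAut E :=
    { toFun := fun q =>
        { toFun := fun y => ⟨_, hm q y⟩
          invFun := fun y => ⟨_, hm' q y⟩
          left_inv := fun y => Subtype.ext (by simp [mul_assoc])
          right_inv := fun y => Subtype.ext (by simp [mul_assoc])
          map_mul' := fun y z => Subtype.ext (by simp [mul_assoc]) }
      map_one' := by
        ext y
        simp
      map_mul' := fun q r => by
        ext y
        simp [mul_assoc] }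
  obtain ⟨e, he⟩ := exists_inner (h.sm E hE) (h2 E hE) hP φ ⟨p, hp⟩
  refine ⟨e, e.2, fun y hy => ?_⟩
  exact congrArg Subtype.val (he ⟨y, hy⟩)

theorem Red.proj (h : Red N H Ω) {E : Subgroup H} (hE : E ∈ Ω) :
    ∃ φ : (sSup Ω : Subgroup H) →* E, ∀ (s : (sSup Ω : Subgroup H)), ∀ y ∈ E,
      (s : H) * y * (s : H)⁻¹ = (φ s : H) * y * (φ s : H)⁻¹ := by
  have hex : ∀ s : (sSup Ω : Subgroup H), ∃ e : E, ∀ y ∈ E,
      (s : H) * y * (s : H)⁻¹ = (e : H) * y * (e : H)⁻¹ := by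
    intro s
    obtain ⟨e, he, h1⟩ := h.inner s.2 hE
    exact ⟨⟨e, he⟩, h1⟩
  choose φ hφ using hex
  refine ⟨MonoidHom.mk' φ ?_, fun s y hy => hφ s y hy⟩
  intro s t
  have h1 : ((φ s : H) * (φ t : H))⁻¹ * (φ (s * t) : H) = 1 := by
    apply (h.sm E hE).eq_one_of_central
    · exact E.mul_mem (E.inv_mem (E.mul_mem (φ s).2 (φ t).2)) (φ (s * t)).2
    · intro y hy
      have h2 := hφ (s * t) y hy
      have h3 := hφ t y hy
      have h4 : (t : H) * y * (t : H)⁻¹ ∈ E := by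
        rw [h3]
        exact E.mul_mem (E.mul_mem (φ t).2 hy) (E.inv_mem (φ t).2)
      have h5 := hφ s _ h4
      have h6 : (φ (s * t) : H) * y * (φ (s * t) : H)⁻¹ =
          (φ s : H) * ((φ t : H) * y * (φ t : H)⁻¹) * (φ s : H)⁻¹ := by
        rw [← h2, ← h3, ← h5, Subgroup.coe_mul]
        group
      calc ((φ s : H) * (φ t : H))⁻¹ * (φ (s * t) : H) * y
          = ((φ s : H) * (φ t : H))⁻¹ *
            ((φ (s * t) : H) * y * (φ (s * t) : H)⁻¹) * (φ (s * t) : H) := by group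
        _ = ((φ s : H) * (φ t : H))⁻¹ *
            ((φ s : H) * ((φ t : H) * y * (φ t : H)⁻¹) * (φ s : H)⁻¹) *
              (φ (s * t) : H) := by rw [h6]
        _ = y * (((φ s : H) * (φ t : H))⁻¹ * (φ (s * t) : H)) := by group
  apply Subtype.ext
  have h7 := congrArg (fun z => (φ s : H) * (φ t : H) * z) h1
  simpa [mul_assoc] using h7

theorem Red.kill (h : Red N H Ω) {P R : Subgroup H} (hP : P ≤ sSup Ω) (hPf : Pf N P)
    (hR : R ≤ P) (hn : Nz P R) (hx : XN N R) : R = ⊥ := by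
  rw [Subgroup.eq_bot_iff_forall]
  intro r hr
  apply h.faithful
  intro E hE y hy
  obtain ⟨φ, hφ⟩ := h.proj hE
  have h1 := hPf.kills hR hn hx (h.sm E hE) (φ.comp (Subgroup.inclusion hP)) hr
  have h2 := hφ ⟨r, hP (hR hr)⟩ y hy
  have h3 : φ ⟨r, hP (hR hr)⟩ = 1 := h1
  rw [h3] at h2
  have h4 : r * y * r⁻¹ = y := by simpa using h2
  calc r * y = r * y * r⁻¹ * r := by group
    _ = y * r := by rw [h4]

end Pool.Agent.NPR
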