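import Pool.Agent.NPR.Comp
import Pool.Agent.NPR.RedF

/-!
# NPR: the normal subgroup `Z`

`Z` is the set of all `z` with `z ∈ rad N (closure {z, a, b})` for all `a b : G`.

Proofs.

* `mem_rad_of`: `K` has at most `d` generators, `z ∈ K`. Take `H, π, Ω` from `exists_red`
  (`hc.fin`, `hc.top`). Suppose `z ∉ rad N K`, i.e. `h := π z ≠ 1`. By `Red.faithful` there are
  `E ∈ Ω`, `e₀ ∈ E` with `h * e₀ ≠ e₀ * h`. `E` is generated by two elements `α, β` (`hc.two` for
  the subgroup of `G` which is the image of `π ⁻¹' E` and the restriction of `π`); choose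
  `a, b ∈ K` with `π a = α`, `π b = β`. Let `K₁ = closure {z, a, b} ≤ K`, `Q = rad N K₁`; by
  hypothesis `z ∈ Q`. `Q' = im π Q` is in `XN` (`XN.of_surjective`, `rad_xn`), it is
  normalised by `im π K₁`, which contains `E` and `h`; `h ∈ Q'`. By `Sm.disj`: `Q' ⊓ E` is
  trivial. For `e ∈ E` put `u = (h e h⁻¹) e⁻¹ = h (e h⁻¹ e⁻¹) ∈ Q'`.
  If `cj h E = E` then `u ∈ E`, so `u = 1`, for all `e ∈ E`: contradiction for `e = e₀`.
  If `F := cj h E ≠ E`: for `e, e' ∈ E`: `u e' u⁻¹ e'⁻¹ ∈ Q'` and, as `h e h⁻¹ ∈ F` commutes with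
  `E`, it equals `e⁻¹ e' e e'⁻¹ ∈ E`, so it is `1`: `E` is commutative, contradiction.

* `exists_Z`. `Z` is closed under products: `z, z' ∈ Z`, `a, b ∈ G`, `K = closure {z, z', a, b}`
  has `4 ≤ d` generators; `z ∈ rad N K` and `z' ∈ rad N K` by `mem_rad_of`, so
  `z * z' ∈ rad N K ⊓ closure {z * z', a, b} ≤ rad N (closure {z * z', a, b})` (`rad_inf`).
  Inverses: `closure {z⁻¹, a, b} = closure {z, a, b}`. `1 ∈ Z`. Conjugates: conjugation by `g` maps
  `rad N (closure {z, g⁻¹ a g, g⁻¹ b g})` onto `rad N (closure {g z g⁻¹, a, b})` (show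
  `cj g (rad N K) = rad N (cj g K)`, lemma `cj_rad`).
  Last statement: `K ≤ Z` with at most `d` generators: every `z ∈ K` is in `rad N K` by
  `mem_rad_of` (`z ∈ Z`), so `K = rad N K` is in `XN` (`rad_xn`).
-/

set_option autoImplicit false

namespace Pool.Agent.NPR

open Subgroup

variable {G : Type} [Group G]

/-- the members of `Ω` are generated by two elements -/
theorem Ctx.two_red {d N : ℕ} (hc : Ctx d N G) {K : Subgroup G} {H : Type} [Group H]
    (π : K →* H) (hs : Function.Surjective π) {Ω : Set (Subgroup H)} (hR : Red N H Ω) :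
    ∀ E ∈ Ω, ∃ a b : E, Subgroup.closure {a, b} = ⊤ := by
  intro E hE
  have h1 : Sm N E := hR.sm E hE
  let e : (E.comap π) ≃* ((E.comap π).map K.subtype) :=
    (E.comap π).equivMapOfInjective K.subtype K.subtype_injective
  refine hc.two ((E.comap π).map K.subtype) E
    ((π.subgroupComap E).comp e.symm.toMonoidHom) ?_ h1
  exact (MonoidHom.subgroupComap_surjective_of_surjective π E hs).comp e.symm.surjective

private theorem Zf_rad_le {N : ℕ} (g : G) (K : Subgroup G) :
    rad N K ≤ cj g⁻¹ (rad N (cj g K)) := by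
  apply sSup_le
  rintro M ⟨h1, h2, h3⟩
  have h4 : cj g M ≤ rad N (cj g K) := by
    apply le_rad (cj_mono h1)
    · intro k hk x hx
      rw [mem_cj] at hk hx ⊢
      have := h2 _ hk _ hx
      simpa [mul_assoc] using this
    · exact XN.of_injective h3 (cjEquiv g M).symm.toMonoidHom (cjEquiv g M).symm.injective
  intro x hx
  rw [mem_cj, inv_inv]
  exact h4 (conj_mem_cj hx)

theorem cj_rad {N : ℕ} (g : G) (K : Subgroup G) : cj g (rad N K) = rad N (cj g K) := by
  apply le_antisymm
  · have h := cj_mono (k := g) (Zf_rad_le (N := N) g K)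
    rw [← cj_mul, mul_inv_cancel, cj_one] at h
    exact h
  · have h := Zf_rad_le (N := N) g⁻¹ (cj g K)
    rw [← cj_mul, inv_mul_cancel, cj_one, inv_inv] at h
    exact h

theorem mem_rad_of {d N : ℕ} (hc : Ctx d N G) {K : Subgroup G} (hK : Gn d K) {z : G}
    (hz : z ∈ K) (h : ∀ a ∈ K, ∀ b ∈ K, z ∈ rad N (Subgroup.closure {z, a, b})) :
    z ∈ rad N K := by
  have hfin : Finite K := hc.fin K hK
  obtain ⟨H, _, _, π, Ω, hs, hk, hR⟩ := exists_red K (hc.top K hK)
  by_contra hnz
  set y : H := π ⟨z, hz⟩ with hy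
  have hy1 : y ≠ 1 := fun h0 => hnz ((hk ⟨z, hz⟩).1 h0)
  have hex : ∃ E ∈ Ω, ∃ e₀ ∈ E, y * e₀ ≠ e₀ * y := by
    by_contra hcon
    push Not at hcon
    exact hy1 (hR.faithful y hcon)
  obtain ⟨E, hE, e₀, he₀, hne⟩ := hex
  obtain ⟨α, β, hαβ⟩ := hc.two_red π hs hR E hE
  obtain ⟨a, ha⟩ := hs (α : H)
  obtain ⟨b, hb⟩ := hs (β : H)
  have hK₁ : Subgroup.closure {z, (a : G), (b : G)} ≤ K := by
    rw [Subgroup.closure_le]
    rintro x (rfl | rfl | rfl)
    · exact hz
    · exact a.2
    · exact b.2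
  set K₁ : Subgroup G := Subgroup.closure {z, (a : G), (b : G)} with hK₁def
  have hfin₁ : Finite K₁ := hc.finite (Gn.triple z a b) (by norm_num)
  have hzQ : z ∈ rad N K₁ := h a a.2 b b.2
  have hQK : rad N K₁ ≤ K := rad_le.trans hK₁
  have hxQ : XN N (im π (rad N K₁)) := by
    have h1 : XN N ((rad N K₁).subgroupOf K) :=
      XN.of_injective (rad_xn (N := N) (K := K₁)) (Subgroup.subgroupOfEquivOfLe hQK).toMonoidHom
        (Subgroup.subgroupOfEquivOfLe hQK).injective
    exact XN.of_surjective h1 (π.subgroupMap ((rad N K₁).subgroupOf K))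
      (MonoidHom.subgroupMap_surjective _ _)
  have hnz' : Nz (im π K₁) (im π (rad N K₁)) := by
    intro k hk' x hx
    rw [mem_im] at hk' hx ⊢
    obtain ⟨l, hl, rfl⟩ := hk'
    obtain ⟨q, hq, rfl⟩ := hx
    refine ⟨l * q * l⁻¹, ?_, by simp⟩
    have := rad_nz (N := N) (K := K₁) _ hl _ hq
    simpa using this
  have hEle : E ≤ im π K₁ := by
    have h1 := congrArg (Subgroup.map E.subtype) hαβ
    rw [MonoidHom.map_closure, ← MonoidHom.range_eq_map, Subgroup.range_subtype] at h1
    rw [← h1, Subgroup.closure_le]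
    rintro _ ⟨x, hx, rfl⟩
    rcases hx with rfl | hx
    · exact mem_im.2 ⟨a, Subgroup.subset_closure (by simp), ha⟩
    · rw [Set.mem_singleton_iff] at hx
      subst hx
      exact mem_im.2 ⟨b, Subgroup.subset_closure (by simp), hb⟩
  have hyQ : y ∈ im π (rad N K₁) := mem_im.2 ⟨⟨z, hz⟩, hzQ, rfl⟩
  have hnzE : Nz E (im π (rad N K₁)) := fun k hk' x hx => hnz' k (hEle hk') x hx
  have hu : ∀ e ∈ E, y * e * y⁻¹ * e⁻¹ ∈ im π (rad N K₁) := by
    intro e he
    have h1 := (im π (rad N K₁)).mul_mem hyQ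
      (hnzE e he y⁻¹ ((im π (rad N K₁)).inv_mem hyQ))
    have h2 : y * e * y⁻¹ * e⁻¹ = y * (e * y⁻¹ * e⁻¹) := by simp [mul_assoc]
    rw [h2]
    exact h1
  by_cases hF : cj y E = E
  · have h1 : y * e₀ * y⁻¹ ∈ E := by
      have := conj_mem_cj (k := y) he₀
      rwa [hF] at this
    have h2 := (hR.sm E hE).disj hnzE hxQ (hu e₀ he₀) (E.mul_mem h1 (E.inv_mem he₀))
    apply hne
    have h3 : y * e₀ * y⁻¹ = e₀ := mul_inv_eq_one.1 h2
    exact mul_inv_eq_iff_eq_mul.1 h3
  · have hFΩ := hR.conj E hE y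
    obtain ⟨p, q, hpq⟩ := (hR.sm E hE).nonab
    apply hpq
    have hp := p.2
    have hq := q.2
    have hf : y * (p : H) * y⁻¹ ∈ cj y E := conj_mem_cj hp
    have hu1 := hu p hp
    have h1 := (im π (rad N K₁)).mul_mem hu1
      (hnzE q hq _ ((im π (rad N K₁)).inv_mem hu1))
    have hcm : ∀ x ∈ E, x * (y * (p : H) * y⁻¹) = (y * (p : H) * y⁻¹) * x :=
      fun x hx => hR.comm E hE _ hFΩ (fun h0 => hF h0.symm) x hx _ hf
    have h2 : y * (p : H) * y⁻¹ * (p : H)⁻¹ *
        ((q : H) * (y * (p : H) * y⁻¹ * (p : H)⁻¹)⁻¹ * (q : H)⁻¹) =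
        (p : H)⁻¹ * q * p * (q : H)⁻¹ := by
      have h3 := hcm _ (E.mul_mem (E.mul_mem (E.inv_mem hp) hq) hp)
      generalize y * (p : H) * y⁻¹ = f at h3
      calc f * (p : H)⁻¹ * ((q : H) * (f * (p : H)⁻¹)⁻¹ * (q : H)⁻¹)
          = f * ((p : H)⁻¹ * q * p) * f⁻¹ * (q : H)⁻¹ := by simp [mul_assoc]
        _ = (p : H)⁻¹ * q * p * (q : H)⁻¹ := by rw [← h3]; simp [mul_assoc]
    rw [h2] at h1
    have h4 := (hR.sm E hE).disj hnzE hxQ h1
      (E.mul_mem (E.mul_mem (E.mul_mem (E.inv_mem hp) hq) hp) (E.inv_mem hq))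
    have h5 : (p : H)⁻¹ * q * p = q := mul_inv_eq_one.1 h4
    apply Subtype.ext
    have h6 : (q : H) * p = p * q := by
      rw [mul_assoc] at h5
      exact inv_mul_eq_iff_eq_mul.1 h5
    exact h6.symm

private theorem Zf_quad (w x y z : G) : Gn 4 (Subgroup.closure {w, x, y, z}) := by
  refine ⟨[w, x, y, z], by simp, ?_⟩
  congr 1
  ext v
  simp

theorem exists_Z {d N : ℕ} (hc : Ctx d N G) :
    ∃ Z : Subgroup G, Z.Normal ∧
      (∀ z, z ∈ Z ↔ ∀ a b : G, z ∈ rad N (Subgroup.closure {z, a, b})) ∧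
      ∀ K : Subgroup G, Gn d K → K ≤ Z → XN N K := by
  let Z : Subgroup G :=
    { carrier := {z | ∀ a b : G, z ∈ rad N (Subgroup.closure {z, a, b})}
      mul_mem' := by
        intro z z' hz hz' a b
        have hK4 : Gn 4 (Subgroup.closure {z, z', a, b}) := Zf_quad z z' a b
        have hK : Gn d (Subgroup.closure {z, z', a, b}) :=
          hK4.mono ((by norm_num : 4 ≤ 6).trans hc.six)
        have hfin : Finite (Subgroup.closure {z, z', a, b}) := hc.fin _ hK
        have hsub := fun (x : G) (hx : x ∈ ({z, z', a, b} : Set G)) =>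
          Subgroup.subset_closure (k := ({z, z', a, b} : Set G)) hx
        have h1 : z ∈ rad N (Subgroup.closure {z, z', a, b}) :=
          mem_rad_of hc hK (hsub z (by simp)) (fun a _ b _ => hz a b)
        have h2 : z' ∈ rad N (Subgroup.closure {z, z', a, b}) :=
          mem_rad_of hc hK (hsub z' (by simp)) (fun a _ b _ => hz' a b)
        have h3 : Subgroup.closure {z * z', a, b} ≤ Subgroup.closure {z, z', a, b} := by
          rw [Subgroup.closure_le]
          rintro x (rfl | rfl | rfl)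
          · exact Subgroup.mul_mem _ (hsub z (by simp)) (hsub z' (by simp))
          · exact hsub _ (by simp)
          · exact hsub _ (by simp)
        exact rad_inf h3 ⟨Subgroup.mul_mem _ h1 h2, Subgroup.subset_closure (by simp)⟩
      one_mem' := by
        intro a b
        exact Subgroup.one_mem _
      inv_mem' := by
        intro z hz a b
        have h1 : Subgroup.closure {z⁻¹, a, b} = Subgroup.closure {z, a, b} := by
          apply le_antisymm
          · rw [Subgroup.closure_le]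
            rintro x (rfl | rfl | rfl)
            · exact Subgroup.inv_mem _ (Subgroup.subset_closure (by simp))
            · exact Subgroup.subset_closure (by simp)
            · exact Subgroup.subset_closure (by simp)
          · rw [Subgroup.closure_le]
            rintro x (rfl | rfl | rfl)
            · have : x⁻¹ ∈ Subgroup.closure {x⁻¹, a, b} :=
                Subgroup.subset_closure (by simp)
              simpa using Subgroup.inv_mem _ this
            · exact Subgroup.subset_closure (by simp)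
            · exact Subgroup.subset_closure (by simp)
        rw [h1]
        exact Subgroup.inv_mem _ (hz a b) }
  have hZ : ∀ z, z ∈ Z ↔ ∀ a b : G, z ∈ rad N (Subgroup.closure {z, a, b}) :=
    fun z => Iff.rfl
  refine ⟨Z, ⟨?_⟩, hZ, ?_⟩
  · intro z hz g
    rw [hZ] at hz ⊢
    intro a b
    have h1 := conj_mem_cj (k := g) (hz (g⁻¹ * a * g) (g⁻¹ * b * g))
    rw [cj_rad] at h1
    have h2 : cj g (Subgroup.closure {z, g⁻¹ * a * g, g⁻¹ * b * g}) =
        Subgroup.closure {g * z * g⁻¹, a, b} := by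
      unfold cj
      rw [MonoidHom.map_closure]
      congr 1
      simp [Set.image_insert_eq, mul_assoc]
    rwa [h2] at h1
  · intro K hK hKZ
    have hfin : Finite K := hc.fin K hK
    have h1 : K ≤ rad N K := fun z hz =>
      mem_rad_of hc hK hz (fun a _ b _ => (hZ z).1 (hKZ hz) a b)
    exact XN.of_le h1 rad_xn

end Pool.Agent.NPR
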