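import Pool.Agent.NPR.Ex1
import Pool.Agent.NPR.Zf
import Pool.Agent.NPR.DPb

/-!
# NPR: perfect subgroups below the element `z`

`Mx p e G x`: `x ^ p ^ (e + 1) = 1` and all elements of `p`-power order of `G` have order dividing
`p ^ (e + 1)`. Put `z = x ^ p ^ e`.

Proofs.

* `fixes`: `K` with at most 6 generators, `x ∈ K`; `H, π, Ω` as in `exists_red`. Every element of
  `im π (ncl K (zpowers z))` normalises every `E ∈ Ω`: by `fix_comp` (with `max_quot`) `π z`
  fixes every member of `Ω`; so do its conjugates (`Red.conj`: `cj (h z h⁻¹) E = cj h (cj z (cj h⁻¹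
  E)) = E`), their products and inverses. `im π (ncl K Z₀) ≤ closure` of the conjugates: work
  directly: the set of all `k ∈ K` (as elements of `G`) such that `π k` fixes every member of `Ω`
  is a subgroup of `G` which is normalised by `K` and contains `z`; use `ncl_le_iff`.
* `perf_soc`: `P ≤ ncl K (zpowers z)`, `Pf N P`. Then `im π P ≤ sSup Ω`: `Red.le_soc` for
  `im π P` (`Pf.of_surjective`; two generators: `Ctx.two_red`).
* `perf_rad`: in addition `R ≤ P`, `Nz P R`, `XN N R`: then `R ≤ rad N K`: `Red.kill` for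
  `im π R ≤ im π P` gives `im π R = ⊥`.
* `perf_dp`: `P = sSup 𝒮` with `Sm N D` for `D ∈ 𝒮`, `P ≤ ncl K (zpowers z)` and
  `P ⊓ rad N K = ⊥`: then `DP N P`: `im π P ≤ sSup Ω` by `perf_soc` (`Pf.sSup`), `im π P` is the
  join of the groups `im π D`, each isomorphic to `D` (as `D ⊓ rad N K = ⊥`), so `DP N (im π P)` by
  `DP.of_gen` (`Red.dpw`), so `DP N P` by `DP.of_im`.
-/

set_option autoImplicit false

namespace Pool.Agent.NPR

open Subgroup

variable {G : Type} [Group G]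

/-- `x` has `p`-power order, dividing the largest one, `p ^ (e + 1)`. -/
structure Mx (N p e : ℕ) (G : Type) [Group G] (x : G) : Prop where
  prime : p.Prime
  dvd : p ∣ N
  pow : x ^ p ^ (e + 1) = 1
  max : ∀ g : G, (∃ j : ℕ, g ^ p ^ j = 1) → g ^ p ^ (e + 1) = 1

/-- The elements of `K` whose images fix all members of `Ω`. -/
private def ex2St {K : Subgroup G} {H : Type} [Group H] (π : K →* H) (Ω : Set (Subgroup H)) :
    Subgroup K where
  carrier := {k | ∀ E ∈ Ω, cj (π k) E = E}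
  mul_mem' := by
    intro a b ha hb E hE
    rw [map_mul, cj_mul, hb E hE, ha E hE]
  one_mem' := by
    intro E _
    rw [map_one, cj_one]
  inv_mem' := by
    intro a ha E hE
    have h1 : cj (π a)⁻¹ (cj (π a) E) = E := by rw [← cj_mul, inv_mul_cancel, cj_one]
    rw [ha E hE] at h1
    rw [map_inv]
    exact h1

theorem fixes {d N p e : ℕ} (hc : Ctx d N G) {x : G} (hx : Mx N p e G x) {K : Subgroup G}
    (hK : Gn 6 K) (hxK : x ∈ K) {H : Type} [Group H] [Finite H] (π : K →* H)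
    (hs : Function.Surjective π) {Ω : Set (Subgroup H)} (hR : Red N H Ω) {k : K}
    (hk : (k : G) ∈ ncl K (Subgroup.zpowers (x ^ p ^ e))) {E : Subgroup H} (hE : E ∈ Ω) :
    cj (π k) E = E := by
  have hfin : Finite K := hc.finite hK le_rfl
  have hmax := max_quot π hs hx.prime hx.max
  have hnz : Nz K ((ex2St π Ω).map K.subtype) := by
    intro g hg y hy
    obtain ⟨s, hs', rfl⟩ := hy
    refine ⟨⟨g, hg⟩ * s * ⟨g, hg⟩⁻¹, ?_, rfl⟩
    intro F hF
    have h1 : cj (π ⟨g, hg⟩)⁻¹ F ∈ Ω := hR.conj F hF _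
    rw [map_mul, map_mul, map_inv, cj_mul, cj_mul, hs' _ h1, ← cj_mul, mul_inv_cancel, cj_one]
  have hz : Subgroup.zpowers (x ^ p ^ e) ≤ (ex2St π Ω).map K.subtype := by
    rw [Subgroup.zpowers_le]
    refine ⟨⟨x, hxK⟩ ^ p ^ e, ?_, by simp⟩
    intro F hF
    rw [map_pow]
    refine fix_comp hR hx.prime hx.dvd hmax (π ⟨x, hxK⟩) ?_ hF
    rw [← map_pow]
    have h1 : (⟨x, hxK⟩ : K) ^ p ^ (e + 1) = 1 := by
      apply Subtype.ext
      simpa using hx.pow
    rw [h1, map_one]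
  obtain ⟨s, hs', hsk⟩ := ncl_le_iff hnz hz hk
  have h2 : s = k := Subtype.ext hsk
  rw [← h2]
  exact hs' E hE

private theorem ex2_le {p e : ℕ} {x : G} {K : Subgroup G} (hxK : x ∈ K) {P : Subgroup G}
    (hP : P ≤ ncl K (Subgroup.zpowers (x ^ p ^ e))) : P ≤ K := by
  refine hP.trans (ncl_le ?_)
  rw [Subgroup.zpowers_le]
  exact K.pow_mem hxK _

/-- The restriction of `π` to `P`. -/
private noncomputable def ex2Hom {K : Subgroup G} {H : Type} [Group H] (π : K →* H)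
    {P : Subgroup G} (hPK : P ≤ K) : P →* im π P :=
  (π.subgroupMap (P.subgroupOf K)).comp (Subgroup.subgroupOfEquivOfLe hPK).symm.toMonoidHom

private theorem ex2Hom_surj {K : Subgroup G} {H : Type} [Group H] (π : K →* H)
    {P : Subgroup G} (hPK : P ≤ K) : Function.Surjective (ex2Hom π hPK) :=
  (MonoidHom.subgroupMap_surjective π (P.subgroupOf K)).comp
    (Subgroup.subgroupOfEquivOfLe hPK).symm.surjective

private theorem ex2Hom_coe {K : Subgroup G} {H : Type} [Group H] (π : K →* H)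
    {P : Subgroup G} (hPK : P ≤ K) (y : P) :
    (ex2Hom π hPK y : H) = π ⟨(y : G), hPK y.2⟩ := rfl

theorem perf_soc {d N p e : ℕ} (hc : Ctx d N G) {x : G} (hx : Mx N p e G x)
    {K : Subgroup G} (hK : Gn 6 K) (hxK : x ∈ K) {H : Type} [Group H] [Finite H] (π : K →* H)
    (hs : Function.Surjective π) {Ω : Set (Subgroup H)} (hR : Red N H Ω) {P : Subgroup G}
    (hP : P ≤ ncl K (Subgroup.zpowers (x ^ p ^ e))) (hPf : Pf N P) : im π P ≤ sSup Ω := by
  have hPK := ex2_le hxK hP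
  refine hR.le_soc (hc.two_red π hs hR)
    (hPf.of_surjective (ex2Hom π hPK) (ex2Hom_surj π hPK)) ?_
  intro E hE h hh y hy
  obtain ⟨k, hk, rfl⟩ := mem_im.1 hh
  have h1 := fixes hc hx hK hxK π hs hR (hP hk) hE
  have h2 := conj_mem_cj (k := π k) hy
  rwa [h1] at h2

theorem perf_rad {d N p e : ℕ} (hc : Ctx d N G) {x : G} (hx : Mx N p e G x)
    {K : Subgroup G} (hK : Gn 6 K) (hxK : x ∈ K) {P R : Subgroup G}
    (hP : P ≤ ncl K (Subgroup.zpowers (x ^ p ^ e))) (hPf : Pf N P) (hR : R ≤ P)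
    (hn : Nz P R) (hxn : XN N R) : R ≤ rad N K := by
  have hfin : Finite K := hc.finite hK le_rfl
  obtain ⟨H, _, _, π, Ω, hs, hk, hRd⟩ := exists_red K (hc.xn hK le_rfl)
  have hPK := ex2_le hxK hP
  have hRK := hR.trans hPK
  have h1 : im π R = ⊥ := by
    refine hRd.kill (P := im π P) (perf_soc hc hx hK hxK π hs hRd hP hPf)
      (hPf.of_surjective (ex2Hom π hPK) (ex2Hom_surj π hPK)) (im_mono hR) ?_
      (XN.of_surjective hxn (ex2Hom π hRK) (ex2Hom_surj π hRK))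
    intro g hg y hy
    obtain ⟨a, ha, rfl⟩ := mem_im.1 hg
    obtain ⟨b, hb, rfl⟩ := mem_im.1 hy
    exact mem_im.2 ⟨a * b * a⁻¹, hn _ ha _ hb, by simp⟩
  intro r hr
  have h2 : π ⟨r, hRK hr⟩ ∈ im π R := mem_im.2 ⟨_, hr, rfl⟩
  rw [h1, Subgroup.mem_bot] at h2
  exact (hk _).1 h2

theorem perf_dp {d N p e : ℕ} (hc : Ctx d N G) {x : G} (hx : Mx N p e G x)
    {K : Subgroup G} (hK : Gn 6 K) (hxK : x ∈ K) {P : Subgroup G} (𝒮 : Set (Subgroup G))
    (hPS : P = sSup 𝒮) (h𝒮 : ∀ D ∈ 𝒮, Sm N D)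
    (hP : P ≤ ncl K (Subgroup.zpowers (x ^ p ^ e))) (hd : P ⊓ rad N K = ⊥) : DP N P := by
  have hfin : Finite K := hc.finite hK le_rfl
  obtain ⟨H, _, _, π, Ω, hs, hk, hRd⟩ := exists_red K (hc.xn hK le_rfl)
  have hPK := ex2_le hxK hP
  have hPf : Pf N P := Pf.sSup 𝒮 hPS h𝒮
  have hinj : ∀ k : K, (k : G) ∈ P → π k = 1 → k = 1 := by
    intro k hkP hk1
    have h1 : (k : G) ∈ P ⊓ rad N K := ⟨hkP, (hk k).1 hk1⟩
    rw [hd, Subgroup.mem_bot] at h1
    exact Subtype.ext h1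
  have hDP : ∀ D ∈ 𝒮, D ≤ P := fun D hD => by
    rw [hPS]
    exact le_sSup hD
  have hsoc := perf_soc hc hx hK hxK π hs hRd hP hPf
  have himS : im π P = sSup {F | ∃ D ∈ 𝒮, F = im π D} := by
    apply le_antisymm
    · have h1 : P ≤ ((sSup {F | ∃ D ∈ 𝒮, F = im π D}).comap π).map K.subtype := by
        conv_lhs => rw [hPS]
        apply sSup_le
        intro D hD y hy
        have h2 : im π D ≤ sSup {F | ∃ D ∈ 𝒮, F = im π D} := le_sSup ⟨D, hD, rfl⟩
        have hyK : y ∈ K := hPK (hDP D hD hy)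
        exact ⟨⟨y, hyK⟩, h2 (mem_im.2 ⟨⟨y, hyK⟩, hy, rfl⟩), rfl⟩
      intro h hh
      obtain ⟨k, hkP, rfl⟩ := mem_im.1 hh
      obtain ⟨k', hk', hkk⟩ := h1 hkP
      have h3 : k' = k := Subtype.ext hkk
      rw [← h3]
      exact hk'
    · apply sSup_le
      rintro F ⟨D, hD, rfl⟩
      exact im_mono (hDP D hD)
  refine DP.of_im π hPK hinj ?_
  rw [himS]
  refine DP.of_gen ⟨Ω, hRd.dpw⟩ _ ?_
  rintro F ⟨D, hD, rfl⟩
  have hDK := (hDP D hD).trans hPK
  refine ⟨?_, (im_mono (hDP D hD)).trans hsoc⟩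
  refine (h𝒮 D hD).of_equiv (MulEquiv.ofBijective (ex2Hom π hDK) ⟨?_, ex2Hom_surj π hDK⟩)
  rw [injective_iff_map_eq_one]
  intro y hy
  have h1 := congrArg Subtype.val hy
  rw [ex2Hom_coe] at h1
  have h2 := hinj ⟨(y : G), hDK y.2⟩ (hDP D hD y.2) h1
  have h3 : (y : G) = 1 := congrArg (fun k : K => (k : G)) h2
  exact Subtype.ext h3

end Pool.Agent.NPR
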