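import Pool.Agent.NPR.ExM

/-!
# NPR: `𝒟` is not empty

Proofs.

* `DD_nonempty`: take `x` from `exists_mx`, `z = x ^ p ^ e ≠ 1`. By `hZ` there are `a, b` with
  `z ∉ rad N (closure {z, a, b})`. `K₀ = closure {x, a, b}` (3 generators), `X₀ = rad N K₀`;
  `z ∉ X₀` (`rad_inf`, as `closure {z, a, b} ≤ K₀`). `H, π, Ω` from `exists_red` for `K₀`.
  By `Red.faithful` some `E ∈ Ω` and `t ∈ E` with `π z * t ≠ t * π z`. `M = ncl K₀ (zpowers z)`.
  `π z` fixes `E` (`fixes`), so `u = π z t (π z)⁻¹ t⁻¹ ∈ E`, `u ≠ 1`, `u ∈ im π M` (`M` is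
  normalised by `K₀`). `im π M ⊓ E` is normalised by `E` and not `⊥`, so `E ≤ im π M`
  (`Sm.eq_bot_or_eq`).
  Let `D` be a subgroup of `G`, `D ≤ M`, `im π D = E`, with the least number of elements
  (`M ∩ π ⁻¹' E` is one such subgroup; all are finite).
  (1) `Pf N D`: `f : D →* Q` onto with `XN N Q`, `J = ker f` (as a subgroup of `G`); `im π J` is
  normalised by `im π D = E`, so `⊥` or `E`. If `E`: `J = D` by minimality, so `f` is trivial.
  If `⊥`: `π` factors through `f`, so `E` is an image of `Q`: `XN N E`, contradiction to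
  `Sm.not_xn`.
  (2) `R = D ⊓ X₀` is normalised by `D` and in `XN` (`rad_xn`, `XN.of_le`). For
  `r ∈ R` and `a', b' ∈ G`: `K' = K₀ ⊔ closure {a', b'}`-like with 5 generators (use
  `K' = (K₀ ⊔ zpowers a') ⊔ zpowers b'`); `D ≤ ncl K₀ (zpowers z) ≤ ncl K' (zpowers z)`
  (`ncl_mono`), so `R ≤ rad N K'` (`perf_rad`) and `r ∈ rad N (closure {r, a', b'})`
  (`rad_inf`). By `hZ` `r = 1`. So `D ⊓ X₀ = ⊥` and `π` maps `D` isomorphically onto `E`:
  `Sm N D`.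
  (3) `D ∈ DD N G`: let `g : G`, `P = ncl (D ⊔ zpowers g) D`, `K = K₀ ⊔ zpowers g` (4 generators).
  `P ≤ ncl K (zpowers z)` (`ncl_le_iff`: the right side is normalised by `K ≥ D ⊔ zpowers g` and
  contains `D`). `P = sSup` of the conjugates `cj k D` (`ncl_eq_sSup`), `Pf N P` (`Pf.sSup`).
  `R = P ⊓ rad N K` is normalised by `P`, in `XN`. For `r ∈ R`, `a', b'`: `K' = (K ⊔ zpowers a') ⊔
  zpowers b'` has 6 generators, `R ≤ rad N K'` by `perf_rad`, so `r ∈ rad N (closure {r, a', b'})`,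
  so `r = 1` by `hZ`. So `P ⊓ rad N K = ⊥` and `DP N P` by `perf_dp`.
-/

set_option autoImplicit false

namespace Pool.Agent.NPR

open Subgroup

variable {G : Type} [Group G]

private theorem ex3_inf {d N p e : ℕ} (hc : Ctx d N G) {x : G} (hx : Mx N p e G x)
    (hZ : ∀ z : G, (∀ a b : G, z ∈ rad N (Subgroup.closure {z, a, b})) → z = 1)
    {K : Subgroup G} (hK : Gn 4 K) (hxK : x ∈ K) {P : Subgroup G}
    (hP : P ≤ ncl K (Subgroup.zpowers (x ^ p ^ e))) (hPf : Pf N P) :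
    P ⊓ rad N K = ⊥ := by
  have hfin : Finite K := hc.finite hK (by norm_num)
  have hzK : Subgroup.zpowers (x ^ p ^ e) ≤ K := by
    rw [Subgroup.zpowers_le]
    exact K.pow_mem hxK _
  have hPK : P ≤ K := hP.trans (ncl_le hzK)
  have hn : Nz P (P ⊓ rad N K) := by
    intro k hk y hy
    exact ⟨P.mul_mem (P.mul_mem hk hy.1) (P.inv_mem hk), rad_nz k (hPK hk) y hy.2⟩
  have hxn : XN N (P ⊓ rad N K : Subgroup G) := XN.of_le inf_le_right rad_xn
  rw [eq_bot_iff]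
  intro r hr
  rw [Subgroup.mem_bot]
  apply hZ r
  intro a b
  have hKK : K ≤ (K ⊔ Subgroup.zpowers a) ⊔ Subgroup.zpowers b :=
    le_sup_left.trans le_sup_left
  have hG6 : Gn 6 ((K ⊔ Subgroup.zpowers a) ⊔ Subgroup.zpowers b) :=
    (hK.sup (Gn.zpowers a)).sup (Gn.zpowers b)
  have hfin' : Finite ((K ⊔ Subgroup.zpowers a) ⊔ Subgroup.zpowers b : Subgroup G) :=
    hc.finite hG6 le_rfl
  have h1 : P ⊓ rad N K ≤ rad N ((K ⊔ Subgroup.zpowers a) ⊔ Subgroup.zpowers b) :=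
    perf_rad hc hx hG6 (hKK hxK) (hP.trans (ncl_mono hKK le_rfl)) hPf inf_le_left hn hxn
  have h2 : Subgroup.closure {r, a, b} ≤ (K ⊔ Subgroup.zpowers a) ⊔ Subgroup.zpowers b := by
    rw [Subgroup.closure_le]
    intro y hy
    rcases hy with rfl | rfl | rfl
    · exact hKK (hPK hr.1)
    · exact (le_sup_right.trans le_sup_left :
        Subgroup.zpowers _ ≤ (K ⊔ Subgroup.zpowers _) ⊔ Subgroup.zpowers b)
        (Subgroup.mem_zpowers _)
    · exact (le_sup_right : Subgroup.zpowers _ ≤ (K ⊔ Subgroup.zpowers a) ⊔ _)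
        (Subgroup.mem_zpowers _)
  exact rad_inf h2 ⟨h1 hr, Subgroup.subset_closure (Set.mem_insert _ _)⟩

theorem DD_nonempty {d N : ℕ} (hc : Ctx d N G) (hexp : ∃ n : ℕ, 0 < n ∧ ∀ g : G, g ^ n = 1)
    (hZ : ∀ z : G, (∀ a b : G, z ∈ rad N (Subgroup.closure {z, a, b})) → z = 1)
    (hS : ∃ K : Subgroup G, Gn d K ∧ ¬ XN N K) : (DD N G).Nonempty := by
  classical
  obtain ⟨p, e, x, hx, hxe⟩ := exists_mx hc hexp hS
  have hnz : ¬ ∀ a b : G, x ^ p ^ e ∈ rad N (Subgroup.closure {x ^ p ^ e, a, b}) :=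
    fun h => hxe (hZ _ h)
  push Not at hnz
  obtain ⟨a, b, hab⟩ := hnz
  obtain ⟨K₀, hK₀⟩ : ∃ K₀ : Subgroup G, K₀ = Subgroup.closure {x, a, b} := ⟨_, rfl⟩
  have hG3 : Gn 3 K₀ := by
    rw [hK₀]
    exact Gn.triple x a b
  have hfin : Finite K₀ := hc.finite hG3 (by norm_num)
  have hxK : x ∈ K₀ := by
    rw [hK₀]
    exact Subgroup.subset_closure (by simp)
  have hzK : x ^ p ^ e ∈ K₀ := K₀.pow_mem hxK _
  have hzX : x ^ p ^ e ∉ rad N K₀ := by
    intro h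
    apply hab
    have hle : Subgroup.closure {x ^ p ^ e, a, b} ≤ K₀ := by
      rw [Subgroup.closure_le]
      intro y hy
      rcases hy with rfl | rfl | rfl
      · exact hzK
      · rw [hK₀]
        exact Subgroup.subset_closure (by simp)
      · rw [hK₀]
        exact Subgroup.subset_closure (by simp)
    exact rad_inf hle ⟨h, Subgroup.subset_closure (Set.mem_insert _ _)⟩
  obtain ⟨H, _, _, π, Ω, hs, hker, hR⟩ := exists_red (N := N) K₀ (hc.xn hG3 (by norm_num))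
  have hπz : π ⟨x ^ p ^ e, hzK⟩ ≠ 1 := fun h => hzX ((hker _).1 h)
  have hex : ∃ E ∈ Ω, ∃ t ∈ E, π ⟨x ^ p ^ e, hzK⟩ * t ≠ t * π ⟨x ^ p ^ e, hzK⟩ := by
    by_contra h
    push Not at h
    exact hπz (hR.faithful _ h)
  obtain ⟨E, hE, t, htE, ht⟩ := hex
  have hSE : Sm N E := hR.sm E hE
  obtain ⟨M, hM⟩ : ∃ M : Subgroup G, M = ncl K₀ (Subgroup.zpowers (x ^ p ^ e)) := ⟨_, rfl⟩
  have hzM : x ^ p ^ e ∈ M := by
    rw [hM]
    exact le_ncl _ _ (Subgroup.mem_zpowers _)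
  have hMK : M ≤ K₀ := by
    rw [hM]
    apply ncl_le
    rw [Subgroup.zpowers_le]
    exact hzK
  have hMn : Nz K₀ M := by
    rw [hM]
    exact ncl_nz _ _
  have hfix : cj (π ⟨x ^ p ^ e, hzK⟩) E = E :=
    fixes hc hx (hG3.mono (by norm_num)) hxK π hs hR (by rw [← hM]; exact hzM) hE
  have himn : ∀ h : H, ∀ y ∈ im π M, h * y * h⁻¹ ∈ im π M := by
    intro h y hy
    obtain ⟨h', rfl⟩ := hs h
    rw [mem_im] at hy ⊢
    obtain ⟨k, hk, rfl⟩ := hy
    refine ⟨h' * k * h'⁻¹, ?_, by simp⟩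
    exact hMn _ h'.2 _ hk
  have huE : π ⟨x ^ p ^ e, hzK⟩ * t * (π ⟨x ^ p ^ e, hzK⟩)⁻¹ * t⁻¹ ∈ E := by
    apply E.mul_mem _ (E.inv_mem htE)
    have h1 := conj_mem_cj (k := π ⟨x ^ p ^ e, hzK⟩) htE
    rw [hfix] at h1
    exact h1
  have hu1 : π ⟨x ^ p ^ e, hzK⟩ * t * (π ⟨x ^ p ^ e, hzK⟩)⁻¹ * t⁻¹ ≠ 1 := by
    intro h
    apply ht
    rw [mul_inv_eq_one, mul_inv_eq_iff_eq_mul] at h
    exact h
  have hπM : π ⟨x ^ p ^ e, hzK⟩ ∈ im π M := by
    rw [mem_im]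
    exact ⟨_, hzM, rfl⟩
  have huM : π ⟨x ^ p ^ e, hzK⟩ * t * (π ⟨x ^ p ^ e, hzK⟩)⁻¹ * t⁻¹ ∈ im π M := by
    have h1 := (im π M).mul_mem hπM (himn t _ ((im π M).inv_mem hπM))
    simpa [mul_assoc] using h1
  have hEM : E ≤ im π M := by
    have hn : Nz E (im π M ⊓ E) := by
      intro k hk y hy
      exact ⟨himn k y hy.1, E.mul_mem (E.mul_mem hk hy.2) (E.inv_mem hk)⟩
    rcases hSE.eq_bot_or_eq inf_le_right hn with h | h
    · exfalso
      have h1 : π ⟨x ^ p ^ e, hzK⟩ * t * (π ⟨x ^ p ^ e, hzK⟩)⁻¹ * t⁻¹ ∈ im π M ⊓ E :=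
        ⟨huM, huE⟩
      rw [h, Subgroup.mem_bot] at h1
      exact hu1 h1
    · exact inf_eq_right.1 h
  -- the minimal subgroup
  have hne : ({D : Subgroup G | D ≤ M ∧ im π D = E}).Nonempty := by
    refine ⟨M ⊓ (E.comap π).map K₀.subtype, inf_le_left, ?_⟩
    ext y
    rw [mem_im]
    constructor
    · rintro ⟨k, hk, rfl⟩
      obtain ⟨k', hk', hkk⟩ := hk.2
      have h1 : k' = k := Subtype.ext hkk
      rw [← h1]
      exact hk'
    · intro hy
      have h1 := hEM hy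
      rw [mem_im] at h1
      obtain ⟨k, hk, rfl⟩ := h1
      exact ⟨k, ⟨hk, k, hy, rfl⟩, rfl⟩
  obtain ⟨D, ⟨hDM, hDE⟩, hmin⟩ :=
    (measure (fun D : Subgroup G => Nat.card D)).wf.has_min _ hne
  have hDK : D ≤ K₀ := hDM.trans hMK
  have hfD : Finite D := Finite.of_injective _ (Subgroup.inclusion_injective hDK)
  have hmin' : ∀ J : Subgroup G, J ≤ D → im π J = E → J = D := by
    intro J hJ hJE
    apply Subgroup.eq_of_le_of_card_ge hJ
    have h1 := hmin J ⟨hJ.trans hDM, hJE⟩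
    exact not_lt.1 h1
  have hπD : ∀ y : D, π (Subgroup.inclusion hDK y) ∈ E := by
    intro y
    rw [← hDE, mem_im]
    exact ⟨_, y.2, rfl⟩
  obtain ⟨ψ, hψ⟩ : ∃ ψ : D →* E, ∀ y : D, (ψ y : H) = π (Subgroup.inclusion hDK y) :=
    ⟨(π.comp (Subgroup.inclusion hDK)).codRestrict E hπD, fun y => rfl⟩
  have hψs : Function.Surjective ψ := by
    rintro ⟨y, hy⟩
    rw [← hDE, mem_im] at hy
    obtain ⟨k, hk, rfl⟩ := hy
    refine ⟨⟨k, hk⟩, Subtype.ext ?_⟩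
    rw [hψ]
    rfl
  have hPf : Pf N D := by
    intro S _ f hf hX q
    have hJD : f.ker.map D.subtype ≤ D := by
      rintro _ ⟨y, _, rfl⟩
      exact y.2
    have hJE : im π (f.ker.map D.subtype) ≤ E := by
      rw [← hDE]
      exact im_mono hJD
    have hn : Nz E (im π (f.ker.map D.subtype)) := by
      intro k hk y hy
      rw [← hDE, mem_im] at hk
      rw [mem_im] at hy ⊢
      obtain ⟨k, hk, rfl⟩ := hk
      obtain ⟨y, ⟨y', hy', hyy⟩, rfl⟩ := hy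
      refine ⟨k * y * k⁻¹, ?_, by simp⟩
      refine ⟨⟨k, hk⟩ * y' * ⟨k, hk⟩⁻¹, ?_, ?_⟩
      · exact (inferInstance : f.ker.Normal).conj_mem y' hy' _
      · simp only [Subgroup.subtype_apply] at hyy
        simp [hyy]
    rcases hSE.eq_bot_or_eq hJE hn with h | h
    · exfalso
      have hle : f.ker ≤ ψ.ker := by
        intro y hy
        rw [MonoidHom.mem_ker]
        apply Subtype.ext
        rw [hψ]
        have h1 : π (Subgroup.inclusion hDK y) ∈ im π (f.ker.map D.subtype) := by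
          rw [mem_im]
          exact ⟨_, ⟨y, hy, rfl⟩, rfl⟩
        rw [h, Subgroup.mem_bot] at h1
        rw [h1]
        rfl
      have hEX : XN N E := by
        refine hX.of_surjective (f.liftOfSurjective hf ⟨ψ, hle⟩) ?_
        intro y
        obtain ⟨y', rfl⟩ := hψs y
        refine ⟨f y', ?_⟩
        exact MonoidHom.liftOfRightInverse_comp_apply _ _ _ ⟨ψ, hle⟩ y'
      exact hSE.not_xn hEX
    · have h1 := hmin' _ hJD h
      have h2 : (q : G) ∈ f.ker.map D.subtype := by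
        rw [h1]
        exact q.2
      obtain ⟨q', hq', hqq⟩ := h2
      have h3 : q' = q := Subtype.ext hqq
      rw [← h3]
      exact hq'
  have hDM' : D ≤ ncl K₀ (Subgroup.zpowers (x ^ p ^ e)) := by
    rw [← hM]
    exact hDM
  have hDX : D ⊓ rad N K₀ = ⊥ :=
    ex3_inf hc hx hZ (hG3.mono (by norm_num)) hxK hDM' hPf
  have hψi : Function.Injective ψ := by
    rw [injective_iff_map_eq_one]
    intro y hy
    have h1 : π (Subgroup.inclusion hDK y) = 1 := by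
      rw [← hψ, hy]
      rfl
    have h2 : (y : G) ∈ D ⊓ rad N K₀ := ⟨y.2, (hker _).1 h1⟩
    rw [hDX, Subgroup.mem_bot] at h2
    exact Subtype.ext h2
  have hSD : Sm N D := hSE.of_equiv (MulEquiv.ofBijective ψ ⟨hψi, hψs⟩).symm
  refine ⟨D, hSD, ?_⟩
  intro g
  have hG4 : Gn 4 (K₀ ⊔ Subgroup.zpowers g) := hG3.sup (Gn.zpowers g)
  have hKK : K₀ ≤ K₀ ⊔ Subgroup.zpowers g := le_sup_left
  have hDg : D ⊔ Subgroup.zpowers g ≤ K₀ ⊔ Subgroup.zpowers g := sup_le_sup_right hDK _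
  have hP : ncl (D ⊔ Subgroup.zpowers g) D ≤
      ncl (K₀ ⊔ Subgroup.zpowers g) (Subgroup.zpowers (x ^ p ^ e)) := by
    apply ncl_le_iff
    · intro k hk y hy
      exact ncl_nz _ _ k (hDg hk) y hy
    · exact hDM'.trans (ncl_mono hKK le_rfl)
  have hSc : ∀ F ∈ {F | ∃ k ∈ D ⊔ Subgroup.zpowers g, F = cj k D}, Sm N F := by
    rintro F ⟨k, _, rfl⟩
    exact hSD.cj k
  have hPfP : Pf N (ncl (D ⊔ Subgroup.zpowers g) D) :=
    Pf.sSup _ (ncl_eq_sSup _ _) hSc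
  exact perf_dp hc hx (hG4.mono (by norm_num)) (hKK hxK) _ (ncl_eq_sSup _ _) hSc hP
    (ex3_inf hc hx hZ hG4 (hKK hxK) hP hPfP)

end Pool.Agent.NPR
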