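import Pool.Agent.NPR.Ex2

/-!
# NPR: an element of maximal `p`-power order

Proofs.

* `exists_mx`: some subgroup `K` with at most `d` generators is not in `XN N`. So there are
  `A ≤ K`, `f : A →* S` onto, `S` simple nonabelian, not `Nat.card S < N`; by `hc.top`
  `Nat.card S < N + 1`, so `Nat.card S = N`, `Sm N S` (`S` is finite as `K` is). `N ≠ 1` (`S` is
  nontrivial), let `p` be a prime divisor of `N`. `S` has an element `s` of order `p`
  (Cauchy); a preimage `a : A` has finite order divisible by `p`, so some power of `a` has order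
  `p` (`orderOf_pow_orderOf_div`-like). So `G` has an element of order `p`. The exponent `n` of `G`
  is positive: every element of `p`-power order `p ^ j` has `p ^ j ∣ n`, so `j ≤ n`; let `m` be the
  largest `j` such that an element of order `p ^ j` exists; `m ≥ 1`, `m = e + 1`, `x` of order
  `p ^ (e + 1)`: `Mx N p e G x` and `x ^ p ^ e ≠ 1`.
-/

set_option autoImplicit false

namespace Pool.Agent.NPR

open Subgroup

variable {G : Type} [Group G]

theorem exists_mx {d N : ℕ} (hc : Ctx d N G) (hexp : ∃ n : ℕ, 0 < n ∧ ∀ g : G, g ^ n = 1)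
    (hS : ∃ K : Subgroup G, Gn d K ∧ ¬ XN N K) :
    ∃ (p e : ℕ) (x : G), Mx N p e G x ∧ x ^ p ^ e ≠ 1 := by
  classical
  obtain ⟨K, hK, hnX⟩ := hS
  have hfin : Finite K := hc.fin K hK
  unfold XN at hnX
  push Not at hnX
  obtain ⟨A, S, instS, f, hf, hsimp, hnab, hcard⟩ := hnX
  have h1 : Nat.card S < N + 1 := hc.top K hK A S f hf hsimp hnab
  have hN : Nat.card S = N := by omega
  have hfS : Finite S := Finite.of_surjective f hf
  have hnt : Nontrivial S := hsimp.toNontrivial
  have hN1 : 1 < Nat.card S := Finite.one_lt_card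
  obtain ⟨p, hp, hpN⟩ := Nat.exists_prime_and_dvd (n := N) (by omega)
  have := Fact.mk hp
  obtain ⟨s, hs⟩ := exists_prime_orderOf_dvd_card' (G := S) p (by rw [hN]; exact hpN)
  obtain ⟨a, ha⟩ := hf s
  have hpa : p ∣ orderOf a := by
    rw [← hs, ← ha]
    exact orderOf_map_dvd f a
  have ha0 : 0 < orderOf a := orderOf_pos a
  obtain ⟨c, hc'⟩ := hpa
  have hc0 : 0 < c := by
    rcases Nat.eq_zero_or_pos c with h | h
    · rw [h, Nat.mul_zero] at hc'
      omega
    · exact h
  have hac : a ^ c ≠ 1 := by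
    intro h
    have h2 := Nat.le_of_dvd hc0 (orderOf_dvd_of_pow_eq_one h)
    have h3 := hp.two_le
    rw [hc'] at h2
    nlinarith
  have hacp : (a ^ c) ^ p = 1 := by
    rw [← pow_mul, Nat.mul_comm, ← hc', pow_orderOf_eq_one]
  have hg0 : (((a ^ c : A) : K) : G) ≠ 1 := by
    intro h
    exact hac (Subtype.ext (Subtype.ext h))
  have hg0p : (((a ^ c : A) : K) : G) ^ p = 1 := by
    have h2 : (((((a ^ c) ^ p : A)) : K) : G) = 1 := by
      rw [hacp]
      rfl
    simpa using h2
  obtain ⟨n, hn, hexp⟩ := hexp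
  have hQ : ∃ j : ℕ, ∀ g : G, (∃ i : ℕ, g ^ p ^ i = 1) → g ^ p ^ j = 1 := by
    refine ⟨n, ?_⟩
    rintro g ⟨i, hi⟩
    obtain ⟨b, _, hb⟩ := (Nat.dvd_prime_pow hp).1 (orderOf_dvd_of_pow_eq_one hi)
    have h2 : p ^ b ∣ n := by
      rw [← hb]
      exact orderOf_dvd_of_pow_eq_one (hexp g)
    have h3 : b < p ^ b := Nat.lt_pow_self hp.one_lt
    have h4 := Nat.le_of_dvd hn h2
    apply orderOf_dvd_iff_pow_eq_one.1
    rw [hb]
    exact Nat.pow_dvd_pow p (by omega)
  have hm := Nat.find_spec hQ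
  have hmin := fun j hj => Nat.find_min hQ (m := j) hj
  obtain ⟨m, hmm⟩ : ∃ m, m = Nat.find hQ := ⟨_, rfl⟩
  rw [← hmm] at hm hmin
  cases m with
  | zero =>
    exfalso
    have h2 := hm _ ⟨1, by rw [pow_one]; exact hg0p⟩
    rw [pow_zero, pow_one] at h2
    exact hg0 h2
  | succ e =>
    have h2 := hmin e (by omega)
    push Not at h2
    obtain ⟨x, hx, hxe⟩ := h2
    exact ⟨p, e, x, ⟨hp, hpN, hm x hx, hm⟩, hxe⟩

end Pool.Agent.NPR
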