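import Pool.Agent.NPR.DPa

/-!
# NPR: images of joins and normal closures

Proofs.

* `im_sup`: `im π P` is the image of `P.subgroupOf K`; for `A, B ≤ K`:
  `(A ⊔ B).subgroupOf K = A.subgroupOf K ⊔ B.subgroupOf K` (`Subgroup.subgroupOf_sup`) and
  `Subgroup.map_sup`.
* `im_ncl`: both sides are closures; an element `k d k⁻¹` (`k ∈ L`, `d ∈ D`) is mapped to
  `π k * π d * (π k)⁻¹`. For `≤` use closure induction (or: the set of all `x ∈ K` with
  `π x ∈ ncl (im π L) (im π D)` is a subgroup of `G` containing `D` and normalised by `L`,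
  `ncl_le_iff`).
* `cj_ncl`: `cj k (ncl L D) = ncl (cj k L) (cj k D)` (`≤` with `ncl_le_iff`, the other inclusion by
  applying it to `k⁻¹`).
* `dp_ncl_cj`: for `g ∈ K` put `g' = k⁻¹ g k ∈ K`;
  `ncl (cj k D ⊔ zpowers g) (cj k D) = cj k (ncl (D ⊔ zpowers g') D)` (`cj_ncl`,
  `Subgroup.map_sup`, `MonoidHom.map_zpowers`), which is `DP` by `DP.map` (`cj k` is
  `Subgroup.map`).
-/

set_option autoImplicit false

namespace Pool.Agent.NPR

open Subgroup

variable {G : Type} [Group G]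

theorem im_sup {K A B : Subgroup G} {H : Type} [Group H] (π : K →* H) (hA : A ≤ K)
    (hB : B ≤ K) : im π (A ⊔ B) = im π A ⊔ im π B := by
  unfold im
  rw [Subgroup.subgroupOf_sup hA hB, Subgroup.map_sup]

theorem im_ncl {K L D : Subgroup G} {H : Type} [Group H] (π : K →* H) (hL : L ≤ K)
    (hD : D ≤ L) : im π (ncl L D) = ncl (im π L) (im π D) := by
  apply le_antisymm
  · -- the preimage subgroup
    have key : ncl L D ≤ ((ncl (im π L) (im π D)).comap π).map K.subtype := by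
      apply ncl_le_iff
      · intro k hk x hx
        rw [Subgroup.mem_map] at hx ⊢
        obtain ⟨y, hy, rfl⟩ := hx
        rw [Subgroup.mem_comap] at hy
        refine ⟨⟨k, hL hk⟩ * y * ⟨k, hL hk⟩⁻¹, ?_, by simp⟩
        rw [Subgroup.mem_comap, map_mul, map_mul, map_inv]
        exact ncl_nz _ _ _ (mem_im.2 ⟨⟨k, hL hk⟩, hk, rfl⟩) _ hy
      · intro d hd
        rw [Subgroup.mem_map]
        refine ⟨⟨d, hL (hD hd)⟩, ?_, rfl⟩
        rw [Subgroup.mem_comap]
        exact le_ncl _ _ (mem_im.2 ⟨⟨d, hL (hD hd)⟩, hd, rfl⟩)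
    intro x hx
    rw [mem_im] at hx
    obtain ⟨k, hk, rfl⟩ := hx
    have h1 := key hk
    rw [Subgroup.mem_map] at h1
    obtain ⟨y, hy, hyk⟩ := h1
    have h2 : y = k := Subtype.ext hyk
    rw [← h2]
    exact hy
  · apply ncl_le_iff
    · intro h hh x hx
      rw [mem_im] at hh hx ⊢
      obtain ⟨k, hk, rfl⟩ := hh
      obtain ⟨y, hy, rfl⟩ := hx
      refine ⟨k * y * k⁻¹, ?_, by simp⟩
      exact ncl_nz L D _ hk _ hy
    · exact im_mono (le_ncl L D)

private theorem cj_ncl_le_imF (k : G) (L D : Subgroup G) :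
    cj k (ncl L D) ≤ ncl (cj k L) (cj k D) := by
  have key : ncl L D ≤ cj k⁻¹ (ncl (cj k L) (cj k D)) := by
    apply ncl_le_iff
    · intro l hl x hx
      rw [mem_cj, inv_inv] at hx ⊢
      have h1 := ncl_nz (cj k L) (cj k D) _ (conj_mem_cj (k := k) hl) _ hx
      have h2 : k * l * k⁻¹ * (k * x * k⁻¹) * (k * l * k⁻¹)⁻¹ = k * (l * x * l⁻¹) * k⁻¹ := by
        group
      rwa [h2] at h1
    · intro d hd
      rw [mem_cj, inv_inv]
      exact le_ncl _ _ (conj_mem_cj hd)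
  intro x hx
  rw [mem_cj] at hx
  have h1 := key hx
  rw [mem_cj, inv_inv] at h1
  have h2 : k * (k⁻¹ * x * k) * k⁻¹ = x := by group
  rwa [h2] at h1

theorem cj_ncl (k : G) (L D : Subgroup G) : cj k (ncl L D) = ncl (cj k L) (cj k D) := by
  apply le_antisymm (cj_ncl_le_imF k L D)
  have h1 := cj_ncl_le_imF k⁻¹ (cj k L) (cj k D)
  rw [← cj_mul, ← cj_mul, inv_mul_cancel, cj_one, cj_one] at h1
  have h2 := cj_mono (k := k) h1
  rwa [← cj_mul, mul_inv_cancel, cj_one] at h2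

/-- conjugates satisfy the hypothesis of Lemma L -/
theorem dp_ncl_cj {N : ℕ} {K D : Subgroup G}
    (h : ∀ g ∈ K, DP N (ncl (D ⊔ Subgroup.zpowers g) D)) {k : G} (hk : k ∈ K) :
    ∀ g ∈ K, DP N (ncl (cj k D ⊔ Subgroup.zpowers g) (cj k D)) := by
  intro g hg
  have h1 := h (k⁻¹ * g * k) (K.mul_mem (K.mul_mem (K.inv_mem hk) hg) hk)
  have h2 : cj k (Subgroup.zpowers (k⁻¹ * g * k)) = Subgroup.zpowers g := by
    unfold cj
    rw [MonoidHom.map_zpowers]
    congr 1
    simp [mul_assoc]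
  have h3 : cj k D ⊔ Subgroup.zpowers g = cj k (D ⊔ Subgroup.zpowers (k⁻¹ * g * k)) := by
    rw [← h2]
    unfold cj
    rw [Subgroup.map_sup]
  rw [h3, ← cj_ncl]
  exact DP.map (MulAut.conj k).toMonoidHom h1

end Pool.Agent.NPR
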