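import Pool.Agent.NPR.Defs

/-!
# NPR: the locally finite radical

`LFs R`: every finitely generated subgroup of `R` is finite.

Proofs.

* `LFs.ext`: `R` normal in `G`, `LFs R`, `M` a subgroup of `G` such that the image of `M` in
  `G ⧸ R` satisfies `LFs`. Then `LFs M`: `K ≤ M` finitely generated; its image in `G ⧸ R` is
  finitely generated, so finite; so `K ⊓ R` (`R.subgroupOf K`) has finite index in `K`, so it is
  finitely generated (Schreier, `Subgroup.fg_of_index_ne_zero`), so finite; so `K` is finite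
  (`Finite` of kernel and image, e.g. `Subgroup.finite_of_...`, `Nat.card` of `K` is the product,
  `Subgroup.card_mul_index`).
* `LFs.sup`: `M₁`, `M₂` normal and `LFs`: the image of `M₁ ⊔ M₂` in `G ⧸ M₁` is the image of `M₂`;
  it is `LFs` (lift generators of a finitely generated subgroup of the image to `M₂`); use
  `LFs.ext`.
* `exists_lf`: `R = sSup` of all normal `LFs` subgroups. The family is directed (`LFs.sup`) and
  nonempty (`⊥`), so a finitely generated subgroup of `R` lies in one member
  (`Subgroup.mem_sSup_of_directedOn`). Normal: conjugation permutes the normal subgroups of the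
  family (each is normal): `Subgroup.sSup_normal`-like or closure induction.
* `lf_quot`: `M ≤ G ⧸ R` normal with `LFs M`: the preimage `M.comap (mk' R)` is normal and `LFs`
  (`LFs.ext`), so it is contained in `R`, so `M = ⊥`.
-/

set_option autoImplicit false

namespace Pool.Agent.NPR

open Subgroup

variable {G : Type} [Group G]

/-- Every finitely generated subgroup of `R` is finite. -/
def LFs (R : Subgroup G) : Prop := ∀ K : Subgroup G, K ≤ R → K.FG → Finite K

private theorem fg_map_aux {G H : Type} [Group G] [Group H] {K : Subgroup G} (f : G →* H)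
    (h : K.FG) : (K.map f).FG := by
  obtain ⟨S, hS, hfin⟩ := (Subgroup.fg_iff K).1 h
  refine (Subgroup.fg_iff _).2 ⟨f '' S, ?_, hfin.image f⟩
  rw [← MonoidHom.map_closure, hS]

theorem LFs.ext {R M : Subgroup G} [R.Normal] (hR : LFs R)
    (hM : LFs (M.map (QuotientGroup.mk' R))) : LFs M := by
  intro K hK hfg
  have : Group.FG K := (Group.fg_iff_subgroup_fg K).2 hfg
  let f : K →* G ⧸ R := (QuotientGroup.mk' R).comp K.subtype
  have hr : f.range = K.map (QuotientGroup.mk' R) := by
    rw [MonoidHom.range_eq_map, ← Subgroup.map_map, ← MonoidHom.range_eq_map,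
      Subgroup.range_subtype]
  have hfr : Finite f.range := by
    rw [hr]
    exact hM _ (Subgroup.map_mono hK) (fg_map_aux _ hfg)
  have : f.ker.FiniteIndex := by
    refine ⟨?_⟩
    rw [Subgroup.index_ker]
    exact Nat.card_pos.ne'
  have : Group.FG f.ker := inferInstance
  have hk1 : (f.ker.map K.subtype).FG :=
    fg_map_aux _ ((Group.fg_iff_subgroup_fg f.ker).1 inferInstance)
  have hk2 : f.ker.map K.subtype ≤ R := by
    rintro x ⟨k, hk, rfl⟩
    have h1 : (QuotientGroup.mk' R) (k : G) = 1 := hk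
    rw [QuotientGroup.mk'_apply, QuotientGroup.eq_one_iff] at h1
    exact h1
  have : Finite (f.ker.map K.subtype) := hR _ hk2 hk1
  have : Finite f.ker :=
    Finite.of_equiv _ (f.ker.equivMapOfInjective K.subtype K.subtype_injective).toEquiv.symm
  have hc := f.ker.card_mul_index
  apply Nat.finite_of_card_ne_zero
  rw [← hc, Subgroup.index_ker]
  exact Nat.mul_ne_zero Nat.card_pos.ne' Nat.card_pos.ne'

/-- The image of a locally finite subgroup is locally finite. -/
theorem LFs.map {H : Type} [Group H] {M : Subgroup G} (l : LFs M) (f : G →* H) :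
    LFs (M.map f) := by
  intro K hK hfg
  obtain ⟨S, hS⟩ := hfg
  have h1 : ∀ s : S, ∃ x : G, x ∈ M ∧ f x = (s : H) := by
    intro s
    have h2 : (s : H) ∈ K := by
      rw [← hS]
      exact Subgroup.subset_closure s.2
    obtain ⟨x, hx, hxs⟩ := hK h2
    exact ⟨x, hx, hxs⟩
  choose g hg hgs using h1
  have h3 : (Subgroup.closure (Set.range g)).FG :=
    (Subgroup.fg_iff _).2 ⟨Set.range g, rfl, Set.finite_range g⟩
  have h4 : Subgroup.closure (Set.range g) ≤ M := by
    rw [Subgroup.closure_le]
    rintro x ⟨s, rfl⟩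
    exact hg s
  have : Finite (Subgroup.closure (Set.range g)) := l _ h4 h3
  have h5 : K = (Subgroup.closure (Set.range g)).map f := by
    rw [MonoidHom.map_closure, ← hS]
    congr 1
    ext y
    constructor
    · intro hy
      exact ⟨g ⟨y, hy⟩, ⟨⟨y, hy⟩, rfl⟩, hgs ⟨y, hy⟩⟩
    · rintro ⟨x, ⟨s, rfl⟩, rfl⟩
      rw [hgs s]
      exact s.2
  rw [h5]
  exact Set.Finite.image f (Set.toFinite (Subgroup.closure (Set.range g) : Set G))

theorem LFs.sup {M₁ M₂ : Subgroup G} (h1 : M₁.Normal) (h2 : M₂.Normal) (l1 : LFs M₁)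
    (l2 : LFs M₂) : LFs (M₁ ⊔ M₂) := by
  apply l1.ext
  have h3 : (M₁ ⊔ M₂).map (QuotientGroup.mk' M₁) = M₂.map (QuotientGroup.mk' M₁) := by
    rw [Subgroup.map_sup]
    have h4 : M₁.map (QuotientGroup.mk' M₁) = ⊥ := by
      rw [Subgroup.map_eq_bot_iff, QuotientGroup.ker_mk']
    rw [h4, bot_sup_eq]
  rw [h3]
  exact l2.map _

theorem exists_lf (G : Type) [Group G] : ∃ R : Subgroup G, R.Normal ∧ LFs R ∧
    ∀ M : Subgroup G, M.Normal → LFs M → M ≤ R := by
  let S : Set (Subgroup G) := {M | M.Normal ∧ LFs M}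
  have hbot : (⊥ : Subgroup G) ∈ S := by
    refine ⟨inferInstance, ?_⟩
    intro K hK _
    rw [le_bot_iff] at hK
    subst hK
    infer_instance
  have hdir : DirectedOn (· ≤ ·) S := by
    intro A hA B hB
    have := hA.1
    have := hB.1
    exact ⟨A ⊔ B, ⟨inferInstance, hA.2.sup hA.1 hB.1 hB.2⟩, le_sup_left, le_sup_right⟩
  refine ⟨sSup S, Subgroup.sSup_normal S (fun H hH => hH.1), ?_, fun M h1 h2 => le_sSup ⟨h1, h2⟩⟩
  intro K hK hfg
  obtain ⟨T, hT⟩ := hfg
  have key : ∀ T : Finset G, (∀ x ∈ T, x ∈ sSup S) → ∃ M ∈ S, ∀ x ∈ T, x ∈ M := by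
    intro T
    classical
    induction T using Finset.induction_on with
    | empty =>
      intro _
      exact ⟨⊥, hbot, fun x hx => absurd hx (Finset.notMem_empty x)⟩
    | insert a T' _ ih =>
      intro h
      obtain ⟨M, hM, hMT⟩ := ih (fun x hx => h x (Finset.mem_insert_of_mem hx))
      obtain ⟨A, hA, haA⟩ :=
        (Subgroup.mem_sSup_of_directedOn ⟨⊥, hbot⟩ hdir).1 (h a (Finset.mem_insert_self a T'))
      obtain ⟨B, hB, hMB, hAB⟩ := hdir M hM A hA
      refine ⟨B, hB, ?_⟩
      intro x hx
      rcases Finset.mem_insert.1 hx with rfl | hx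
      · exact hAB haA
      · exact hMB (hMT x hx)
  obtain ⟨M, hM, hTM⟩ := key T (fun x hx => hK (by
    rw [← hT]
    exact Subgroup.subset_closure hx))
  have hKM : K ≤ M := by
    rw [← hT, Subgroup.closure_le]
    exact fun x hx => hTM x hx
  exact hM.2 K hKM ⟨T, hT⟩

theorem lf_quot {R : Subgroup G} [R.Normal] (hR : LFs R)
    (hmax : ∀ M : Subgroup G, M.Normal → LFs M → M ≤ R) (M : Subgroup (G ⧸ R))
    (hn : M.Normal) (hM : LFs M) : M = ⊥ := by
  have hs : Function.Surjective (QuotientGroup.mk' R) := QuotientGroup.mk'_surjective R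
  have h1 : (M.comap (QuotientGroup.mk' R)).map (QuotientGroup.mk' R) = M :=
    Subgroup.map_comap_eq_self_of_surjective hs M
  have h2 : LFs (M.comap (QuotientGroup.mk' R)) := by
    apply hR.ext
    rw [h1]
    exact hM
  have h3 : M.comap (QuotientGroup.mk' R) ≤ R := hmax _ inferInstance h2
  rw [← h1, Subgroup.map_eq_bot_iff, QuotientGroup.ker_mk']
  exact h3

end Pool.Agent.NPR
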