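import Pool.Agent.NPR.RedF

/-!
# NPR: Lemma L, the socle

Conjugation convention of Lean: `k * d * k⁻¹`.

Proofs.

* `soc_fix` (`H` finite, `Red N H Ω`, `Sm N D`, all `ncl (D ⊔ zpowers g) D` are `DP`): `D`
  normalises every `E ∈ Ω`. Let `S = sSup Ω` (normal in `H` by `Red.conj`). If `D ⊓ S ≠ ⊥` then
  `D ≤ S` (`Sm.eq_bot_or_eq`), and elements of `S` normalise every `E` (`Red.inner`). So let
  `D ⊓ S = ⊥`. CLAIM: for `d ∈ D`, `E ∈ Ω`: `cj d (cj d E) = E`. Suppose `F := cj d E ≠ E`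
  (otherwise clear). Take `1 ≠ s ∈ E`, `P = ncl (D ⊔ zpowers s) D`, `DP N P`, `M = P ⊓ S`,
  normalised by `P`. By `DP.split` each `p ∈ P` is `m * c`, `m ∈ M`, `c ∈ P` commuting with
  `M`. Put `u = d * (s * d⁻¹ * s⁻¹)`; it is in `P` (product of `d` and a conjugate of
  `d⁻¹`), and `u = (d s d⁻¹) * s⁻¹ ∈ S` with `d s d⁻¹ ∈ F`, `s⁻¹ ∈ E`. So `u ∈ M`. Write
  `d = m * c`; `c` commutes with `u`: `c u c⁻¹ = u`. As `m ∈ S` normalises every member of `Ω`: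
  `cj c E = cj c (..)`: from `d = m * c`, `c = m⁻¹ d`, so `cj c E' = cj m⁻¹ (cj d E') = cj d E'`
  for all `E' ∈ Ω`. So `u = c u c⁻¹ ∈ (cj d F) * (cj d E) = (cj d F) * F`. Also
  `u ∈ F * E` with `E`-part `s⁻¹ ≠ 1`. If `cj d F ≠ E`: then `E` commutes with `cj d F` and with
  `F` (distinct members), so `u` (an element of `(cj d F) * F`) commutes with `E`, but
  `u = f * s⁻¹` with `f ∈ F` commuting with `E`, so `s⁻¹` commutes with `E`, so `s = 1`
  (`Sm.eq_one_of_central`), contradiction. So `cj d (cj d E) = E`.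
  Now `D₀ = {d ∈ D | cj d E = E for all E ∈ Ω}` is a subgroup of `D` normalised by `D` and
  contains all squares; if `D₀ = ⊥` then `d * d = 1` for all `d ∈ D` and `D` is commutative,
  contradiction to `Sm.nonab`; so `D₀ = D` (`Sm.eq_bot_or_eq`).
  For `Nz D E` use `cj d E = E`.

* `lemL_soc`: `D ≤ S := sSup Ω`. Suppose not; `D ⊓ S = ⊥` (`Sm.eq_bot_or_eq`; `S` is normal).
  By `Red.mem_soc` it is enough to show for `d ∈ D`, `E ∈ Ω` that `d` acts on `E` as an element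
  of `E`. If `D` commutes with `E` take `e = 1`. Otherwise there are `d₀ ∈ D`, `s ∈ E` with
  `u = d₀ s d₀⁻¹ s⁻¹ ≠ 1`; `u ∈ E` (`soc_fix`). `P = ncl (D ⊔ zpowers s) D`, `DP N P`,
  `u ∈ P` as before. `P` normalises `E` (`P ≤ D ⊔ zpowers s`, `ncl_le`, and `D`, `s` normalise
  `E`). `P ⊓ E` is normalised by `P`, so `DP` (`DP.split`), not `⊥`, so it has at least `N`
  elements (`DP.card`), so `P ⊓ E = E`, `E ≤ P`. `M = P ⊓ S` contains `E`; `d = m * c` with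
  `m ∈ M ≤ S`, `c` commuting with `M`, so with `E`: `d` acts on `E` as `m`, and `m` acts on `E`
  as an element of `E` (`Red.inner`).
-/

set_option autoImplicit false

namespace Pool.Agent.NPR

open Subgroup

variable {G : Type} [Group G]

private theorem lemS_sup_nz {N : ℕ} {H : Type} [Group H] {Ω : Set (Subgroup H)}
    (hR : Red N H Ω) (h : H) {x : H} (hx : x ∈ sSup Ω) : h * x * h⁻¹ ∈ sSup Ω := by
  have h1 : sSup Ω ≤ (sSup Ω).comap (MulAut.conj h).toMonoidHom := by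
    apply sSup_le
    intro E hE y hy
    have h2 : h * y * h⁻¹ ∈ cj h E := conj_mem_cj hy
    have h3 : cj h E ≤ sSup Ω := le_sSup (hR.conj E hE h)
    exact h3 h2
  exact h1 hx

private theorem lemS_inner_nz {N : ℕ} {H : Type} [Group H] [Finite H] {Ω : Set (Subgroup H)}
    (hR : Red N H Ω) {E : Subgroup H} (hE : E ∈ Ω) : Nz (sSup Ω) E := by
  intro s hs x hx
  obtain ⟨e, he, h⟩ := hR.inner hs hE
  rw [h x hx]
  exact E.mul_mem (E.mul_mem he hx) (E.inv_mem he)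

private theorem lemS_comm_mem {H : Type} [Group H] {D : Subgroup H} {d s : H} (hd : d ∈ D) :
    d * s * d⁻¹ * s⁻¹ ∈ ncl (D ⊔ Subgroup.zpowers s) D := by
  have hs : s ∈ D ⊔ Subgroup.zpowers s :=
    (le_sup_right : Subgroup.zpowers s ≤ D ⊔ Subgroup.zpowers s) (Subgroup.mem_zpowers s)
  have h1 : s * d⁻¹ * s⁻¹ ∈ ncl (D ⊔ Subgroup.zpowers s) D :=
    conj_mem_ncl hs (D.inv_mem hd)
  have h2 := (ncl (D ⊔ Subgroup.zpowers s) D).mul_mem (le_ncl _ D hd) h1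
  simpa [mul_assoc] using h2

private theorem lemS_square {N : ℕ} {H : Type} [Group H] [Finite H] {Ω : Set (Subgroup H)}
    (hR : Red N H Ω) {D : Subgroup H}
    (h : ∀ g : H, DP N (ncl (D ⊔ Subgroup.zpowers g) D)) {E : Subgroup H} (hE : E ∈ Ω)
    {d : H} (hd : d ∈ D) : cj d (cj d E) = E := by
  by_cases hF : cj d E = E
  · rw [hF, hF]
  by_contra hne
  have hEs : Sm N E := hR.sm E hE
  obtain ⟨s, hs, hs1⟩ : ∃ s ∈ E, s ≠ 1 := by
    obtain ⟨a, b, hab⟩ := hEs.nonab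
    refine ⟨a, a.2, fun h1 => hab ?_⟩
    have h2 : a = 1 := Subtype.ext h1
    rw [h2, one_mul, mul_one]
  obtain ⟨P, hP⟩ : ∃ P : Subgroup H, P = ncl (D ⊔ Subgroup.zpowers s) D := ⟨_, rfl⟩
  have hDP : DP N P := by
    rw [hP]
    exact h s
  obtain ⟨M, hM⟩ : ∃ M : Subgroup H, M = P ⊓ sSup Ω := ⟨_, rfl⟩
  have hMP : M ≤ P := hM.le.trans inf_le_left
  have hMS : M ≤ sSup Ω := hM.le.trans inf_le_right
  have hnz : Nz P M := by
    intro k hk x hx
    rw [hM] at hx ⊢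
    exact ⟨P.mul_mem (P.mul_mem hk hx.1) (P.inv_mem hk), lemS_sup_nz hR k hx.2⟩
  have hsp := (hDP.split hMP hnz).2
  have hdP : d ∈ P := by
    rw [hP]
    exact le_ncl _ D hd
  obtain ⟨m, hm, c, hc, hcM, hdmc⟩ := hsp d hdP
  have hfF : d * s * d⁻¹ ∈ cj d E := conj_mem_cj hs
  have hFΩ : cj d E ∈ Ω := hR.conj E hE d
  have huM : d * s * d⁻¹ * s⁻¹ ∈ M := by
    rw [hM]
    refine ⟨?_, (sSup Ω).mul_mem ?_ ?_⟩
    · rw [hP]
      exact lemS_comm_mem hd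
    · exact (le_sSup hFΩ : cj d E ≤ sSup Ω) hfF
    · exact (sSup Ω).inv_mem ((le_sSup hE : E ≤ sSup Ω) hs)
  have hcj : ∀ E' ∈ Ω, cj c E' = cj d E' := by
    intro E' hE'
    have hc' : c = m⁻¹ * d := by
      rw [hdmc]
      group
    rw [hc', cj_mul]
    exact cj_eq_of_nz (lemS_inner_nz hR (hR.conj E' hE' d)) ((sSup Ω).inv_mem (hMS hm))
  have hu2 : d * s * d⁻¹ * s⁻¹ = (c * (d * s * d⁻¹) * c⁻¹) * (c * s⁻¹ * c⁻¹) := by
    have h1 := hcM _ huM
    have h2 : (c * (d * s * d⁻¹) * c⁻¹) * (c * s⁻¹ * c⁻¹) =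
        c * (d * s * d⁻¹ * s⁻¹) * c⁻¹ := by group
    rw [h2, h1]
    group
  have hx1 : c * (d * s * d⁻¹) * c⁻¹ ∈ cj d (cj d E) := by
    rw [← hcj _ hFΩ]
    exact conj_mem_cj hfF
  have hx2 : c * s⁻¹ * c⁻¹ ∈ cj d E := by
    rw [← hcj _ hE]
    exact conj_mem_cj (E.inv_mem hs)
  have hF2Ω : cj d (cj d E) ∈ Ω := hR.conj _ hFΩ d
  have hcent : s⁻¹ = 1 := by
    refine hEs.eq_one_of_central (E.inv_mem hs) fun x hx => ?_
    have e1 := hR.comm _ hF2Ω _ hE hne _ hx1 x hx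
    have e2 := hR.comm _ hFΩ _ hE hF _ hx2 x hx
    have e3 := hR.comm _ hFΩ _ hE hF _ hfF x hx
    have e4 : (d * s * d⁻¹ * s⁻¹) * x = x * (d * s * d⁻¹ * s⁻¹) := by
      rw [hu2, mul_assoc, e2, ← mul_assoc, e1, mul_assoc]
    have e5 : (d * s * d⁻¹) * (s⁻¹ * x) = (d * s * d⁻¹) * (x * s⁻¹) := by
      calc (d * s * d⁻¹) * (s⁻¹ * x) = (d * s * d⁻¹ * s⁻¹) * x := by group
        _ = x * (d * s * d⁻¹ * s⁻¹) := e4
        _ = (x * (d * s * d⁻¹)) * s⁻¹ := by group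
        _ = ((d * s * d⁻¹) * x) * s⁻¹ := by rw [e3]
        _ = (d * s * d⁻¹) * (x * s⁻¹) := by group
    exact mul_left_cancel e5
  exact hs1 (inv_eq_one.1 hcent)

theorem soc_fix {N : ℕ} {H : Type} [Group H] [Finite H] {Ω : Set (Subgroup H)}
    (hR : Red N H Ω) {D : Subgroup H} (hD : Sm N D)
    (h : ∀ g : H, DP N (ncl (D ⊔ Subgroup.zpowers g) D)) {E : Subgroup H} (hE : E ∈ Ω) :
    Nz D E := by
  obtain ⟨D₀, hD₀⟩ : ∃ D₀ : Subgroup H, ∀ d, d ∈ D₀ ↔ d ∈ D ∧ ∀ E ∈ Ω, cj d E = E := by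
    refine ⟨{ carrier := {d | d ∈ D ∧ ∀ E ∈ Ω, cj d E = E}
              mul_mem' := ?_
              one_mem' := ?_
              inv_mem' := ?_ }, fun d => Iff.rfl⟩
    · rintro a b ⟨ha, ha'⟩ ⟨hb, hb'⟩
      refine ⟨D.mul_mem ha hb, fun E hE => ?_⟩
      rw [cj_mul, hb' E hE, ha' E hE]
    · exact ⟨D.one_mem, fun E _ => cj_one E⟩
    · rintro a ⟨ha, ha'⟩
      refine ⟨D.inv_mem ha, fun E hE => ?_⟩
      conv_lhs => rw [← ha' E hE]
      rw [← cj_mul, inv_mul_cancel, cj_one]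
  have hle : D₀ ≤ D := fun d hd => ((hD₀ d).1 hd).1
  have hnz : Nz D D₀ := by
    intro k hk d hd
    rw [hD₀] at hd ⊢
    refine ⟨D.mul_mem (D.mul_mem hk hd.1) (D.inv_mem hk), fun E hE => ?_⟩
    rw [cj_mul, cj_mul, hd.2 _ (hR.conj E hE k⁻¹), ← cj_mul, mul_inv_cancel, cj_one]
  have hsq : ∀ d ∈ D, d * d ∈ D₀ := by
    intro d hd
    rw [hD₀]
    refine ⟨D.mul_mem hd hd, fun E hE => ?_⟩
    rw [cj_mul]
    exact lemS_square hR h hE hd
  have htop : D₀ = D := by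
    rcases hD.eq_bot_or_eq hle hnz with h0 | h0
    · exfalso
      obtain ⟨a, b, hab⟩ := hD.nonab
      apply hab
      have hone : ∀ d ∈ D, d * d = 1 := by
        intro d hd
        have := hsq d hd
        rw [h0, Subgroup.mem_bot] at this
        exact this
      have hinv : ∀ d ∈ D, d⁻¹ = d := fun d hd => inv_eq_of_mul_eq_one_left (hone d hd)
      apply Subtype.ext
      have h1 := hinv _ (D.mul_mem a.2 b.2)
      rw [mul_inv_rev, hinv _ a.2, hinv _ b.2] at h1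
      exact h1.symm
    · exact h0
  intro d hd x hx
  rw [← htop, hD₀] at hd
  have h1 : d * x * d⁻¹ ∈ cj d E := conj_mem_cj hx
  rwa [hd.2 E hE] at h1

theorem lemL_soc {N : ℕ} {H : Type} [Group H] [Finite H] {Ω : Set (Subgroup H)}
    (hR : Red N H Ω) {D : Subgroup H} (hD : Sm N D)
    (h : ∀ g : H, DP N (ncl (D ⊔ Subgroup.zpowers g) D)) : D ≤ sSup Ω := by
  intro d hd
  refine hR.mem_soc fun E hE => ?_
  by_cases hcomm : ∀ d₀ ∈ D, ∀ s ∈ E, d₀ * s = s * d₀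
  · refine ⟨1, E.one_mem, fun y hy => ?_⟩
    rw [hcomm d hd y hy]
    group
  push Not at hcomm
  obtain ⟨d₀, hd₀, s, hs, hne⟩ := hcomm
  have hEs : Sm N E := hR.sm E hE
  have hfin : Finite E := hEs.fin
  have hDE : Nz D E := soc_fix hR hD h hE
  obtain ⟨P, hP⟩ : ∃ P : Subgroup H, P = ncl (D ⊔ Subgroup.zpowers s) D := ⟨_, rfl⟩
  have hDP : DP N P := by
    rw [hP]
    exact h s
  have hPE : Nz P E := by
    have h1 : P ≤ D ⊔ Subgroup.zpowers s := by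
      rw [hP]
      exact ncl_le le_sup_left
    have h2 : D ⊔ Subgroup.zpowers s ≤ Subgroup.normalizer (E : Set H) := by
      apply sup_le
      · intro k hk
        rw [Subgroup.mem_normalizer_iff]
        intro x
        refine ⟨fun hx => hDE k hk x hx, fun hx => ?_⟩
        have := hDE k⁻¹ (D.inv_mem hk) _ hx
        simpa [mul_assoc] using this
      · rw [Subgroup.zpowers_le]
        exact Subgroup.le_normalizer hs
    intro k hk x hx
    have h3 := Subgroup.mem_normalizer_iff.1 (h2 (h1 hk)) x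
    exact h3.1 hx
  have hu : d₀ * s * d₀⁻¹ * s⁻¹ ∈ P ⊓ E := by
    refine ⟨?_, E.mul_mem (hDE d₀ hd₀ s hs) (E.inv_mem hs)⟩
    rw [hP]
    exact lemS_comm_mem hd₀
  have hu1 : d₀ * s * d₀⁻¹ * s⁻¹ ≠ 1 := by
    intro h1
    apply hne
    have h2 := congrArg (fun x => x * s * d₀) h1
    simpa [mul_assoc] using h2
  have hnz1 : Nz P (P ⊓ E) := by
    intro k hk x hx
    exact ⟨P.mul_mem (P.mul_mem hk hx.1) (P.inv_mem hk), hPE k hk x hx.2⟩
  have hDPE := (hDP.split inf_le_left hnz1).1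
  have hne1 : P ⊓ E ≠ ⊥ := by
    intro h1
    rw [h1, Subgroup.mem_bot] at hu
    exact hu1 hu
  have hcard := hDPE.card hne1
  have heq : P ⊓ E = E := by
    apply Subgroup.eq_of_le_of_card_ge inf_le_right
    rw [hEs.card]
    exact hcard
  have hEP : E ≤ P := by
    rw [← heq]
    exact inf_le_left
  have hnz : Nz P (P ⊓ sSup Ω) := by
    intro k hk x hx
    exact ⟨P.mul_mem (P.mul_mem hk hx.1) (P.inv_mem hk), lemS_sup_nz hR k hx.2⟩
  have hdP : d ∈ P := by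
    rw [hP]
    exact le_ncl _ D hd
  obtain ⟨m, hm, c, hc, hcM, hdmc⟩ := (hDP.split inf_le_left hnz).2 d hdP
  obtain ⟨e, he, hey⟩ := hR.inner hm.2 hE
  refine ⟨e, he, fun y hy => ?_⟩
  have h1 := hcM y ⟨hEP hy, (le_sSup hE : E ≤ sSup Ω) hy⟩
  rw [hdmc, ← hey y hy]
  calc m * c * y * (m * c)⁻¹ = m * (c * y) * c⁻¹ * m⁻¹ := by group
    _ = m * (y * c) * c⁻¹ * m⁻¹ := by rw [h1]
    _ = m * y * m⁻¹ := by group

end Pool.Agent.NPR
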