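import Pool.Agent.NPR.LemR
import Pool.Agent.NPR.LemS
import Pool.Agent.NPR.ImF
import Pool.Agent.NPR.Comp

/-!
# NPR: Lemma L

`K` finite in `XN (N + 1)`, `D ≤ K` simple nonabelian of order `N`, all
`ncl (D ⊔ zpowers g) D`, `g ∈ K`, are `DP`. Then `ncl K D` is `DP`.

Proof. Take `H, π, Ω` from `exists_red`, `X = rad N K`, `S = sSup Ω`.

(1) `im π D` satisfies the hypotheses of `lemL_soc`: `Sm N (im π D)` (the kernel of the
restriction of `π` to `D` is trivial: `D ⊓ X` is trivial by `Sm.disj`, `rad_nz`, `rad_xn`; so `D`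
is isomorphic to its image), and for `h = π k` the group `ncl (im π D ⊔ zpowers h) (im π D)` is
the image of `ncl (D ⊔ zpowers k) D` (`im_ncl`), `DP` by `DP.im`. So `im π D ≤ S`. The same
for the conjugates `cj k D`, `k ∈ K` (`S` is normal), so `im π (ncl K D) ≤ S`.

(2) `X` commutes with every `cj k D`, `k ∈ K` (`lemL_rad` for `cj k D`, whose hypotheses hold:
`ncl (cj k D ⊔ zpowers g) (cj k D) = cj k (ncl (D ⊔ zpowers (k⁻¹ g k)) D)` and `DP` is invariant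
under `cj`, `DP.map`), so `X` commutes with `N₀ = ncl K D`.

(3) Let `Ω₀` be the set of the `F ∈ Ω` with `F ≤ im π N₀`. As `im π N₀ ≤ S` is normal in `H`,
`im π N₀ = sSup Ω₀` (`DP.split` for `P = S`, `M = im π N₀`, or directly: for `F ∈ Ω` the group
`im π N₀ ⊓ F` is `⊥` or `F`; if `⊥` then `F` commutes with `im π N₀`; use `DPw.dec` and
`DPw.central`).
For `F ∈ Ω₀` there is `k ∈ K` with `im π (cj k D)` not commuting with `F` (otherwise `F`
commutes with `im π N₀ ≥ F`). Put `D' = cj k D` (it satisfies the hypotheses of the lemma), and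
`s ∈ N₀` with `π s ∈ F`, `[π d, π s] ≠ 1` for some `d ∈ D'`. `P = ncl (D' ⊔ zpowers s) D'` is
`DP`, `P ≤ N₀`. `N_F = {x ∈ N₀ | π x ∈ F}` is normalised by `N₀` (`im π N₀ ≤ S` normalises `F`,
`Red.inner`). `F^ := P ⊓ N_F` is normalised by `P`, so `DP` (`DP.split`); `F^ ⊓ X = ⊥`
(`DP.xn_bot` for `F^`: `F^ ⊓ X` is normalised by `F^`, in `XN`); `F^ ≠ ⊥` (it contains
`d s d⁻¹ s⁻¹ ∈ P ⊓ N_F`, which is not in `X`). So `π` maps `F^` injectively into `F`, and
`Nat.card F^ ≥ N` (`DP.card`), so `F^` is isomorphic to `F`: `Sm N F^`, `im π F^ = F`.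

(4) Let `Y = sSup {F^ | F ∈ Ω₀} ≤ N₀`. `im π Y = sSup Ω₀ = im π N₀`, so `N₀ ≤ Y ⊔ (N₀ ⊓ X)`, and
`Z = N₀ ⊓ X` commutes with `N₀`. `N₀` is generated by the groups `cj k D`, which equal their
own commutator subgroups, so `N₀ = ⁅N₀, N₀⁆ ≤ ⁅Y ⊔ Z, Y ⊔ Z⁆ ≤ Y`. So `N₀ = Y`.
For `F ≠ F'` in `Ω₀` and `a ∈ F^`, `b ∈ F'^`: `[a, b] ∈ N₀ ⊓ X = Z` commutes with `N₀`, so for fixed
`b` the map `a ↦ [a, b]` is a homomorphism from `F^` to the commutative group `Z`, so trivial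
(`Sm.pf`, `XN.of_comm`, `Pf.hom_trivial`). So the `F^` commute pairwise, `F^ ≠ F'^` for
`F ≠ F'` (images), and `Ω₀` is finite: `DP N N₀`.
-/

set_option autoImplicit false

namespace Pool.Agent.NPR

open Subgroup

variable {G : Type} [Group G]

private theorem lemL_im_equiv {K P : Subgroup G} {H : Type} [Group H] (π : K →* H)
    (hPK : P ≤ K) (hinj : ∀ k : K, (k : G) ∈ P → π k = 1 → k = 1) :
    Nonempty (P ≃* im π P) := by
  let f : P →* H := π.comp (Subgroup.inclusion hPK)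
  have hf : Function.Injective f := by
    rw [injective_iff_map_eq_one]
    intro p hp
    have h1 : (Subgroup.inclusion hPK p : K) = 1 := hinj _ p.2 hp
    have h2 : ((Subgroup.inclusion hPK p : K) : G) = 1 := by rw [h1]; rfl
    exact Subtype.ext h2
  have hr : f.range = im π P := by
    ext x
    rw [mem_im, MonoidHom.mem_range]
    constructor
    · rintro ⟨p, rfl⟩
      exact ⟨Subgroup.inclusion hPK p, p.2, rfl⟩
    · rintro ⟨k, hk, rfl⟩
      exact ⟨⟨k, hk⟩, rfl⟩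
  rw [← hr]
  exact ⟨MonoidHom.ofInjective hf⟩

private theorem lemL_im_zpowers {K : Subgroup G} {H : Type} [Group H] (π : K →* H) (k : K) :
    im π (Subgroup.zpowers (k : G)) = Subgroup.zpowers (π k) := by
  ext x
  rw [mem_im, Subgroup.mem_zpowers_iff]
  constructor
  · rintro ⟨k', hk', rfl⟩
    obtain ⟨n, hn⟩ := Subgroup.mem_zpowers_iff.1 hk'
    have h1 : k ^ n = k' := Subtype.ext (by simpa using hn)
    exact ⟨n, by rw [← h1, map_zpow]⟩
  · rintro ⟨n, rfl⟩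
    refine ⟨k ^ n, ?_, by rw [map_zpow]⟩
    rw [Subgroup.mem_zpowers_iff]
    exact ⟨n, by simp⟩

/-- the elements of `K` with image in `A` -/
private def lemL_pre {K : Subgroup G} {H : Type} [Group H] (π : K →* H) (A : Subgroup H) :
    Subgroup G := (A.comap π).map K.subtype

private theorem lemL_mem_pre {K : Subgroup G} {H : Type} [Group H] {π : K →* H}
    {A : Subgroup H} {x : G} : x ∈ lemL_pre π A ↔ ∃ h : x ∈ K, π ⟨x, h⟩ ∈ A := by
  unfold lemL_pre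
  rw [Subgroup.mem_map]
  constructor
  · rintro ⟨y, hy, rfl⟩
    exact ⟨y.2, hy⟩
  · rintro ⟨h, hy⟩
    exact ⟨⟨x, h⟩, hy, rfl⟩

private theorem lemL_ncl_le {K D M : Subgroup G} (h : ∀ k ∈ K, cj k D ≤ M) : ncl K D ≤ M := by
  unfold ncl
  rw [Subgroup.closure_le]
  rintro x ⟨k, hk, d, hd, rfl⟩
  exact h k hk (conj_mem_cj hd)

private theorem lemL_cj_le {K D : Subgroup G} (hDK : D ≤ K) {k : G} (hk : k ∈ K) :
    cj k D ≤ K := (cj_le_ncl hk).trans (ncl_le hDK)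

private theorem lemL_zp_le {K D : Subgroup G} (hDK : D ≤ K) {k : G} (hk : k ∈ K) :
    D ⊔ Subgroup.zpowers k ≤ K :=
  sup_le hDK (by rw [Subgroup.zpowers_le]; exact hk)

/-- step (1) -/
private theorem lemL_step1 {N : ℕ} {K D : Subgroup G} [Finite K] (hDK : D ≤ K)
    (hD : Sm N D) (h : ∀ g ∈ K, DP N (ncl (D ⊔ Subgroup.zpowers g) D))
    {H : Type} [Group H] [Finite H] (π : K →* H) (hs : Function.Surjective π)
    (hk : ∀ k : K, π k = 1 ↔ (k : G) ∈ rad N K) {Ω : Set (Subgroup H)} (hR : Red N H Ω) :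
    im π D ≤ sSup Ω := by
  have hnz : Nz D (rad N K) := fun k hk x hx => rad_nz k (hDK hk) x hx
  have hinj : ∀ k : K, (k : G) ∈ D → π k = 1 → k = 1 := by
    intro k hkD h1
    exact Subtype.ext (hD.disj hnz rad_xn ((hk k).1 h1) hkD)
  obtain ⟨e⟩ := lemL_im_equiv π hDK hinj
  apply lemL_soc hR (hD.of_equiv e)
  intro g
  obtain ⟨k, rfl⟩ := hs g
  have h1 : D ≤ D ⊔ Subgroup.zpowers (k : G) := le_sup_left
  have h2 : D ⊔ Subgroup.zpowers (k : G) ≤ K := lemL_zp_le hDK k.2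
  have h3 := im_ncl π h2 h1
  rw [im_sup π hDK (by rw [Subgroup.zpowers_le]; exact k.2), lemL_im_zpowers] at h3
  rw [← h3]
  exact (h k k.2).im π ((ncl_le h1).trans h2)

/-- step (3), first part -/
private theorem lemL_sSup {N : ℕ} {H : Type} [Group H] [Finite H] {Ω : Set (Subgroup H)}
    (hR : Red N H Ω) {M : Subgroup H} (hM : M ≤ sSup Ω) (hn : Nz (sSup Ω) M) :
    M = sSup {F | F ∈ Ω ∧ F ≤ M} := by
  have hw := hR.dpw
  have hsub : {F | F ∈ Ω ∧ F ≤ M} ⊆ Ω := fun F hF => hF.1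
  apply le_antisymm _ (sSup_le fun F hF => hF.2)
  intro m hm
  obtain ⟨hc, hd⟩ := hw.dec hsub
  obtain ⟨a, ha, b, hb, hab⟩ := hd m (hM hm)
  have haM : a ∈ M := (sSup_le (fun F hF => hF.2) : sSup {F | F ∈ Ω ∧ F ≤ M} ≤ M) ha
  have hbM : b ∈ M := by
    have : b = a⁻¹ * m := by rw [hab]; group
    rw [this]
    exact M.mul_mem (M.inv_mem haM) hm
  have hb1 : b = 1 := by
    apply hw.central (hM hbM)
    intro F hF e he
    by_cases hFM : F ≤ M
    · have : e ∈ sSup {F | F ∈ Ω ∧ F ≤ M} :=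
        (le_sSup (show F ∈ {F | F ∈ Ω ∧ F ≤ M} from ⟨hF, hFM⟩)) he
      exact (hc e this b hb).symm
    · have hnz : Nz F (M ⊓ F) := by
        intro k hk x hx
        exact ⟨hn k (hw.le hF hk) x hx.1,
          F.mul_mem (F.mul_mem hk hx.2) (F.inv_mem hk)⟩
      rcases (hR.sm F hF).eq_bot_or_eq inf_le_right hnz with h1 | h1
      · have h2 : b * e * b⁻¹ * e⁻¹ ∈ M ⊓ F := by
          refine ⟨?_, ?_⟩
          · have h3 := hn e (hw.le hF he) b⁻¹ (M.inv_mem hbM)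
            have h4 : b * e * b⁻¹ * e⁻¹ = b * (e * b⁻¹ * e⁻¹) := by group
            rw [h4]
            exact M.mul_mem hbM h3
          · exact F.mul_mem (hw.nz hF b (hM hbM) e he) (F.inv_mem he)
        rw [h1, Subgroup.mem_bot] at h2
        have h5 : b * e = b * e * b⁻¹ * e⁻¹ * (e * b) := by group
        rw [h5, h2, one_mul]
      · exact absurd (h1 ▸ inf_le_left) hFM
  rw [hab, hb1, mul_one]
  exact ha

/-- step (3), second part -/
private theorem lemL_lift {N : ℕ} {K D : Subgroup G} [Finite K] (hDK : D ≤ K)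
    (h : ∀ g ∈ K, DP N (ncl (D ⊔ Subgroup.zpowers g) D))
    {H : Type} [Group H] [Finite H] (π : K →* H)
    (hk : ∀ k : K, π k = 1 ↔ (k : G) ∈ rad N K) {Ω : Set (Subgroup H)} (hR : Red N H Ω)
    (hS : im π (ncl K D) ≤ sSup Ω) {F : Subgroup H} (hF : F ∈ Ω)
    (hFM : F ≤ im π (ncl K D)) : ∃ E : Subgroup G, E ≤ ncl K D ∧ Sm N E ∧ im π E = F := by
  have hw := hR.dpw
  have hN0K : ncl K D ≤ K := ncl_le hDK
  obtain ⟨k, hkK, d, hd, f, hf, hdf⟩ : ∃ k ∈ K, ∃ d : K, (d : G) ∈ cj k D ∧ ∃ f ∈ F,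
      π d * f ≠ f * π d := by
    by_contra hcon
    push Not at hcon
    obtain ⟨a, b, hab⟩ := (hR.sm F hF).nonab
    apply hab
    have h1 : ncl K D ≤ lemL_pre π (Subgroup.centralizer (F : Set H)) := by
      apply lemL_ncl_le
      intro k hk x hx
      rw [lemL_mem_pre]
      refine ⟨lemL_cj_le hDK hk hx, ?_⟩
      rw [Subgroup.mem_centralizer_iff]
      intro f hf
      exact (hcon k hk ⟨x, lemL_cj_le hDK hk hx⟩ hx f hf).symm
    obtain ⟨s, hs, hsa⟩ := mem_im.1 (hFM a.2)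
    obtain ⟨h2, h3⟩ := lemL_mem_pre.1 (h1 hs)
    rw [Subgroup.mem_centralizer_iff] at h3
    have h4 := h3 b b.2
    have h5 : π ⟨(s : G), h2⟩ = a := hsa
    rw [h5] at h4
    exact Subtype.ext h4.symm
  obtain ⟨s, hs, rfl⟩ := mem_im.1 (hFM hf)
  have hD' : cj k D ≤ K := lemL_cj_le hDK hkK
  have hD'N : cj k D ≤ ncl K D := cj_le_ncl hkK
  have hP := dp_ncl_cj h hkK s s.2
  set L := cj k D ⊔ Subgroup.zpowers (s : G) with hL
  have hLK : L ≤ K := lemL_zp_le hD' s.2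
  have hPN : ncl L (cj k D) ≤ ncl K D :=
    ncl_le_iff (fun x hx y hy => ncl_nz K D x (hLK hx) y hy) hD'N
  set P := ncl L (cj k D) with hPdef
  have hFn : ∀ x : K, (x : G) ∈ ncl K D → ∀ y ∈ F, π x * y * (π x)⁻¹ ∈ F := by
    intro x hx y hy
    exact hw.nz hF (π x) (hS (mem_im.2 ⟨x, hx, rfl⟩)) y hy
  set E := P ⊓ lemL_pre π F with hE
  have hEP : E ≤ P := inf_le_left
  have hEN : E ≤ ncl K D := hEP.trans hPN
  have hEK : E ≤ K := hEN.trans hN0K
  have hEn : Nz P E := by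
    intro p hp x hx
    refine Subgroup.mem_inf.2 ⟨P.mul_mem (P.mul_mem hp hx.1) (P.inv_mem hp), ?_⟩
    obtain ⟨hxK, hxF⟩ := lemL_mem_pre.1 hx.2
    have hpK : p ∈ K := hN0K (hPN hp)
    rw [lemL_mem_pre]
    refine ⟨K.mul_mem (K.mul_mem hpK hxK) (K.inv_mem hpK), ?_⟩
    have h1 := hFn ⟨p, hpK⟩ (hPN hp) _ hxF
    rw [← map_mul, ← map_inv, ← map_mul] at h1
    exact h1
  have hEdp : DP N E := (hP.split hEP hEn).1
  have hEX : E ⊓ rad N K = ⊥ := by
    apply hEdp.xn_bot inf_le_left _ (XN.of_le inf_le_right rad_xn)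
    intro e he x hx
    exact ⟨E.mul_mem (E.mul_mem he hx.1) (E.inv_mem he), rad_nz e (hEK he) x hx.2⟩
  have hinj : ∀ k : K, (k : G) ∈ E → π k = 1 → k = 1 := by
    intro x hx h1
    have h2 : (x : G) ∈ E ⊓ rad N K := ⟨hx, (hk x).1 h1⟩
    rw [hEX, Subgroup.mem_bot] at h2
    exact Subtype.ext h2
  have hne : E ≠ ⊥ := by
    intro hbot
    have h1 : (d : G) * s * (d : G)⁻¹ * (s : G)⁻¹ ∈ E := by
      refine Subgroup.mem_inf.2 ⟨?_, ?_⟩
      · have h2 : (d : G) ∈ P := le_ncl L _ hd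
        have h3 : (s : G) * (d : G)⁻¹ * (s : G)⁻¹ ∈ P :=
          conj_mem_ncl (le_sup_right (a := cj k D) (Subgroup.mem_zpowers (s : G)))
            ((cj k D).inv_mem hd)
        have h4 := P.mul_mem h2 h3
        simpa [mul_assoc] using h4
      · rw [lemL_mem_pre]
        refine ⟨(d * s * d⁻¹ * s⁻¹ : K).2, ?_⟩
        have h2 := F.mul_mem (hFn d (hD'N hd) _ hf) (F.inv_mem hf)
        rw [← map_mul, ← map_inv, ← map_inv, ← map_mul, ← map_mul] at h2
        exact h2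
    rw [hbot, Subgroup.mem_bot] at h1
    apply hdf
    have h2 : d * s * d⁻¹ * s⁻¹ = 1 := Subtype.ext h1
    have h3 : d * s = s * d := by
      have : d * s = d * s * d⁻¹ * s⁻¹ * (s * d) := by group
      rw [this, h2, one_mul]
    rw [← map_mul, ← map_mul, h3]
  have hcard := hEdp.card hne
  obtain ⟨e⟩ := lemL_im_equiv π hEK hinj
  have hle : im π E ≤ F := by
    intro x hx
    obtain ⟨y, hy, rfl⟩ := mem_im.1 hx
    exact (lemL_mem_pre.1 hy.2).2
  have hFfin : Finite F := (hR.sm F hF).fin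
  have heq : im π E = F := by
    apply Subgroup.eq_of_le_of_card_ge hle
    rw [(hR.sm F hF).card, ← Nat.card_congr e.toEquiv]
    exact hcard
  refine ⟨E, hEN, ?_, heq⟩
  exact (hR.sm F hF).of_equiv (e.trans (MulEquiv.subgroupCongr heq)).symm

theorem lemL {N : ℕ} {K D : Subgroup G} [Finite K] (hK : XN (N + 1) K) (hDK : D ≤ K)
    (hD : Sm N D) (h : ∀ g ∈ K, DP N (ncl (D ⊔ Subgroup.zpowers g) D)) : DP N (ncl K D) := by
  obtain ⟨H, iG, iF, π, Ω, hs, hk, hR⟩ := exists_red K hK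
  have hw := hR.dpw
  have hN0K : ncl K D ≤ K := ncl_le hDK
  -- step (1)
  have hS : im π (ncl K D) ≤ sSup Ω := by
    have h1 : ncl K D ≤ lemL_pre π (sSup Ω) := by
      apply lemL_ncl_le
      intro k hkK x hx
      have h2 := lemL_step1 (lemL_cj_le hDK hkK) (hD.cj k) (dp_ncl_cj h hkK) π hs hk hR
      rw [lemL_mem_pre]
      exact ⟨lemL_cj_le hDK hkK hx, h2 (mem_im.2 ⟨⟨x, lemL_cj_le hDK hkK hx⟩, hx, rfl⟩)⟩
    intro y hy
    obtain ⟨x, hx, rfl⟩ := mem_im.1 hy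
    exact (lemL_mem_pre.1 (h1 hx)).2
  -- step (2)
  have hX : ∀ r ∈ rad N K, ∀ x ∈ ncl K D, r * x = x * r := by
    intro r hr
    have h1 : ncl K D ≤ Subgroup.centralizer {r} := by
      apply lemL_ncl_le
      intro k hkK x hx
      rw [Subgroup.mem_centralizer_singleton_iff]
      exact (lemL_rad (lemL_cj_le hDK hkK) (hD.cj k) (dp_ncl_cj h hkK) hr hx).symm
    intro x hx
    exact ((Subgroup.mem_centralizer_singleton_iff).1 (h1 hx)).symm
  -- step (3)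
  have hMn : Nz (sSup Ω) (im π (ncl K D)) := by
    intro p _ x hx
    obtain ⟨k, rfl⟩ := hs p
    obtain ⟨y, hy, rfl⟩ := mem_im.1 hx
    refine mem_im.2 ⟨k * y * k⁻¹, ncl_nz K D k k.2 y hy, ?_⟩
    rw [map_mul, map_mul, map_inv]
  have hMeq := lemL_sSup hR hS hMn
  have hlift : ∀ F : Subgroup H, F ∈ Ω ∧ F ≤ im π (ncl K D) →
      ∃ E : Subgroup G, E ≤ ncl K D ∧ Sm N E ∧ im π E = F := fun F hF =>
    lemL_lift hDK h π hk hR hS hF.1 hF.2
  choose! Φ hΦN hΦsm hΦim using hlift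
  -- step (4)
  set Ω₀ : Set (Subgroup H) := {F | F ∈ Ω ∧ F ≤ im π (ncl K D)} with hΩ₀
  have hYN : sSup (Φ '' Ω₀) ≤ ncl K D := by
    apply sSup_le
    rintro E ⟨F, hF, rfl⟩
    exact hΦN F hF
  have hdec : ∀ x ∈ ncl K D, ∃ y ∈ sSup (Φ '' Ω₀), ∃ z ∈ rad N K, x = y * z := by
    intro x hx
    have h1 : sSup Ω₀ ≤ im π (sSup (Φ '' Ω₀)) := by
      apply sSup_le
      intro F hF
      have h2 : Φ F ≤ sSup (Φ '' Ω₀) := le_sSup ⟨F, hF, rfl⟩
      calc F = im π (Φ F) := (hΦim F hF).symm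
        _ ≤ _ := im_mono h2
    have h2 : π ⟨x, hN0K hx⟩ ∈ im π (ncl K D) := mem_im.2 ⟨⟨x, hN0K hx⟩, hx, rfl⟩
    rw [hMeq] at h2
    obtain ⟨y, hy, hyx⟩ := mem_im.1 (h1 h2)
    refine ⟨y, hy, (y : G)⁻¹ * x, ?_, by group⟩
    have h3 : π (y⁻¹ * ⟨x, hN0K hx⟩) = 1 := by
      rw [map_mul, map_inv, hyx, inv_mul_cancel]
    exact (hk _).1 h3
  have hNY : ncl K D ≤ sSup (Φ '' Ω₀) := by
    apply lemL_ncl_le
    intro k hkK
    have hD'N : cj k D ≤ ncl K D := cj_le_ncl hkK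
    have hcomm : ∀ a ∈ cj k D, ∀ b ∈ cj k D, a * b * a⁻¹ * b⁻¹ ∈ sSup (Φ '' Ω₀) := by
      intro a ha b hb
      obtain ⟨y, hy, z, hz, rfl⟩ := hdec a (hD'N ha)
      obtain ⟨y', hy', z', hz', rfl⟩ := hdec b (hD'N hb)
      have c1 : z * y' = y' * z := hX z hz y' (hYN hy')
      have c2 : z' * y = y * z' := hX z' hz' y (hYN hy)
      have hzN : z ∈ ncl K D := by
        have h1 := (ncl K D).mul_mem ((ncl K D).inv_mem (hYN hy)) (hD'N ha)
        rwa [inv_mul_cancel_left] at h1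
      have c3 : z' * z = z * z' := hX z' hz' z hzN
      have c4 : z' * y' = y' * z' := hX z' hz' y' (hYN hy')
      have c5 : z * y = y * z := hX z hz y (hYN hy)
      have h1 : y * z * (y' * z') * (y * z)⁻¹ * (y' * z')⁻¹ = y * y' * y⁻¹ * y'⁻¹ := by
        have e1 : y * z * (y' * z') = y * y' * (z * z') := by
          calc y * z * (y' * z') = y * (z * y') * z' := by group
            _ = y * (y' * z) * z' := by rw [c1]
            _ = _ := by group
        have e2 : (y' * z') * (y * z) = y' * y * (z * z') := by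
          calc (y' * z') * (y * z) = y' * (z' * y) * z := by group
            _ = y' * (y * z') * z := by rw [c2]
            _ = y' * y * (z' * z) := by group
            _ = _ := by rw [c3]
        calc y * z * (y' * z') * (y * z)⁻¹ * (y' * z')⁻¹
            = (y * z * (y' * z')) * ((y' * z') * (y * z))⁻¹ := by group
          _ = y * y' * (z * z') * (y' * y * (z * z'))⁻¹ := by rw [e1, e2]
          _ = _ := by group
      rw [h1]
      exact Subgroup.mul_mem _ (Subgroup.mul_mem _ (Subgroup.mul_mem _ hy hy')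
        (Subgroup.inv_mem _ hy)) (Subgroup.inv_mem _ hy')
    have hnz : Nz (cj k D) (sSup (Φ '' Ω₀) ⊓ cj k D) := by
      intro a ha x hx
      refine ⟨?_, (cj k D).mul_mem ((cj k D).mul_mem ha hx.2) ((cj k D).inv_mem ha)⟩
      have h1 : a * x * a⁻¹ = (a * x * a⁻¹ * x⁻¹) * x := by group
      rw [h1]
      exact Subgroup.mul_mem _ (hcomm a ha x hx.2) hx.1
    rcases (hD.cj k).eq_bot_or_eq inf_le_right hnz with h1 | h1
    · exfalso
      obtain ⟨a, b, hab⟩ := (hD.cj k).nonab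
      have h2 : (a : G) * b * (a : G)⁻¹ * (b : G)⁻¹ ∈ sSup (Φ '' Ω₀) ⊓ cj k D :=
        ⟨hcomm a a.2 b b.2, (a * b * a⁻¹ * b⁻¹ : cj k D).2⟩
      rw [h1, Subgroup.mem_bot] at h2
      apply hab
      have h3 : a * b * a⁻¹ * b⁻¹ = 1 := Subtype.ext h2
      have h4 : a * b = a * b * a⁻¹ * b⁻¹ * (b * a) := by group
      rw [h4, h3, one_mul]
    · exact inf_eq_right.1 h1
  have hNeq : ncl K D = sSup (Φ '' Ω₀) := le_antisymm hNY hYN
  refine ⟨Φ '' Ω₀, ?_, ?_, ?_, hNeq⟩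
  · exact (hw.fin.subset fun F hF => hF.1).image _
  · rintro E ⟨F, hF, rfl⟩
    exact hΦsm F hF
  · rintro E ⟨F, hF, rfl⟩ E' ⟨F', hF', rfl⟩ hne a ha b hb
    have hFF' : F ≠ F' := fun h1 => hne (by rw [h1])
    have hZc : ∀ u v : (rad N K ⊓ ncl K D : Subgroup G), u * v = v * u := by
      intro u v
      exact Subtype.ext (hX u u.2.1 v v.2.2)
    have hcz : ∀ a ∈ Φ F, a * b * a⁻¹ * b⁻¹ ∈ rad N K ⊓ ncl K D := by
      intro a ha
      have haN : a ∈ ncl K D := hΦN F hF ha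
      have hbN : b ∈ ncl K D := hΦN F' hF' hb
      have hcN : a * b * a⁻¹ * b⁻¹ ∈ ncl K D := Subgroup.mul_mem _ (Subgroup.mul_mem _
        (Subgroup.mul_mem _ haN hbN) (Subgroup.inv_mem _ haN)) (Subgroup.inv_mem _ hbN)
      refine ⟨?_, hcN⟩
      have h1 : π ⟨a, hN0K haN⟩ ∈ F := by
        rw [← hΦim F hF]
        exact mem_im.2 ⟨⟨a, hN0K haN⟩, ha, rfl⟩
      have h2 : π ⟨b, hN0K hbN⟩ ∈ F' := by
        rw [← hΦim F' hF']
        exact mem_im.2 ⟨⟨b, hN0K hbN⟩, hb, rfl⟩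
      have h3 := hR.comm F hF.1 F' hF'.1 hFF' _ h1 _ h2
      have h4 : π (⟨a, hN0K haN⟩ * ⟨b, hN0K hbN⟩ * ⟨a, hN0K haN⟩⁻¹ * ⟨b, hN0K hbN⟩⁻¹) = 1 := by
        rw [map_mul, map_mul, map_mul, map_inv, map_inv, h3]
        group
      exact (hk _).1 h4
    let φ : Φ F →* (rad N K ⊓ ncl K D : Subgroup G) :=
      { toFun := fun a => ⟨a * b * (a : G)⁻¹ * b⁻¹, hcz a a.2⟩
        map_one' := by
          apply Subtype.ext
          simp
        map_mul' := by
          intro x y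
          apply Subtype.ext
          have h1 := hX _ (hcz y y.2).1 x (hΦN F hF x.2)
          change ((x : G) * y) * b * ((x : G) * y)⁻¹ * b⁻¹ =
            (x * b * (x : G)⁻¹ * b⁻¹) * (y * b * (y : G)⁻¹ * b⁻¹)
          have h2 := hX _ (hcz y y.2).1 (x * b * (x : G)⁻¹ * b⁻¹) (hcz x x.2).2
          calc ((x : G) * y) * b * ((x : G) * y)⁻¹ * b⁻¹
              = x * (y * b * (y : G)⁻¹ * b⁻¹) * b * (x : G)⁻¹ * b⁻¹ := by group
            _ = (y * b * (y : G)⁻¹ * b⁻¹) * x * b * (x : G)⁻¹ * b⁻¹ := by rw [h1]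
            _ = (y * b * (y : G)⁻¹ * b⁻¹) * (x * b * (x : G)⁻¹ * b⁻¹) := by group
            _ = _ := h2 }
    have h1 : φ ⟨a, ha⟩ = 1 := Pf.hom_trivial (hΦsm F hF).pf φ (XN.of_comm hZc) ⟨a, ha⟩
    have h2 : a * b * a⁻¹ * b⁻¹ = 1 := congrArg Subtype.val h1
    have h3 : a * b = a * b * a⁻¹ * b⁻¹ * (b * a) := by group
    rw [h3, h2, one_mul]

end Pool.Agent.NPR
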