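import Pool.Agent.NPR.RadF
import Pool.Agent.NPR.DPa

/-!
# NPR: Lemma L, the radical

Conjugation convention of Lean: `k * d * k⁻¹`.

Proofs.

* `lemL_rad`: let `X = rad N K`, `r ∈ X`, `P = ncl (D ⊔ zpowers r) D`, `DP N P` by hypothesis
  (`r ∈ K` by `rad_le`). Every element of `P` is congruent to an element of `D` modulo `X`:
  `P ≤ D ⊔ X` (`ncl_le_iff` for `M = D ⊔ X`, which contains `r` and `D`), and `D ⊔ X` is the set
  of all `d * x` (`X` is normalised by `D`, `rad_nz`). `P ⊓ X` is normalised by `P` and in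
  `XN` (`rad_xn`, `XN.of_le`), so `P ⊓ X = ⊥` (`DP.xn_bot`). So `P = D`: for `q = d * x ∈ P` with
  `d ∈ D ≤ P` (`le_ncl`) we get `x ∈ P ⊓ X`, `x = 1`. So `r d r⁻¹ ∈ P = D` for `d ∈ D`
  (`conj_mem_ncl`), and `r d r⁻¹ d⁻¹ ∈ D ⊓ X`, which is trivial (`Sm.disj`).
-/

set_option autoImplicit false

namespace Pool.Agent.NPR

open Subgroup

variable {G : Type} [Group G]

/-- The subgroup of all products `d * x`, where `D` normalises `X`. -/
private def lemrProd (D X : Subgroup G) (h : Nz D X) : Subgroup G where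
  carrier := {g | ∃ d ∈ D, ∃ x ∈ X, g = d * x}
  one_mem' := ⟨1, D.one_mem, 1, X.one_mem, by simp⟩
  mul_mem' := by
    rintro _ _ ⟨d, hd, x, hx, rfl⟩ ⟨e, he, y, hy, rfl⟩
    refine ⟨d * e, D.mul_mem hd he, e⁻¹ * x * e * y, X.mul_mem ?_ hy, by group⟩
    have h1 := h e⁻¹ (D.inv_mem he) x hx
    simpa using h1
  inv_mem' := by
    rintro _ ⟨d, hd, x, hx, rfl⟩
    exact ⟨d⁻¹, D.inv_mem hd, d * x⁻¹ * d⁻¹, h d hd _ (X.inv_mem hx), by group⟩

private theorem mem_lemrProd {D X : Subgroup G} {h : Nz D X} {g : G} :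
    g ∈ lemrProd D X h ↔ ∃ d ∈ D, ∃ x ∈ X, g = d * x := Iff.rfl

theorem lemL_rad {N : ℕ} {K D : Subgroup G} [Finite K] (hDK : D ≤ K) (hD : Sm N D)
    (h : ∀ g ∈ K, DP N (ncl (D ⊔ Subgroup.zpowers g) D)) {r : G} (hr : r ∈ rad N K) {d : G}
    (hd : d ∈ D) : r * d = d * r := by
  have hDX : Nz D (rad N K) := fun k hk => rad_nz k (hDK hk)
  have hrK : r ∈ K := rad_le hr
  have hDP := h r hrK
  have hr1 : r ∈ D ⊔ Subgroup.zpowers r :=
    (le_sup_right : Subgroup.zpowers r ≤ D ⊔ Subgroup.zpowers r) (Subgroup.mem_zpowers r)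
  have hleK : D ⊔ Subgroup.zpowers r ≤ K := sup_le hDK (Subgroup.zpowers_le.2 hrK)
  obtain ⟨P, hP⟩ : ∃ P : Subgroup G, P = ncl (D ⊔ Subgroup.zpowers r) D := ⟨_, rfl⟩
  rw [← hP] at hDP
  have hPK : P ≤ K := by
    rw [hP]
    exact (ncl_le le_sup_left).trans hleK
  have hDM : D ≤ lemrProd D (rad N K) hDX := fun y hy =>
    mem_lemrProd.2 ⟨y, hy, 1, Subgroup.one_mem _, by simp⟩
  have hrM : r ∈ lemrProd D (rad N K) hDX := mem_lemrProd.2 ⟨1, D.one_mem, r, hr, by simp⟩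
  have hle : D ⊔ Subgroup.zpowers r ≤ lemrProd D (rad N K) hDX :=
    sup_le hDM (Subgroup.zpowers_le.2 hrM)
  have hPM : P ≤ lemrProd D (rad N K) hDX := by
    rw [hP]
    exact (ncl_le le_sup_left).trans hle
  have hDleP : D ≤ P := by
    rw [hP]
    exact le_ncl _ _
  have hbot : P ⊓ rad N K = ⊥ := by
    apply hDP.xn_bot inf_le_left
    · intro k hk x hx
      exact ⟨P.mul_mem (P.mul_mem hk hx.1) (P.inv_mem hk), rad_nz k (hPK hk) x hx.2⟩
    · exact (rad_xn (N := N) (K := K)).of_le inf_le_right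
  have hPD : P ≤ D := by
    intro q hq
    obtain ⟨e, he, x, hx, hqe⟩ := mem_lemrProd.1 (hPM hq)
    have hxP : x ∈ P := by
      have h1 : x = e⁻¹ * q := by rw [hqe]; group
      rw [h1]
      exact P.mul_mem (P.inv_mem (hDleP he)) hq
    have hx1 : x ∈ P ⊓ rad N K := ⟨hxP, hx⟩
    rw [hbot, Subgroup.mem_bot] at hx1
    rw [hqe, hx1, mul_one]
    exact he
  have h2 : r * d * r⁻¹ ∈ D := by
    apply hPD
    rw [hP]
    exact conj_mem_ncl hr1 hd
  have h3 : r * d * r⁻¹ * d⁻¹ ∈ D := D.mul_mem h2 (D.inv_mem hd)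
  have h4 : r * d * r⁻¹ * d⁻¹ ∈ rad N K := by
    have h5 : r * d * r⁻¹ * d⁻¹ = r * (d * r⁻¹ * d⁻¹) := by group
    rw [h5]
    exact Subgroup.mul_mem _ hr (hDX d hd _ (Subgroup.inv_mem _ hr))
  have h6 := hD.disj hDX (rad_xn (N := N) (K := K)) h4 h3
  rw [mul_inv_eq_one, mul_inv_eq_iff_eq_mul] at h6
  exact h6

end Pool.Agent.NPR
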