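import Pool.Agent.NPR.Base
import Pool.Agent.NPR.LF
import Pool.Agent.NPR.DD2
import Pool.Agent.NPR.Ex3

/-!
# NPR: the main theorem

`Fam L d N G`: `G` obeys `L` and all its subgroups with at most `d` generators are in `XN N`.

Proofs.

* `main_aux`, induction on `N`: every finitely generated `G` which obeys `L` and whose subgroups with
  at most `d` generators are in `XN (N + 1)` is finite. `N = 0`: `base`. Step from `N` to `N + 1`
  (put `n = N + 1`; hypothesis: all `Gn d K` satisfy `XN (n + 1) K`, statement known for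
  `XN n`). Let `R` be the locally finite radical of `G` (`exists_lf`). It is enough to show
  `Finite (G ⧸ R)`: then `R` has finite index, is finitely generated, so finite, so `G` is
  finite. Actually show `G ⧸ R` is trivial: put `Q = G ⧸ R`; `Q` obeys `L` (`Obeys.of_surjective`),
  its `d`-generated subgroups are images of `d`-generated subgroups of `G` (lift the generators),
  so in `XN (n + 1)` (`XN.of_surjective`). `Ctx d n Q`: `fin` by `hL` (`gen_closure`,
  `Obeys.subgroup`), `two` by `h2` (`Obeys.subgroup`, `Obeys.of_surjective`; `Gen 2 S` gives two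
  generators). `Z` from `exists_Z`: normal; `LFs Z`: let `K ≤ Z` be finitely generated; `K` obeys
  `L`, all its subgroups with at most `d` generators are (isomorphic to) `Gn d` subgroups of `Q`
  contained in `Z`, so in `XN n`; by the induction hypothesis `K` is finite. So `Z = ⊥`
  (`lf_quot`). If some `Gn d` subgroup of `Q` is not in `XN n`: `DD_nonempty` (exponent: see
  `torsion_of_finiteGen`, `exists_bound`; the exponent of the one-generator groups is bounded by
  `finiteGen` for the free cyclic group of the variety) gives `D ∈ DD n Q`; `sSup (DD n Q)` is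
  normal and `LFs` (`DD.normal`, `DD.fin`), so `⊥` by `lf_quot`, but `D ≠ ⊥`, contradiction. So all
  `Gn d` subgroups of `Q` are in `XN n`, `Q` is finitely generated: by the induction hypothesis `Q`
  is finite. 
* `exponent`: `FiniteGen d L`, `1 ≤ d`: there is `n > 0` with `g ^ n = 1` for all `g` in all groups
  which obey `L`.
* `bound`: there is `B` with `XN B H` for all `H` which obey `L` and are `d`-generated
  (`B` = 1 + the largest order; `exists_bound` in `DChain/Princ.lean`, or the order of the free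
  group of rank `d` of the variety; `XN.of_card`).
* `main`: `LocFin L`.
-/

set_option autoImplicit false

namespace Pool.Agent.NPR

open Subgroup Pool.Agent.DChain

private theorem Main_gen {d : ℕ} {G : Type} [Group G] {K : Subgroup G} (hK : Gn d K) :
    Gen d K := by
  obtain ⟨l, hl, rfl⟩ := hK
  exact gen_closure l hl

private theorem Main_lift_list {G H : Type} [Group G] [Group H] (f : G →* H)
    (hf : Function.Surjective f) (l : List H) : ∃ l' : List G, l'.map f = l := by
  induction l with
  | nil => exact ⟨[], rfl⟩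
  | cons y ys ih =>
    obtain ⟨ys', h'⟩ := ih
    obtain ⟨x, hx⟩ := hf y
    exact ⟨x :: ys', by simp [hx, h']⟩

private theorem Main_closure_map {G H : Type} [Group G] [Group H] (f : G →* H) (l : List G) :
    Subgroup.closure {v | v ∈ l.map f} = (Subgroup.closure {v | v ∈ l}).map f := by
  rw [MonoidHom.map_closure]
  congr 1
  ext v
  simp

private theorem Main_gn_map {d : ℕ} {G H : Type} [Group G] [Group H] (f : G →* H)
    {K : Subgroup G} (hK : Gn d K) : Gn d (K.map f) := by
  obtain ⟨l, hl, rfl⟩ := hK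
  exact ⟨l.map f, by rwa [List.length_map], (Main_closure_map f l).symm⟩

private theorem Main_gn_lift {d : ℕ} {G H : Type} [Group G] [Group H] (f : G →* H)
    (hf : Function.Surjective f) {K : Subgroup H} (hK : Gn d K) :
    ∃ A : Subgroup G, Gn d A ∧ K = A.map f := by
  obtain ⟨l, hl, rfl⟩ := hK
  obtain ⟨l', hl'⟩ := Main_lift_list f hf l
  refine ⟨Subgroup.closure {v | v ∈ l'}, ⟨l', ?_, rfl⟩, ?_⟩
  · rw [← hl', List.length_map] at hl
    exact hl
  · rw [← Main_closure_map, hl']

theorem exponent {d : ℕ} (hd : 1 ≤ d) {L : Set (FreeGroup ℕ)} (hL : FiniteGen d L) :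
    ∃ n : ℕ, 0 < n ∧ ∀ (G : Type) [Group G], Obeys L G → ∀ g : G, g ^ n = 1 := by
  obtain ⟨e, -, he⟩ := exists_bound hL
  refine ⟨e.factorial, Nat.factorial_pos e, ?_⟩
  intro G _ hG g
  have h1 : Gen d (Subgroup.closure {v | v ∈ [g]}) := gen_closure [g] (by simpa using hd)
  have hO : Obeys L (Subgroup.closure {v | v ∈ [g]}) := hG.subgroup _
  have hfin : Finite (Subgroup.closure {v | v ∈ [g]}) := hL _ hO h1
  have hcard := he _ hO h1
  have h2 : g ∈ Subgroup.closure {v | v ∈ [g]} := Subgroup.subset_closure (by simp)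
  have h3 : orderOf g ∣ e.factorial := by
    have h4 : orderOf (⟨g, h2⟩ : Subgroup.closure {v | v ∈ [g]}) ∣
        Nat.card (Subgroup.closure {v | v ∈ [g]}) := orderOf_dvd_natCard _
    rw [Subgroup.orderOf_mk] at h4
    exact h4.trans (Nat.dvd_factorial Nat.card_pos hcard)
  exact orderOf_dvd_iff_pow_eq_one.1 h3

theorem bound {d : ℕ} {L : Set (FreeGroup ℕ)} (hL : FiniteGen d L) :
    ∃ B : ℕ, ∀ (H : Type) [Group H], Obeys L H → Gen d H → XN (B + 1) H := by
  obtain ⟨e, -, he⟩ := exists_bound hL
  refine ⟨e, ?_⟩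
  intro H _ hH hg
  have := hL H hH hg
  exact XN.of_card (Nat.lt_succ_of_le (he H hH hg))

private theorem Main_step {d : ℕ} (hd : 6 ≤ d) {L : Set (FreeGroup ℕ)} (hL : FiniteGen d L)
    (h2 : ∀ (S : Type) [Group S], Obeys L S → Finite S → IsSimpleGroup S → Gen 2 S) (n : ℕ)
    (ih : ∀ (G : Type) [Group G], Obeys L G → Group.FG G →
      (∀ K : Subgroup G, Gn d K → XN n K) → Finite G)
    (Q : Type) [Group Q] (hQ : Obeys L Q) (hfg : Group.FG Q)
    (hX : ∀ K : Subgroup Q, Gn d K → XN (n + 1) K)
    (hlf : ∀ M : Subgroup Q, M.Normal → LFs M → M = ⊥) : Finite Q := by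
  have hc : Ctx d n Q := by
    refine ⟨hd, fun K hK => hL K (hQ.subgroup K) (Main_gen hK), hX, ?_⟩
    intro K S _ f hf hS
    obtain ⟨g, hg⟩ := h2 S ((hQ.subgroup K).of_surjective f hf) hS.fin hS.simple
    refine ⟨g 0, g 1, ?_⟩
    rw [← hg]
    congr 1
    ext v
    simp only [Set.mem_insert_iff, Set.mem_singleton_iff, Set.mem_range, Fin.exists_fin_two]
    constructor
    · rintro (h | h)
      · exact Or.inl h.symm
      · exact Or.inr h.symm
    · rintro (h | h)
      · exact Or.inl h.symm
      · exact Or.inr h.symm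
  obtain ⟨Z, hZn, hZmem, hZX⟩ := exists_Z hc
  have hZl : LFs Z := by
    intro K hK hKfg
    refine ih K (hQ.subgroup K) ((Group.fg_iff_subgroup_fg K).2 hKfg) ?_
    intro A hA
    have h3 : A.map K.subtype ≤ Z := by
      rintro x ⟨a, -, rfl⟩
      exact hK a.2
    have h4 : XN n (A.map K.subtype) := hZX _ (Main_gn_map K.subtype hA) h3
    exact h4.of_injective (A.equivMapOfInjective K.subtype K.subtype_injective).toMonoidHom
      (A.equivMapOfInjective K.subtype K.subtype_injective).injective
  have hZb : Z = ⊥ := hlf Z hZn hZl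
  have hZ1 : ∀ z : Q, (∀ a b : Q, z ∈ rad n (Subgroup.closure {z, a, b})) → z = 1 := by
    intro z hz
    have h3 : z ∈ Z := (hZmem z).2 hz
    rw [hZb] at h3
    exact Subgroup.mem_bot.1 h3
  by_cases hS : ∃ K : Subgroup Q, Gn d K ∧ ¬ XN n K
  · exfalso
    obtain ⟨m, hm, he⟩ := exponent (show 1 ≤ d by omega) hL
    obtain ⟨D, hD⟩ := DD_nonempty hc ⟨m, hm, fun g => he Q hQ g⟩ hZ1 hS
    have h3 : sSup (DD n Q) = ⊥ := hlf _ DD.normal (fun K hK hKfg => DD.fin hc K hK hKfg)
    have h4 : D ≤ ⊥ := by
      rw [← h3]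
      exact le_sSup hD
    obtain ⟨a, b, hab⟩ := hD.1.nonab
    have h5 : ∀ x : D, x = 1 := fun x => Subtype.ext (Subgroup.mem_bot.1 (h4 x.2))
    exact hab (by rw [h5 a, h5 b])
  · push Not at hS
    exact ih Q hQ hfg hS

theorem main_aux {d : ℕ} (hd : 6 ≤ d) {L : Set (FreeGroup ℕ)} (hL : FiniteGen d L)
    (h2 : ∀ (S : Type) [Group S], Obeys L S → Finite S → IsSimpleGroup S → Gen 2 S)
    (hp : ∀ p : ℕ, p.Prime → PLocFin p L) (N : ℕ) :
    ∀ (G : Type) [Group G], Obeys L G → Group.FG G →
      (∀ K : Subgroup G, Gn d K → XN (N + 1) K) → Finite G := by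
  induction N with
  | zero =>
    intro G _ hG hfg h
    exact base (by omega) hL hp hG h hfg
  | succ N ih =>
    intro G _ hG hfg h
    obtain ⟨R, hRn, hR, hRmax⟩ := exists_lf G
    have hsurj : Function.Surjective (QuotientGroup.mk' R) := QuotientGroup.mk'_surjective R
    have hQfg : Group.FG (G ⧸ R) := Group.fg_of_surjective hsurj
    have hQ : Finite (G ⧸ R) := by
      refine Main_step hd hL h2 (N + 1) ih (G ⧸ R) (hG.of_surjective _ hsurj) hQfg ?_
        (fun M hn hM => lf_quot hR hRmax M hn hM)
      intro K hK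
      obtain ⟨A, hA, rfl⟩ := Main_gn_lift _ hsurj hK
      exact (h A hA).of_surjective ((QuotientGroup.mk' R).subgroupMap A)
        ((QuotientGroup.mk' R).subgroupMap_surjective A)
    have : R.FiniteIndex := Subgroup.finiteIndex_of_finite_quotient
    have hRfg : Group.FG R := inferInstance
    have hRfin : Finite R := hR R le_rfl ((Group.fg_iff_subgroup_fg R).1 hRfg)
    exact Finite.of_subgroup_quotient R

theorem main {d : ℕ} (hd : 6 ≤ d) {L : Set (FreeGroup ℕ)} (hL : FiniteGen d L)
    (h2 : ∀ (S : Type) [Group S], Obeys L S → Finite S → IsSimpleGroup S → Gen 2 S)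
    (hp : ∀ p : ℕ, p.Prime → PLocFin p L) : LocFin L := by
  intro G _ hG hfg
  obtain ⟨B, hB⟩ := bound hL
  exact main_aux hd hL h2 hp B G hG hfg (fun K hK => hB K (hG.subgroup K) (Main_gen hK))

end Pool.Agent.NPR
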