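import Pool.Agent.NPR.XNf

/-!
# NPR: simple groups of order `N` and `N`-perfect groups

Proofs.

* `Sm.eq_bot_or_eq`: `M.subgroupOf D` is normal in the simple group `D`
  (`IsSimpleGroup.eq_bot_or_eq_top_of_normal`).
* `Sm.eq_one_of_central`: the centre of `D` is normal, not everything (`nonab`), so trivial.
* `Sm.eq_of_le`: both have `N` elements and are finite (`Subgroup.eq_of_le_of_card_ge`).
* `Sm.pf`: `f : S →* Q` surjective, `XN N Q`; `f.ker` is `⊥` or `⊤`. If `⊥` then `Q` is
  isomorphic to `S` (injective and surjective), contradiction to `Sm.not_xn`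
  (`XN.of_injective`).
* `Sm.surj`: the kernel of `φ : S →* Q` is not `⊤`, so `⊥`, so `φ` is injective between finite
  groups with the same number of elements, so surjective.
* `Sm.disj`: `X ⊓ D` is normalised by `D`; if it is `D` then `D ≤ X`, so `XN N D`
  (`XN.of_le`), contradiction to `Sm.not_xn`; so it is `⊥`.
* `Pf.of_surjective`: compose.
* `Pf.hom_trivial`: the range of `φ` is in `XN` (`XN.of_injective`), use `φ.rangeRestrict`.
* `Pf.hom_sm`: if `φ` is not surjective its range has fewer than `N` elements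
  (a proper subgroup of a finite group), so it is in `XN` (`XN.of_card`), so `φ` is trivial.
* `Pf.sSup`: `f : P →* Q` surjective with `XN N Q`; for `D ∈ 𝒮` the composition `D → P → Q` is
  trivial (`Sm.pf` and `Pf.hom_trivial`), the elements of the `D` generate `P`.
* `Pf.kills`: by `Pf.hom_sm` the hom `φ` is trivial (done) or surjective. In the second case the
  image of `R` is normal in `S`, so `⊥` (done) or `⊤`; in the last case `S` is an image
  of `R`, so `XN N S` (`XN.of_surjective`), contradiction to `Sm.not_xn`.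
-/

set_option autoImplicit false

namespace Pool.Agent.NPR

open Subgroup

variable {G : Type} [Group G]

theorem Sm.eq_bot_or_eq {N : ℕ} {D M : Subgroup G} (h : Sm N D) (hM : M ≤ D) (hn : Nz D M) :
    M = ⊥ ∨ M = D := by
  have hs : IsSimpleGroup D := h.simple
  have hN : (M.subgroupOf D).Normal := by
    refine ⟨fun m hm d => ?_⟩
    rw [Subgroup.mem_subgroupOf] at hm ⊢
    simpa using hn d d.2 m hm
  rcases hN.eq_bot_or_eq_top with h0 | h0
  · left
    rw [Subgroup.subgroupOf_eq_bot] at h0
    exact (h0.eq_bot_of_le hM)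
  · right
    rw [Subgroup.subgroupOf_eq_top] at h0
    exact le_antisymm hM h0

theorem Sm.eq_one_of_central {N : ℕ} {D : Subgroup G} (h : Sm N D) {d : G} (hd : d ∈ D)
    (hc : ∀ x ∈ D, d * x = x * d) : d = 1 := by
  have hs : IsSimpleGroup D := h.simple
  have hN : (Subgroup.center D).Normal := inferInstance
  have hmem : (⟨d, hd⟩ : D) ∈ Subgroup.center D := by
    rw [Subgroup.mem_center_iff]
    intro g
    exact Subtype.ext (hc g g.2).symm
  rcases hN.eq_bot_or_eq_top with h0 | h0
  · rw [h0, Subgroup.mem_bot] at hmem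
    exact congrArg Subtype.val hmem
  · exfalso
    obtain ⟨a, b, hab⟩ := h.nonab
    apply hab
    have ha : b ∈ Subgroup.center D := by
      rw [h0]
      exact Subgroup.mem_top b
    exact Subgroup.mem_center_iff.1 ha a

theorem Sm.eq_of_le {N : ℕ} {D E : Subgroup G} (hD : Sm N D) (hE : Sm N E) (h : D ≤ E) :
    D = E := by
  have hf : Finite E := hE.fin
  apply Subgroup.eq_of_le_of_card_ge h
  rw [hD.card, hE.card]

theorem Sm.pf {N : ℕ} {S : Type} [Group S] (h : Sm N S) : Pf N S := by
  intro Q _ f hf hQ p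
  have hs : IsSimpleGroup S := h.simple
  have hN : f.ker.Normal := inferInstance
  rcases hN.eq_bot_or_eq_top with h0 | h0
  · exfalso
    have hi : Function.Injective f := (MonoidHom.ker_eq_bot_iff f).1 h0
    exact h.not_xn (hQ.of_injective f hi)
  · have : p ∈ f.ker := by
      rw [h0]
      exact Subgroup.mem_top p
    exact this

theorem Sm.surj {N : ℕ} {S Q : Type} [Group S] [Group Q] (hS : Sm N S) (hQ : Sm N Q)
    (φ : S →* Q) (h : ∃ s, φ s ≠ 1) : Function.Surjective φ := by
  have hs : IsSimpleGroup S := hS.simple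
  have hN : φ.ker.Normal := inferInstance
  have hf1 : Finite S := hS.fin
  have hf2 : Finite Q := hQ.fin
  rcases hN.eq_bot_or_eq_top with h0 | h0
  · have hi : Function.Injective φ := (MonoidHom.ker_eq_bot_iff φ).1 h0
    have hb : Function.Bijective φ := by
      rw [Nat.bijective_iff_injective_and_card]
      exact ⟨hi, by rw [hS.card, hQ.card]⟩
    exact hb.2
  · exfalso
    obtain ⟨s, hs⟩ := h
    apply hs
    have : s ∈ φ.ker := by
      rw [h0]
      exact Subgroup.mem_top s
    exact this

theorem Sm.disj {N : ℕ} {D X : Subgroup G} (hD : Sm N D) (hn : Nz D X) (hx : XN N X) {x : G}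
    (h1 : x ∈ X) (h2 : x ∈ D) : x = 1 := by
  have hz : Nz D (X ⊓ D) := by
    intro k hk y hy
    exact ⟨hn k hk y hy.1, D.mul_mem (D.mul_mem hk hy.2) (D.inv_mem hk)⟩
  rcases hD.eq_bot_or_eq inf_le_right hz with h0 | h0
  · have : x ∈ X ⊓ D := ⟨h1, h2⟩
    rw [h0] at this
    exact Subgroup.mem_bot.1 this
  · exfalso
    have hle : D ≤ X := by
      rw [← h0]
      exact inf_le_left
    exact hD.not_xn (hx.of_le hle)

theorem Pf.of_surjective {N : ℕ} {P Q : Type} [Group P] [Group Q] (h : Pf N P) (φ : P →* Q)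
    (hφ : Function.Surjective φ) : Pf N Q := by
  intro S _ f hf hS q
  obtain ⟨p, rfl⟩ := hφ q
  exact h S (f.comp φ) (hf.comp hφ) hS p

theorem Pf.hom_trivial {N : ℕ} {P Q : Type} [Group P] [Group Q] (h : Pf N P) (φ : P →* Q)
    (hQ : XN N Q) (p : P) : φ p = 1 := by
  have h1 : XN N φ.range := hQ.of_injective φ.range.subtype Subtype.val_injective
  have h2 := h φ.range φ.rangeRestrict φ.rangeRestrict_surjective h1 p
  exact congrArg Subtype.val h2

theorem Pf.hom_sm {N : ℕ} {P S : Type} [Group P] [Group S] (h : Pf N P) (φ : P →* S)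
    (hS : Sm N S) : (∀ p, φ p = 1) ∨ Function.Surjective φ := by
  have hf : Finite S := hS.fin
  by_cases hr : φ.range = ⊤
  · right
    exact MonoidHom.range_eq_top.1 hr
  · left
    have hc : Nat.card φ.range < N := by
      rw [← hS.card]
      have h1 : Nat.card φ.range ≤ Nat.card S :=
        Nat.card_le_card_of_injective φ.range.subtype Subtype.val_injective
      refine lt_of_le_of_ne h1 (fun h2 => hr ?_)
      exact Subgroup.eq_top_of_card_eq _ h2
    have h1 : XN N φ.range := XN.of_card hc
    intro p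
    have h2 := h φ.range φ.rangeRestrict φ.rangeRestrict_surjective h1 p
    exact congrArg Subtype.val h2

theorem Pf.sSup {N : ℕ} {P : Subgroup G} (𝒮 : Set (Subgroup G)) (hP : P = sSup 𝒮)
    (h : ∀ D ∈ 𝒮, Sm N D) : Pf N P := by
  intro Q _ f hf hQ p
  have hle : ∀ D ∈ 𝒮, D ≤ P := by
    intro D hD
    rw [hP]
    exact _root_.le_sSup hD
  have key : ∀ D ∈ 𝒮, D ≤ f.ker.map P.subtype := by
    intro D hD x hx
    have h1 : f (Subgroup.inclusion (hle D hD) ⟨x, hx⟩) = 1 :=
      (h D hD).pf.hom_trivial (f.comp (Subgroup.inclusion (hle D hD))) hQ ⟨x, hx⟩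
    exact ⟨Subgroup.inclusion (hle D hD) ⟨x, hx⟩, h1, rfl⟩
  have h2 : P ≤ f.ker.map P.subtype :=
    hP.le.trans (_root_.sSup_le key)
  obtain ⟨y, hy, hyp⟩ := h2 p.2
  have h3 : y = p := Subtype.ext hyp
  rw [← h3]
  exact hy

theorem Pf.kills {N : ℕ} {P R : Subgroup G} (hP : Pf N P) (hR : R ≤ P) (hn : Nz P R)
    (hx : XN N R) {S : Type} [Group S] (hS : Sm N S) (φ : P →* S) {r : G} (hr : r ∈ R) :
    φ ⟨r, hR hr⟩ = 1 := by
  rcases hP.hom_sm φ hS with h0 | hsurj
  · exact h0 _
  · have hs : IsSimpleGroup S := hS.simple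
    have hRN : (R.subgroupOf P).Normal := by
      refine ⟨fun m hm d => ?_⟩
      rw [Subgroup.mem_subgroupOf] at hm ⊢
      simpa using hn d d.2 m hm
    have hN : ((R.subgroupOf P).map φ).Normal := Subgroup.Normal.map hRN φ hsurj
    have hmem : φ ⟨r, hR hr⟩ ∈ (R.subgroupOf P).map φ :=
      Subgroup.mem_map_of_mem φ (Subgroup.mem_subgroupOf.2 hr)
    rcases hN.eq_bot_or_eq_top with h0 | h0
    · rw [h0] at hmem
      exact Subgroup.mem_bot.1 hmem
    · exfalso
      refine hS.not_xn (hx.of_surjective (φ.comp (Subgroup.inclusion hR)) ?_)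
      intro s
      have h3 : s ∈ (R.subgroupOf P).map φ := by
        rw [h0]
        exact Subgroup.mem_top s
      obtain ⟨b, hb, rfl⟩ := h3
      exact ⟨⟨b, hb⟩, rfl⟩

end Pool.Agent.NPR
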