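import Pool.Agent.NPR.Defs

/-!
# NPR: the class `XN`

`XN N H`: for every subgroup `A` of `H` and every surjective `f : A →* S` onto a simple
nonabelian group `S` one has `Nat.card S < N`.

Proofs.

* `of_injective`: given `A ≤ H'` and `f : A →* S`, use the subgroup `A.map φ` of `H` and
  the composition of `f` with the inverse of `A ≃* A.map φ` (`Subgroup.equivMapOfInjective`).
* `of_surjective`: given `A ≤ H'` and `f : A →* S`, use `A.comap φ` and the composition
  `A.comap φ → A → S` (surjective, as `φ` is).
* `of_ker`: given `A ≤ H`, `f : A →* S` surjective. Let `B` be the set of `a : A` with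
  `φ a = 1`, a normal subgroup of `A`; its image `f(B)` is normal in the simple group `S`
  (`Subgroup.Normal.map`), so it is `⊥` or `⊤`. If `⊤`: `B` maps injectively into `φ.ker`
  (as a subgroup) and onto `S`: use `h1`. If `⊥`: `f` factors through `A → φ(A)`
  (kernel `B ≤ ker f`; `QuotientGroup.lift` or `MonoidHom.liftOfRightInverse`), so a subgroup
  of `φ.range` maps onto `S`: use `h2`.
* `of_le`: `of_injective` with `Subgroup.inclusion`.
* `of_card`: `Nat.card S ≤ Nat.card A ≤ Nat.card H < N`.
* `of_comm`: `S` would be commutative.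
* `mono`: clear.
* `Sm.not_xn`: apply `XN` to `A = ⊤` and `Subgroup.topEquiv`.
* `sm_of_not`: `H` is simple, in `XN (N + 1)`, not in `XN N`. There are `A`, `S`, `f` with
  `Nat.card S` not `< N`, and `< N + 1`, so `Nat.card S = N`. `H` is not commutative
  (`of_comm`), so `H` itself is a nonabelian simple section of `H`: `Nat.card H < N + 1`. And
  `N = Nat.card S ≤ Nat.card A ≤ Nat.card H`.
-/

set_option autoImplicit false

namespace Pool.Agent.NPR

open Subgroup

variable {G : Type} [Group G]

/-- A simple nonabelian group in the class `XN N` has order `< N`. -/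
theorem XN.xnfSelf {N : ℕ} {S : Type} [Group S] (h : XN N S) (hS : IsSimpleGroup S)
    (hn : ∃ a b : S, a * b ≠ b * a) : Nat.card S < N :=
  h ⊤ S (Subgroup.topEquiv (G := S)).toMonoidHom (Subgroup.topEquiv (G := S)).surjective hS hn

theorem XN.of_injective {N : ℕ} {H H' : Type} [Group H] [Group H'] (h : XN N H)
    (φ : H' →* H) (hφ : Function.Injective φ) : XN N H' := by
  intro A S _ f hf hS hn
  refine h (A.map φ) S (f.comp (A.equivMapOfInjective φ hφ).symm.toMonoidHom) ?_ hS hn
  intro s
  obtain ⟨a, rfl⟩ := hf s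
  refine ⟨A.equivMapOfInjective φ hφ a, ?_⟩
  simp

theorem XN.of_surjective {N : ℕ} {H H' : Type} [Group H] [Group H'] (h : XN N H)
    (φ : H →* H') (hφ : Function.Surjective φ) : XN N H' := by
  intro A S _ f hf hS hn
  refine h (A.comap φ) S (f.comp (φ.subgroupComap A)) ?_ hS hn
  exact hf.comp (MonoidHom.subgroupComap_surjective_of_surjective φ A hφ)

theorem XN.of_ker {N : ℕ} {H Q : Type} [Group H] [Group Q] (φ : H →* Q)
    (h1 : XN N φ.ker) (h2 : XN N φ.range) : XN N H := by
  intro A S _ f hf hS hn
  let ψ : A →* Q := φ.comp A.subtype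
  have hN : (ψ.ker.map f).Normal := Subgroup.Normal.map inferInstance f hf
  rcases hN.eq_bot_or_eq_top with h0 | h0
  · -- `f` factors through `ψ`
    have hr : XN N ψ.range := by
      have hle : ψ.range ≤ φ.range := by
        rintro _ ⟨a, rfl⟩
        exact ⟨a, rfl⟩
      exact h2.of_injective (Subgroup.inclusion hle) (Subgroup.inclusion_injective hle)
    have hq : XN N (A ⧸ ψ.ker) :=
      hr.of_injective (QuotientGroup.quotientKerEquivRange ψ).toMonoidHom
        (QuotientGroup.quotientKerEquivRange ψ).injective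
    have hker : ∀ x ∈ ψ.ker, f x = 1 := by
      intro x hx
      have h3 : f x ∈ ψ.ker.map f := Subgroup.mem_map_of_mem f hx
      rw [h0] at h3
      exact Subgroup.mem_bot.1 h3
    have hs : XN N S := by
      refine hq.of_surjective (QuotientGroup.lift ψ.ker f hker) ?_
      intro s
      obtain ⟨a, rfl⟩ := hf s
      exact ⟨(a : A ⧸ ψ.ker), rfl⟩
    exact hs.xnfSelf hS hn
  · have hB : XN N ψ.ker := by
      let χ : ψ.ker →* φ.ker :=
        (A.subtype.comp ψ.ker.subtype).codRestrict φ.ker (fun x => x.2)
      refine h1.of_injective χ ?_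
      intro x y hxy
      have h3 : ((x : A) : H) = ((y : A) : H) :=
        congrArg (fun z : φ.ker => (z : H)) hxy
      exact Subtype.ext (Subtype.ext h3)
    have hs : XN N S := by
      refine hB.of_surjective (f.comp ψ.ker.subtype) ?_
      intro s
      have h3 : s ∈ ψ.ker.map f := by
        rw [h0]
        exact Subgroup.mem_top s
      obtain ⟨b, hb, rfl⟩ := h3
      exact ⟨⟨b, hb⟩, rfl⟩
    exact hs.xnfSelf hS hn

theorem XN.of_le {N : ℕ} {A B : Subgroup G} (h : A ≤ B) (hB : XN N B) : XN N A :=
  hB.of_injective (Subgroup.inclusion h) (Subgroup.inclusion_injective h)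

theorem XN.of_card {N : ℕ} {H : Type} [Group H] [Finite H] (h : Nat.card H < N) : XN N H := by
  intro A S _ f hf _ _
  have h1 : Nat.card S ≤ Nat.card A := Nat.card_le_card_of_surjective f hf
  have h2 : Nat.card A ≤ Nat.card H :=
    Nat.card_le_card_of_injective A.subtype Subtype.val_injective
  omega

theorem XN.of_comm {N : ℕ} {H : Type} [Group H] (h : ∀ a b : H, a * b = b * a) : XN N H := by
  intro A S _ f hf _ hn
  exfalso
  obtain ⟨a, b, hab⟩ := hn
  obtain ⟨x, rfl⟩ := hf a
  obtain ⟨y, rfl⟩ := hf b
  apply hab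
  have h1 : x * y = y * x := Subtype.ext (h x y)
  rw [← map_mul, ← map_mul, h1]

theorem XN.mono {M N : ℕ} {H : Type} [Group H] (hMN : M ≤ N) (h : XN M H) : XN N H := by
  intro A S _ f hf hS hn
  exact (h A S f hf hS hn).trans_le hMN

theorem Sm.not_xn {N : ℕ} {S : Type} [Group S] (h : Sm N S) : ¬ XN N S := by
  intro h1
  have h2 := h1.xnfSelf h.simple h.nonab
  rw [h.card] at h2
  exact lt_irrefl _ h2

theorem XN.sm_of_not {N : ℕ} {H : Type} [Group H] [Finite H] (h : XN (N + 1) H)
    (hs : IsSimpleGroup H) (hn : ¬ XN N H) : Sm N H := by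
  have hnab : ∃ a b : H, a * b ≠ b * a := by
    by_contra h0
    push Not at h0
    exact hn (XN.of_comm h0)
  have h3 : N ≤ Nat.card H := by
    by_contra h0
    exact hn (XN.of_card (not_le.1 h0))
  refine ⟨inferInstance, hs, hnab, ?_⟩
  have h4 := h.xnfSelf hs hnab
  omega

end Pool.Agent.NPR
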